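import Pool.Agent.LibJes52.Defs
import Pool.Agent.LibHall43.B2

/-!
The divisor bound.
-/

set_option autoImplicit false
open scoped Classical
open Finset

namespace Pool.Agent.LibJes52

/-- the number of divisors of `n` is `O(n ^ ε)` -/
theorem card_divisors_le_rpow (ε : ℝ) (hε : 0 < ε) :
    ∃ C : ℝ, 1 ≤ C ∧ ∀ n : ℕ, 0 < n → (n.divisors.card : ℝ) ≤ C * (n : ℝ) ^ ε := by
  obtain ⟨q, hq⟩ := exists_nat_gt (1 / ε)
  have hq0 : (0 : ℝ) < q := lt_trans (by positivity) hq
  have hq1 : 1 ≤ q := by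
    rcases Nat.eq_zero_or_pos q with h | h
    · subst h; simp at hq0
    · exact h
  obtain ⟨c, hc1, hc⟩ := LibHall.divisor_bound q hq1
  refine ⟨c, hc1, fun n hn => ?_⟩
  have hn1 : (1 : ℝ) ≤ n := by exact_mod_cast hn
  have h := hc n hn
  have hinv : 1 / (q : ℝ) ≤ ε := by
    rw [div_le_iff₀ hq0]
    rw [div_lt_iff₀ hε] at hq
    linarith
  have hc1' : c ^ (1 / (q : ℝ)) ≤ c := by
    calc c ^ (1 / (q : ℝ)) ≤ c ^ (1 : ℝ) := by
          apply Real.rpow_le_rpow_of_exponent_le hc1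
          rw [div_le_one hq0]
          exact_mod_cast hq1
      _ = c := Real.rpow_one c
  calc (n.divisors.card : ℝ) = (((n.divisors.card : ℝ)) ^ (q : ℝ)) ^ (1 / (q : ℝ)) := by
        rw [← Real.rpow_mul (by positivity), mul_one_div_cancel hq0.ne', Real.rpow_one]
    _ ≤ (c * n) ^ (1 / (q : ℝ)) := by
        apply Real.rpow_le_rpow (by positivity) _ (by positivity)
        rw [Real.rpow_natCast]
        exact h
    _ = c ^ (1 / (q : ℝ)) * (n : ℝ) ^ (1 / (q : ℝ)) := by
        rw [Real.mul_rpow (by linarith) (by linarith)]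
    _ ≤ c * (n : ℝ) ^ ε := by
        apply mul_le_mul hc1' _ (by positivity) (by linarith)
        exact Real.rpow_le_rpow_of_exponent_le hn1 hinv

end Pool.Agent.LibJes52
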