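import Pool.Agent.LibJes52.Defs

/-!
Solutions of `(k w ^ 2) ^ D = j ^ D` modulo a prime.
-/

set_option autoImplicit false
open scoped Classical
open Finset

namespace Pool.Agent.LibJes52

theorem card_zmod_le {p : ℕ} [Fact p.Prime] {k j : ZMod p} (hk : k ≠ 0) (hj : j ≠ 0) {D : ℕ}
    (hD : 0 < D) :
    (univ.filter (fun w : ZMod p => w ≠ 0 ∧ (k * w ^ 2) ^ D = j ^ D)).card ≤
      Nat.gcd (2 * D) (p - 1) := by
  have hp := (Fact.out : p.Prime)
  set A := univ.filter (fun w : ZMod p => w ≠ 0 ∧ (k * w ^ 2) ^ D = j ^ D) with hA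
  set g := Nat.gcd (2 * D) (p - 1) with hg
  have hg0 : 0 < g := Nat.gcd_pos_of_pos_left _ (by omega)
  rcases A.eq_empty_or_nonempty with h | ⟨w₀, hw₀⟩
  · rw [h, Finset.card_empty]
    exact Nat.zero_le _
  · rw [hA, Finset.mem_filter] at hw₀
    obtain ⟨-, hw0, hw1⟩ := hw₀
    -- the quotients are roots of unity
    have hroot : ∀ w ∈ A, (w / w₀) ^ g = 1 := by
      intro w hw
      rw [hA, Finset.mem_filter] at hw
      obtain ⟨-, hwn, hw2⟩ := hw
      have h1 : (w / w₀) ^ (2 * D) = 1 := by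
        have h2 : k ^ D * w ^ (2 * D) = k ^ D * w₀ ^ (2 * D) := by
          rw [pow_mul, pow_mul, ← mul_pow, ← mul_pow, hw2, hw1]
        have h3 := mul_left_cancel₀ (pow_ne_zero D hk) h2
        rw [div_pow, h3, div_self (pow_ne_zero _ hw0)]
      have h4 : (w / w₀) ^ (p - 1) = 1 := ZMod.pow_card_sub_one_eq_one (div_ne_zero hwn hw0)
      have h5 := orderOf_dvd_of_pow_eq_one h1
      have h6 := orderOf_dvd_of_pow_eq_one h4
      exact orderOf_dvd_iff_pow_eq_one.mp (Nat.dvd_gcd h5 h6)
    have hsub : A.image (fun w => w / w₀) ⊆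
        (Polynomial.nthRoots g (1 : ZMod p)).toFinset := by
      intro x hx
      obtain ⟨w, hw, rfl⟩ := Finset.mem_image.mp hx
      rw [Multiset.mem_toFinset, Polynomial.mem_nthRoots hg0]
      exact hroot w hw
    have hinj : Set.InjOn (fun w : ZMod p => w / w₀) (A : Set (ZMod p)) := by
      intro x _ y _ hxy
      exact (div_left_inj' hw0).mp hxy
    calc A.card = (A.image (fun w => w / w₀)).card := (Finset.card_image_of_injOn hinj).symm
      _ ≤ (Polynomial.nthRoots g (1 : ZMod p)).toFinset.card := Finset.card_le_card hsub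
      _ ≤ (Polynomial.nthRoots g (1 : ZMod p)).card := Multiset.toFinset_card_le _
      _ ≤ g := Polynomial.card_nthRoots g 1

end Pool.Agent.LibJes52
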