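import Pool.Agent.LibJes52.C1

/-!
Counting residue classes by the Chinese remainder theorem.
-/

set_option autoImplicit false
open scoped Classical
open Finset

namespace Pool.Agent.LibJes52

/-- in an interval of length `∏ p` (the primes `p ∈ P`) the number of integers whose classes
modulo every `p ∈ P` belong to `A p` is at most `∏ |A p|` -/
theorem card_crt_le (P : Finset ℕ) (hP : ∀ p ∈ P, p.Prime) (A : (p : ℕ) → Finset (ZMod p))
    (X : ℕ) :
    ((Icc 1 X).filter (fun w : ℕ => ∀ p ∈ P, (w : ZMod p) ∈ A p)).card ≤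
      (X / (∏ p ∈ P, p) + 1) * ∏ p ∈ P, (A p).card := by
  set Q := ∏ p ∈ P, p with hQ
  have hkey : ∀ w w' : ℕ, w ≤ w' → (∀ p ∈ P, (w : ZMod p) = (w' : ZMod p)) →
      w / Q = w' / Q → w = w' := by
    intro w w' hle hp hdiv
    have h1 : Q ∣ w' - w := by
      rw [hQ]
      refine Finset.prod_primes_dvd _ (fun p h => (hP p h).prime) fun p h => ?_
      have h2 := (ZMod.natCast_eq_natCast_iff' w w' p).1 (hp p h)
      exact (Nat.modEq_iff_dvd' hle).1 h2
    have h3 : w % Q = w' % Q := (Nat.modEq_iff_dvd' hle).2 h1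
    rw [← Nat.div_add_mod w Q, ← Nat.div_add_mod w' Q, hdiv, h3]
  have hcard : (range (X / Q + 1) ×ˢ P.pi A).card = (X / Q + 1) * ∏ p ∈ P, (A p).card := by
    rw [Finset.card_product, Finset.card_range, Finset.card_pi]
  rw [← hcard]
  refine Finset.card_le_card_of_injOn
    (fun w => (w / Q, fun (p : ℕ) (_ : p ∈ P) => (w : ZMod p))) ?_ ?_
  · intro w hw
    have hw' := Finset.mem_filter.1 (Finset.mem_coe.1 hw)
    refine Finset.mem_coe.2 (Finset.mem_product.2 ⟨?_, ?_⟩)
    · refine Finset.mem_range.2 (Nat.lt_succ_of_le ?_)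
      exact Nat.div_le_div_right (Finset.mem_Icc.1 hw'.1).2
    · exact Finset.mem_pi.2 fun p hp => hw'.2 p hp
  · intro w _ w' _ heq
    have h1 : w / Q = w' / Q := congrArg Prod.fst heq
    have h2 : ∀ p ∈ P, (w : ZMod p) = (w' : ZMod p) := fun p hp =>
      congrFun (congrFun (congrArg Prod.snd heq) p) hp
    rcases le_total w w' with h | h
    · exact hkey w w' h h2 h1
    · exact (hkey w' w h (fun p hp => (h2 p hp).symm) h1.symm).symm

theorem card_dvd_le {q X k j D : ℕ} (hq : 0 < q) (hcop : q.Coprime (k * j)) (hD : 0 < D) :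
    ((Icc 1 X).filter (fun w : ℕ => q.Coprime w ∧
      (q : ℤ) ∣ ((k : ℤ) * (w : ℤ) ^ 2) ^ D - (j : ℤ) ^ D)).card ≤
      (X / rad q + 1) * ∏ p ∈ q.primeFactors, Nat.gcd (2 * D) (p - 1) := by
  set A : (p : ℕ) → Finset (ZMod p) := fun p =>
    if h : p.Prime then
      haveI := Fact.mk h
      univ.filter (fun w : ZMod p => w ≠ 0 ∧ ((k : ZMod p) * w ^ 2) ^ D = (j : ZMod p) ^ D)
    else ∅ with hA
  have hmem : ∀ p (h : p.Prime) (w : ZMod p), w ∈ A p ↔
      (w ≠ 0 ∧ ((k : ZMod p) * w ^ 2) ^ D = (j : ZMod p) ^ D) := by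
    intro p h w
    haveI := Fact.mk h
    simp only [hA, dif_pos h]
    exact ⟨fun h1 => (Finset.mem_filter.1 h1).2, fun h1 => Finset.mem_filter.2 ⟨mem_univ _, h1⟩⟩
  have hcardA : ∀ p ∈ q.primeFactors, (A p).card ≤ Nat.gcd (2 * D) (p - 1) := by
    intro p hp
    have h := Nat.prime_of_mem_primeFactors hp
    haveI := Fact.mk h
    have hpq := Nat.dvd_of_mem_primeFactors hp
    have hnd : ¬ p ∣ k * j := fun h1 =>
      h.one_lt.ne' (Nat.eq_one_of_dvd_coprimes hcop hpq h1)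
    have hk : (k : ZMod p) ≠ 0 := fun h1 =>
      hnd (Dvd.dvd.mul_right ((ZMod.natCast_eq_zero_iff _ _).1 h1) _)
    have hj : (j : ZMod p) ≠ 0 := fun h1 =>
      hnd (Dvd.dvd.mul_left ((ZMod.natCast_eq_zero_iff _ _).1 h1) _)
    have h2 := card_zmod_le hk hj hD
    simp only [hA, dif_pos h]
    exact h2
  refine (Finset.card_le_card ?_).trans
    ((card_crt_le q.primeFactors (fun p hp => Nat.prime_of_mem_primeFactors hp) A X).trans ?_)
  · intro w hw
    rw [Finset.mem_filter] at hw ⊢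
    refine ⟨hw.1, fun p hp => ?_⟩
    have h := Nat.prime_of_mem_primeFactors hp
    have hpq := Nat.dvd_of_mem_primeFactors hp
    rw [hmem p h]
    refine ⟨fun h1 => ?_, ?_⟩
    · have h2 := (ZMod.natCast_eq_zero_iff _ _).1 h1
      exact h.one_lt.ne' (Nat.eq_one_of_dvd_coprimes hw.2.1 hpq h2)
    · have h2 : ((p : ℕ) : ℤ) ∣ ((k : ℤ) * (w : ℤ) ^ 2) ^ D - (j : ℤ) ^ D :=
        (Int.natCast_dvd_natCast.2 hpq).trans hw.2.2
      have h3 := (ZMod.intCast_zmod_eq_zero_iff_dvd _ p).2 h2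
      push_cast at h3
      exact sub_eq_zero.1 h3
  · have hr : rad q = ∏ p ∈ q.primeFactors, p := rfl
    rw [← hr]
    exact Nat.mul_le_mul_left _ (Finset.prod_le_prod' hcardA)

end Pool.Agent.LibJes52
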