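import Pool.Agent.LibJes52.Defs

/-!
Rankin's trick.
-/

set_option autoImplicit false
open scoped Classical
open Finset

namespace Pool.Agent.LibJes52

/-- `∑_n gcd(D, n) n ^ (-1-ε)` is at most a constant times the number of divisors of `D` -/
theorem sum_gcd_rpow_le (ε : ℝ) (hε : 0 < ε) : ∃ C : ℝ, 0 < C ∧ ∀ X D : ℕ, 0 < D →
    ∑ n ∈ Icc 1 X, (Nat.gcd D n : ℝ) * (n : ℝ) ^ (-1 - ε) ≤ C * (D.divisors.card : ℝ) := by
  have hs : Summable (fun n : ℕ => (n : ℝ) ^ (-1 - ε)) := by
    rw [Real.summable_nat_rpow]; linarith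
  have hnn : ∀ n : ℕ, 0 ≤ (n : ℝ) ^ (-1 - ε) := fun n => Real.rpow_nonneg (Nat.cast_nonneg n) _
  refine ⟨∑' n : ℕ, (n : ℝ) ^ (-1 - ε), ?_, ?_⟩
  · have h1 := hs.le_tsum 1 (fun n _ => hnn n)
    have h2 : ((1 : ℕ) : ℝ) ^ (-1 - ε) = 1 := by simp
    rw [h2] at h1
    linarith
  · intro X D hD
    have key : ∀ e ∈ D.divisors, ∑ n ∈ (Icc 1 X).filter (fun n => e ∣ n),
        (e : ℝ) * (n : ℝ) ^ (-1 - ε) ≤ ∑' n : ℕ, (n : ℝ) ^ (-1 - ε) := by
      intro e he
      have he0 : 0 < e := Nat.pos_of_mem_divisors he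
      have hsub : (Icc 1 X).filter (fun n => e ∣ n) ⊆ (Icc 1 X).image (fun m => e * m) := by
        intro n hn
        rw [mem_filter, mem_Icc] at hn
        obtain ⟨⟨h1, h2⟩, m, rfl⟩ := hn
        rw [mem_image]
        refine ⟨m, ?_, rfl⟩
        rw [mem_Icc]
        constructor
        · rcases Nat.eq_zero_or_pos m with h | h
          · subst h; simp at h1
          · exact h
        · exact le_trans (Nat.le_mul_of_pos_left m he0) h2
      have hinj : Set.InjOn (fun m : ℕ => e * m) ((Icc 1 X : Finset ℕ) : Set ℕ) := by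
        intro a _ b _ hab
        exact Nat.eq_of_mul_eq_mul_left he0 hab
      calc ∑ n ∈ (Icc 1 X).filter (fun n => e ∣ n), (e : ℝ) * (n : ℝ) ^ (-1 - ε)
          ≤ ∑ n ∈ (Icc 1 X).image (fun m => e * m), (e : ℝ) * (n : ℝ) ^ (-1 - ε) :=
            sum_le_sum_of_subset_of_nonneg hsub
              (fun n _ _ => mul_nonneg (Nat.cast_nonneg e) (hnn n))
        _ = ∑ m ∈ Icc 1 X, (e : ℝ) * ((e * m : ℕ) : ℝ) ^ (-1 - ε) := sum_image hinj
        _ ≤ ∑ m ∈ Icc 1 X, (m : ℝ) ^ (-1 - ε) := by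
            apply sum_le_sum
            intro m _
            have he1 : (1 : ℝ) ≤ (e : ℝ) := by exact_mod_cast he0
            have hepos : (0 : ℝ) < (e : ℝ) := by linarith
            rw [Nat.cast_mul, Real.mul_rpow (Nat.cast_nonneg e) (Nat.cast_nonneg m), ← mul_assoc]
            have h3 : (e : ℝ) * (e : ℝ) ^ (-1 - ε) = (e : ℝ) ^ (-ε) := by
              have h4 := Real.rpow_add hepos 1 (-1 - ε)
              rw [Real.rpow_one] at h4
              rw [← h4]
              congr 1
              ring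
            rw [h3]
            have h5 : (e : ℝ) ^ (-ε) ≤ 1 :=
              Real.rpow_le_one_of_one_le_of_nonpos he1 (by linarith)
            calc (e : ℝ) ^ (-ε) * (m : ℝ) ^ (-1 - ε) ≤ 1 * (m : ℝ) ^ (-1 - ε) :=
                  mul_le_mul_of_nonneg_right h5 (hnn m)
              _ = (m : ℝ) ^ (-1 - ε) := one_mul _
        _ ≤ ∑' n : ℕ, (n : ℝ) ^ (-1 - ε) := hs.sum_le_tsum _ (fun n _ => hnn n)
    calc ∑ n ∈ Icc 1 X, (Nat.gcd D n : ℝ) * (n : ℝ) ^ (-1 - ε)
        ≤ ∑ n ∈ Icc 1 X, ∑ e ∈ D.divisors,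
            (if e ∣ n then (e : ℝ) * (n : ℝ) ^ (-1 - ε) else 0) := by
          apply sum_le_sum
          intro n _
          have hmem : Nat.gcd D n ∈ D.divisors :=
            Nat.mem_divisors.mpr ⟨Nat.gcd_dvd_left D n, hD.ne'⟩
          have h6 := single_le_sum (s := D.divisors)
            (f := fun e : ℕ => (if e ∣ n then (e : ℝ) * (n : ℝ) ^ (-1 - ε) else 0))
            (fun e _ => by
              show (0 : ℝ) ≤ (if e ∣ n then (e : ℝ) * (n : ℝ) ^ (-1 - ε) else 0)
              split_ifs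
              · exact mul_nonneg (Nat.cast_nonneg e) (hnn n)
              · exact le_refl _) hmem
          simp only [Nat.gcd_dvd_right D n, if_true] at h6
          exact h6
      _ = ∑ e ∈ D.divisors, ∑ n ∈ Icc 1 X,
            (if e ∣ n then (e : ℝ) * (n : ℝ) ^ (-1 - ε) else 0) := sum_comm
      _ ≤ ∑ e ∈ D.divisors, ∑' n : ℕ, (n : ℝ) ^ (-1 - ε) := by
          apply sum_le_sum
          intro e he
          rw [← sum_filter]
          exact key e he
      _ = (∑' n : ℕ, (n : ℝ) ^ (-1 - ε)) * (D.divisors.card : ℝ) := by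
          rw [sum_const, nsmul_eq_mul, mul_comm]

private theorem sum_image_le_aux {α : Type} (s : Finset α) (e : α → ℕ) (f : ℕ → ℝ)
    (hf : ∀ q, 0 ≤ f q) : ∑ q ∈ s.image e, f q ≤ ∑ t ∈ s, f (e t) := by
  rw [← sum_fiberwise_of_maps_to (s := s) (t := s.image e) (g := e)
    (fun t ht => mem_image_of_mem e ht)]
  apply sum_le_sum
  intro q hq
  obtain ⟨t, ht, rfl⟩ := mem_image.mp hq
  exact single_le_sum (f := fun t => f (e t)) (fun t _ => hf (e t)) (mem_filter.mpr ⟨ht, rfl⟩)

private theorem sum_prod_aux (ε : ℝ) (hε : 0 < ε) (g : ℕ → ℝ) (hg : ∀ p, 0 ≤ g p) (X : ℕ)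
    (S : Finset ℕ) : (∀ p ∈ S, p.Prime) →
    ∑ q ∈ (Icc 1 X).filter (fun q => q.primeFactors ⊆ S),
      (∏ p ∈ q.primeFactors, g p) * (q : ℝ) ^ (-ε) ≤
      ∏ p ∈ S, (1 + g p * (p : ℝ) ^ (-ε) / (1 - (p : ℝ) ^ (-ε))) := by
  induction S using Finset.induction_on with
  | empty =>
    intro _
    rw [prod_empty]
    have hsub : (Icc 1 X).filter (fun q => q.primeFactors ⊆ (∅ : Finset ℕ)) ⊆ {1} := by
      intro q hq
      rw [mem_filter, mem_Icc, subset_empty, Nat.primeFactors_eq_empty] at hq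
      rw [mem_singleton]
      omega
    calc _ ≤ ∑ q ∈ ({1} : Finset ℕ), (∏ p ∈ q.primeFactors, g p) * (q : ℝ) ^ (-ε) :=
          sum_le_sum_of_subset_of_nonneg hsub (fun q _ _ => mul_nonneg
            (prod_nonneg (fun p _ => hg p)) (Real.rpow_nonneg (Nat.cast_nonneg q) _))
      _ = 1 := by simp
  | insert p S hpS ih =>
    intro hS
    have hp : p.Prime := hS p (mem_insert_self p S)
    have ih' := ih (fun r hr => hS r (mem_insert_of_mem hr))
    rw [prod_insert hpS]
    set r : ℝ := (p : ℝ) ^ (-ε) with hr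
    have hp1 : (1 : ℝ) < (p : ℝ) := by exact_mod_cast hp.one_lt
    have hr0 : 0 < r := Real.rpow_pos_of_pos (by linarith) _
    have hr1 : r < 1 := Real.rpow_lt_one_of_one_lt_of_neg hp1 (by linarith)
    set f : ℕ → ℝ := fun q => (∏ p ∈ q.primeFactors, g p) * (q : ℝ) ^ (-ε) with hf
    have hf0 : ∀ q, 0 ≤ f q := fun q => mul_nonneg (prod_nonneg (fun p _ => hg p))
      (Real.rpow_nonneg (Nat.cast_nonneg q) _)
    set u : ℕ → ℝ := fun i => if i = 0 then 1 else g p * r ^ i with hu
    set T := (Icc 1 X).filter (fun q => q.primeFactors ⊆ S) with hT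
    have hmul : ∀ i : ℕ, ∀ q ∈ T, f (p ^ i * q) = u i * f q := by
      intro i q hq
      rw [hT, mem_filter, mem_Icc] at hq
      have hq0 : q ≠ 0 := by omega
      have hpq : p ∉ q.primeFactors := fun h => hpS (hq.2 h)
      have hcop : Nat.Coprime (p ^ i) q := by
        apply Nat.Coprime.pow_left
        rw [hp.coprime_iff_not_dvd]
        intro h
        exact hpq (Nat.mem_primeFactors.mpr ⟨hp, h, hq0⟩)
      have hrp : ((p ^ i * q : ℕ) : ℝ) ^ (-ε) = r ^ i * (q : ℝ) ^ (-ε) := by
        rw [Nat.cast_mul, Nat.cast_pow, Real.mul_rpow (by positivity) (Nat.cast_nonneg q), hr]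
        congr 1
        rw [← Real.rpow_natCast, ← Real.rpow_natCast, ← Real.rpow_mul (by positivity),
          ← Real.rpow_mul (by positivity), mul_comm]
      rcases Nat.eq_zero_or_pos i with h0 | h0
      · subst h0
        simp [hu]
      · have hpf : (p ^ i * q).primeFactors = insert p q.primeFactors := by
          rw [hcop.primeFactors_mul, Nat.primeFactors_prime_pow h0.ne' hp]
          rfl
        show (∏ p ∈ (p ^ i * q).primeFactors, g p) * ((p ^ i * q : ℕ) : ℝ) ^ (-ε) = _
        rw [hpf, prod_insert hpq, hrp]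
        simp only [hu, if_neg h0.ne', hf]
        ring
    have hsub : (Icc 1 X).filter (fun q => q.primeFactors ⊆ insert p S) ⊆
        ((range (X + 1)) ×ˢ T).image (fun t => p ^ t.1 * t.2) := by
      intro q hq
      rw [mem_filter, mem_Icc] at hq
      have hq0 : q ≠ 0 := by omega
      rw [mem_image]
      refine ⟨(q.factorization p, q / p ^ q.factorization p), ?_, Nat.ordProj_mul_ordCompl_eq_self q p⟩
      rw [mem_product, mem_range, hT, mem_filter, mem_Icc]
      refine ⟨?_, ⟨?_, ?_⟩, ?_⟩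
      · have := Nat.factorization_lt p hq0
        show q.factorization p < X + 1
        omega
      · exact Nat.ordCompl_pos p hq0
      · exact le_trans (Nat.ordCompl_le q p) hq.1.2
      · intro s hs
        have hs' := hs
        rw [Nat.mem_primeFactors] at hs
        have h7 : s ∈ q.primeFactors := Nat.mem_primeFactors.mpr
          ⟨hs.1, dvd_trans hs.2.1 (Nat.ordCompl_dvd q p), hq0⟩
        rcases mem_insert.mp (hq.2 h7) with h8 | h8
        · exfalso
          subst h8
          exact Nat.not_dvd_ordCompl hp hq0 hs.2.1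
        · exact h8
    calc ∑ q ∈ (Icc 1 X).filter (fun q => q.primeFactors ⊆ insert p S), f q
        ≤ ∑ q ∈ ((range (X + 1)) ×ˢ T).image (fun t => p ^ t.1 * t.2), f q :=
          sum_le_sum_of_subset_of_nonneg hsub (fun q _ _ => hf0 q)
      _ ≤ ∑ t ∈ (range (X + 1)) ×ˢ T, f (p ^ t.1 * t.2) :=
          sum_image_le_aux _ _ f hf0
      _ = (∑ i ∈ range (X + 1), u i) * ∑ q ∈ T, f q := by
          rw [sum_product, sum_mul_sum]
          apply sum_congr rfl
          intro i _
          apply sum_congr rfl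
          intro q hq
          exact hmul i q hq
      _ ≤ (1 + g p * r / (1 - r)) * ∏ p ∈ S, (1 + g p * (p : ℝ) ^ (-ε) / (1 - (p : ℝ) ^ (-ε))) := by
          apply mul_le_mul _ ih' (sum_nonneg (fun q _ => hf0 q))
          · have h9 : 0 ≤ g p * r / (1 - r) := div_nonneg (mul_nonneg (hg p) hr0.le) (by linarith)
            linarith
          · rw [sum_range_succ']
            have h10 : ∑ k ∈ range X, u (k + 1) = g p * r * ∑ k ∈ range X, r ^ k := by
              rw [mul_sum]
              apply sum_congr rfl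
              intro k _
              simp only [hu, Nat.succ_ne_zero, if_false]
              ring
            have h11 : ∑ k ∈ range X, r ^ k ≤ (1 - r)⁻¹ := by
              rw [← tsum_geometric_of_lt_one hr0.le hr1]
              exact (summable_geometric_of_lt_one hr0.le hr1).sum_le_tsum _
                (fun i _ => pow_nonneg hr0.le i)
            have h12 : u 0 = 1 := by simp [hu]
            rw [h10, h12, div_eq_mul_inv]
            have := mul_le_mul_of_nonneg_left h11 (mul_nonneg (hg p) hr0.le)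
            linarith

/-- Euler product: `g ≥ 0` on the primes -/
theorem sum_prod_le (ε : ℝ) (hε : 0 < ε) (g : ℕ → ℝ) (hg : ∀ p, 0 ≤ g p) (X : ℕ) :
    ∑ q ∈ Icc 1 X, (∏ p ∈ q.primeFactors, g p) * (q : ℝ) ^ (-ε) ≤
      ∏ p ∈ (Icc 1 X).filter Nat.Prime, (1 + g p * (p : ℝ) ^ (-ε) / (1 - (p : ℝ) ^ (-ε))) := by
  have h := sum_prod_aux ε hε g hg X ((Icc 1 X).filter Nat.Prime)
    (fun p hp => (mem_filter.mp hp).2)
  have h2 : (Icc 1 X).filter (fun q => q.primeFactors ⊆ (Icc 1 X).filter Nat.Prime) = Icc 1 X := by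
    rw [filter_eq_self]
    intro q hq p hp
    rw [mem_Icc] at hq
    rw [Nat.mem_primeFactors] at hp
    rw [mem_filter, mem_Icc]
    exact ⟨⟨hp.1.one_lt.le, le_trans (Nat.le_of_dvd (by omega) hp.2.1) hq.2⟩, hp.1⟩
  rw [h2] at h
  exact h

end Pool.Agent.LibJes52
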