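import Pool.Agent.LibJes52.C3

/-!
The average number of solutions.
-/

set_option autoImplicit false
open scoped Classical
open Finset

namespace Pool.Agent.LibJes52

private theorem rad_pos (q : ℕ) : 0 < rad q :=
  Finset.prod_pos fun _ hp => (Nat.prime_of_mem_primeFactors hp).pos

private theorem rad_le {q : ℕ} (hq : 0 < q) : rad q ≤ q :=
  Nat.le_of_dvd hq (Nat.prod_primeFactors_dvd q)

private theorem term_le {X D q : ℕ} {ε : ℝ} (hε : 0 < ε) (hq : 1 ≤ q) (hqX : q ≤ X) :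
    ((X / rad q + 1 : ℕ) : ℝ) * ∏ p ∈ q.primeFactors, (Nat.gcd D (p - 1) : ℝ) ≤
      2 * (X : ℝ) ^ (1 + ε) *
        ((∏ p ∈ q.primeFactors, ((Nat.gcd D (p - 1) : ℝ) / p)) * (q : ℝ) ^ (-ε)) := by
  have hXpos : (0 : ℝ) < X := by exact_mod_cast lt_of_lt_of_le hq hqX
  have hqpos : (0 : ℝ) < q := by exact_mod_cast hq
  have hr : (0 : ℝ) < (rad q : ℝ) := by exact_mod_cast rad_pos q
  have hrX : (rad q : ℝ) ≤ X := by exact_mod_cast (rad_le hq).trans hqX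
  have h1 : ((X / rad q + 1 : ℕ) : ℝ) ≤ 2 * ((X : ℝ) / rad q) := by
    have h2 : ((X / rad q : ℕ) : ℝ) ≤ (X : ℝ) / rad q := Nat.cast_div_le
    have h3 : (1 : ℝ) ≤ (X : ℝ) / rad q := by
      rw [le_div_iff₀ hr]; linarith
    push_cast
    linarith
  have h4 : (∏ p ∈ q.primeFactors, ((Nat.gcd D (p - 1) : ℝ) / p)) =
      (∏ p ∈ q.primeFactors, (Nat.gcd D (p - 1) : ℝ)) / rad q := by
    rw [Finset.prod_div_distrib, rad]
    push_cast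
    rfl
  have h5 : 0 ≤ ∏ p ∈ q.primeFactors, (Nat.gcd D (p - 1) : ℝ) :=
    Finset.prod_nonneg fun p _ => Nat.cast_nonneg _
  have h6 : (1 : ℝ) ≤ (X : ℝ) ^ ε * (q : ℝ) ^ (-ε) := by
    rw [Real.rpow_neg hqpos.le, ← div_eq_mul_inv, le_div_iff₀ (Real.rpow_pos_of_pos hqpos ε),
      one_mul]
    exact Real.rpow_le_rpow hqpos.le (by exact_mod_cast hqX) hε.le
  rw [h4, Real.rpow_add hXpos, Real.rpow_one]
  generalize ∏ p ∈ q.primeFactors, (Nat.gcd D (p - 1) : ℝ) = P at *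
  calc ((X / rad q + 1 : ℕ) : ℝ) * P ≤ 2 * ((X : ℝ) / rad q) * P :=
        mul_le_mul_of_nonneg_right h1 h5
    _ = 2 * ((X : ℝ) / rad q) * P * 1 := by ring
    _ ≤ 2 * ((X : ℝ) / rad q) * P * ((X : ℝ) ^ ε * (q : ℝ) ^ (-ε)) :=
        mul_le_mul_of_nonneg_left h6 (by positivity)
    _ = _ := by ring

theorem sum_classes_le (ε : ℝ) (hε : 0 < ε) : ∃ C : ℝ, 0 < C ∧ ∀ X D : ℕ, 1 ≤ X → 0 < D →
    ∑ q ∈ Icc 1 X, ((X / rad q + 1 : ℕ) : ℝ) *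
      ∏ p ∈ q.primeFactors, (Nat.gcd D (p - 1) : ℝ) ≤
      2 * (X : ℝ) ^ (1 + ε) * Real.exp (C * (D.divisors.card : ℝ)) := by
  obtain ⟨C₁, hC₁, h1⟩ := sum_gcd_rpow_le ε hε
  have h2ε : (2 : ℝ) ^ (-ε) < 1 :=
    Real.rpow_lt_one_of_one_lt_of_neg (by norm_num) (by linarith)
  have hκ : 0 < 1 - (2 : ℝ) ^ (-ε) := by linarith
  refine ⟨C₁ / (1 - (2 : ℝ) ^ (-ε)), by positivity, fun X D hX hD => ?_⟩
  have hXpos : (0 : ℝ) < X := by exact_mod_cast hX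
  calc _ ≤ ∑ q ∈ Icc 1 X, 2 * (X : ℝ) ^ (1 + ε) *
        ((∏ p ∈ q.primeFactors, ((Nat.gcd D (p - 1) : ℝ) / p)) * (q : ℝ) ^ (-ε)) :=
        Finset.sum_le_sum fun q hq => term_le hε (Finset.mem_Icc.mp hq).1 (Finset.mem_Icc.mp hq).2
    _ = 2 * (X : ℝ) ^ (1 + ε) * ∑ q ∈ Icc 1 X,
        (∏ p ∈ q.primeFactors, ((Nat.gcd D (p - 1) : ℝ) / p)) * (q : ℝ) ^ (-ε) := by
        rw [Finset.mul_sum]
    _ ≤ 2 * (X : ℝ) ^ (1 + ε) * Real.exp (C₁ / (1 - (2 : ℝ) ^ (-ε)) * (D.divisors.card : ℝ)) :=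
        mul_le_mul_of_nonneg_left ?_ (by positivity)
  refine (sum_prod_le ε hε (fun p => (Nat.gcd D (p - 1) : ℝ) / p) (fun p => by positivity)
    X).trans ?_
  have hle : ∀ p ∈ (Icc 1 X).filter Nat.Prime,
      1 + (Nat.gcd D (p - 1) : ℝ) / p * (p : ℝ) ^ (-ε) / (1 - (p : ℝ) ^ (-ε)) ≤
        Real.exp (1 / (1 - (2 : ℝ) ^ (-ε)) *
          ((Nat.gcd D (p - 1) : ℝ) * ((p - 1 : ℕ) : ℝ) ^ (-1 - ε))) := by
    intro p hp
    have hpp : p.Prime := (Finset.mem_filter.mp hp).2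
    have hp2 : (2 : ℝ) ≤ p := by exact_mod_cast hpp.two_le
    have hp0 : (0 : ℝ) < p := by linarith
    have hp1 : ((p - 1 : ℕ) : ℝ) = (p : ℝ) - 1 := by
      rw [Nat.cast_sub hpp.one_lt.le]; simp
    have e1 : (p : ℝ) ^ (-ε) ≤ (2 : ℝ) ^ (-ε) :=
      Real.rpow_le_rpow_of_nonpos (by norm_num) hp2 (by linarith)
    have e2 : 0 < 1 - (p : ℝ) ^ (-ε) := by linarith
    have e3 : 1 / (1 - (p : ℝ) ^ (-ε)) ≤ 1 / (1 - (2 : ℝ) ^ (-ε)) :=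
      one_div_le_one_div_of_le hκ (by linarith)
    have e4 : 1 / (p : ℝ) * (p : ℝ) ^ (-ε) = (p : ℝ) ^ (-1 - ε) := by
      rw [sub_eq_add_neg, Real.rpow_add hp0, Real.rpow_neg_one, one_div]
    have e5 : (p : ℝ) ^ (-1 - ε) ≤ ((p - 1 : ℕ) : ℝ) ^ (-1 - ε) := by
      rw [hp1]
      exact Real.rpow_le_rpow_of_nonpos (by linarith) (by linarith) (by linarith)
    have e6 : (0 : ℝ) ≤ (Nat.gcd D (p - 1) : ℝ) := Nat.cast_nonneg _
    have e7 : (0 : ℝ) ≤ (p : ℝ) ^ (-1 - ε) := (Real.rpow_pos_of_pos hp0 _).le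
    have e8 : (Nat.gcd D (p - 1) : ℝ) / p * (p : ℝ) ^ (-ε) / (1 - (p : ℝ) ^ (-ε)) =
        1 / (1 - (p : ℝ) ^ (-ε)) * ((Nat.gcd D (p - 1) : ℝ) * (p : ℝ) ^ (-1 - ε)) := by
      rw [← e4]; ring
    rw [e8, add_comm]
    refine (Real.add_one_le_exp _).trans (Real.exp_le_exp.mpr ?_)
    exact mul_le_mul e3 (mul_le_mul_of_nonneg_left e5 e6) (by positivity) (by positivity)
  refine (Finset.prod_le_prod (fun p hp => ?_) hle).trans ?_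
  · have hpp : p.Prime := (Finset.mem_filter.mp hp).2
    have hp2 : (2 : ℝ) ≤ p := by exact_mod_cast hpp.two_le
    have e1 : (p : ℝ) ^ (-ε) ≤ (2 : ℝ) ^ (-ε) :=
      Real.rpow_le_rpow_of_nonpos (by norm_num) hp2 (by linarith)
    have e2 : 0 < 1 - (p : ℝ) ^ (-ε) := by linarith
    positivity
  rw [← Real.exp_sum, ← Finset.mul_sum]
  refine Real.exp_le_exp.mpr ?_
  rw [show C₁ / (1 - (2 : ℝ) ^ (-ε)) * (D.divisors.card : ℝ) =
    1 / (1 - (2 : ℝ) ^ (-ε)) * (C₁ * (D.divisors.card : ℝ)) by ring]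
  refine mul_le_mul_of_nonneg_left ?_ (by positivity : (0 : ℝ) ≤ 1 / (1 - (2 : ℝ) ^ (-ε)))
  refine le_trans ?_ (h1 X D hD)
  have himg : ∑ p ∈ (Icc 1 X).filter Nat.Prime,
      (Nat.gcd D (p - 1) : ℝ) * ((p - 1 : ℕ) : ℝ) ^ (-1 - ε) =
      ∑ n ∈ ((Icc 1 X).filter Nat.Prime).image (fun p => p - 1),
        (Nat.gcd D n : ℝ) * (n : ℝ) ^ (-1 - ε) := by
    rw [Finset.sum_image]
    intro p hp p' hp' heq
    have h1 := (Finset.mem_filter.mp (Finset.mem_coe.mp hp)).2.one_lt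
    have h2 := (Finset.mem_filter.mp (Finset.mem_coe.mp hp')).2.one_lt
    simp only at heq
    omega
  rw [himg]
  refine Finset.sum_le_sum_of_subset_of_nonneg ?_ fun n _ _ => by positivity
  intro n hn
  obtain ⟨p, hp, rfl⟩ := Finset.mem_image.mp hn
  have h1 := (Finset.mem_filter.mp hp).2.one_lt
  have h2 := (Finset.mem_Icc.mp (Finset.mem_filter.mp hp).1).2
  rw [Finset.mem_Icc]
  omega

end Pool.Agent.LibJes52
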