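import Pool.Agent.LibJes52.C0
import Pool.Agent.LibJes52.C2
import Pool.Agent.LibJes52.C4

/-!
Rare pairs are rare.
-/

set_option autoImplicit false
open scoped Classical
open Finset

namespace Pool.Agent.LibJes52

theorem rare_card_le_sum (X k j T : ℕ) : (Rare X k j T).card ≤
    ∑ D ∈ Icc 1 T, ∑ q ∈ Icc 1 X,
      (X / rad q + 1) * ∏ p ∈ q.primeFactors, Nat.gcd (2 * D) (p - 1) := by
  have h1 : Rare X k j T ⊆ (Icc 1 T).biUnion fun D => (Icc 1 X).biUnion fun q =>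
      ((Icc 1 X).filter (fun w : ℕ => q.Coprime (k * j) ∧ (q.Coprime w ∧
      (q : ℤ) ∣ ((k : ℤ) * (w : ℤ) ^ 2) ^ D - (j : ℤ) ^ D))).image (Prod.mk q) := by
    rintro ⟨q, w⟩ h
    simp only [Rare, mem_filter, mem_product] at h
    obtain ⟨⟨hq, hw⟩, h2, h3, D, hD0, hDT, hD⟩ := h
    rw [mem_biUnion]
    refine ⟨D, mem_Icc.2 ⟨hD0, hDT⟩, ?_⟩
    rw [mem_biUnion]
    refine ⟨q, hq, ?_⟩
    rw [mem_image]
    exact ⟨w, mem_filter.2 ⟨hw, h3, h2, hD⟩, rfl⟩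
  refine (card_le_card h1).trans (card_biUnion_le.trans (sum_le_sum fun D hD => ?_))
  refine card_biUnion_le.trans (sum_le_sum fun q hq => ?_)
  refine card_image_le.trans ?_
  by_cases hc : q.Coprime (k * j)
  · refine le_trans (card_le_card ?_) (card_dvd_le (X := X) (mem_Icc.1 hq).1 hc (mem_Icc.1 hD).1)
    intro w hw
    rw [mem_filter] at hw ⊢
    exact ⟨hw.1, hw.2.2⟩
  · rw [filter_false_of_mem, card_empty]
    · exact Nat.zero_le _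
    · intro w _ h
      exact hc h.1

/-- the logarithm to the base 2, rounded up -/
private theorem c5_clog {N : ℕ} (hN : 1 ≤ N) :
    ((Nat.clog 2 N : ℝ) + 1) * Real.log 2 ≤ Real.log N + 2 * Real.log 2 := by
  have hl2 : 0 < Real.log 2 := Real.log_pos (by norm_num)
  rcases Nat.lt_or_ge 1 N with h | h
  · have h1 : 2 ^ (Nat.clog 2 N).pred < N := Nat.pow_pred_clog_lt_self (by norm_num) h
    have h2 : 0 < Nat.clog 2 N := Nat.clog_pos (by norm_num) h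
    have h3 : ((2 : ℝ) ^ (Nat.clog 2 N).pred) ≤ N := by exact_mod_cast h1.le
    have h4 := Real.log_le_log (by positivity) h3
    rw [Real.log_pow] at h4
    have h5 : (((Nat.clog 2 N).pred : ℕ) : ℝ) = (Nat.clog 2 N : ℝ) - 1 := by
      rw [Nat.pred_eq_sub_one, Nat.cast_sub h2, Nat.cast_one]
    rw [h5] at h4
    linarith
  · have h1 : N = 1 := le_antisymm h hN
    subst h1
    simp
    linarith

/-- `exp (C d(2 D)) ≤ C' N ^ ε` for `D` at most a power of `log N` -/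
theorem exp_divisors_le (ε : ℝ) (hε : 0 < ε) (C : ℝ) (hC : 0 < C) : ∃ C' : ℝ, 0 < C' ∧
    ∀ N D : ℕ, 1 ≤ N → 0 < D → D ≤ 2 ^ 701 * (Nat.clog 2 N + 1) ^ 40 →
      Real.exp (C * ((2 * D).divisors.card : ℝ)) ≤ C' * (N : ℝ) ^ ε := by
  obtain ⟨C₀, hC₀, hd⟩ := card_divisors_le_rpow (1 / 80) (by norm_num)
  have hl2 : 0 < Real.log 2 := Real.log_pos (by norm_num)
  obtain ⟨A, hA⟩ : ∃ A, A = C * (C₀ * (2 : ℝ) ^ ((702 : ℝ) / 80)) := ⟨_, rfl⟩
  have hA0 : 0 < A := by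
    rw [hA]
    positivity
  refine ⟨Real.exp (A ^ 2 / (4 * (ε * Real.log 2)) + 2 * (ε * Real.log 2)), Real.exp_pos _, ?_⟩
  intro N D hN hD0 hD
  have hN0 : (0 : ℝ) < N := by exact_mod_cast hN
  obtain ⟨M, hM⟩ : ∃ M : ℝ, M = (Nat.clog 2 N : ℝ) + 1 := ⟨_, rfl⟩
  have hM1 : 1 ≤ M := by
    rw [hM]
    have := Nat.cast_nonneg (α := ℝ) (Nat.clog 2 N)
    linarith
  have h1 : ((2 * D : ℕ) : ℝ) ≤ 2 ^ (702 : ℝ) * M ^ (40 : ℝ) := by
    have h2 : ((2 * D : ℕ) : ℝ) ≤ ((2 * (2 ^ 701 * (Nat.clog 2 N + 1) ^ 40) : ℕ) : ℝ) := by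
      exact_mod_cast Nat.mul_le_mul_left 2 hD
    refine h2.trans (le_of_eq ?_)
    rw [hM]
    have h3 : (2 : ℝ) ^ (702 : ℝ) = 2 ^ 702 := by
      rw [← Real.rpow_natCast]
      norm_num
    have h4 : ((Nat.clog 2 N : ℝ) + 1) ^ (40 : ℝ) = ((Nat.clog 2 N : ℝ) + 1) ^ 40 := by
      rw [← Real.rpow_natCast]
      norm_num
    have h5 : (2 : ℝ) ^ 702 = 2 * 2 ^ 701 := pow_succ' 2 701
    rw [h3, h4, h5]
    push_cast
    ring
  have h2 : (((2 * D).divisors.card : ℕ) : ℝ) ≤ C₀ * ((2 : ℝ) ^ ((702 : ℝ) / 80) * M ^ ((1 : ℝ) / 2)) := by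
    refine (hd (2 * D) (by omega)).trans ?_
    apply mul_le_mul_of_nonneg_left _ (by linarith)
    refine (Real.rpow_le_rpow (Nat.cast_nonneg _) h1 (by norm_num)).trans (le_of_eq ?_)
    rw [Real.mul_rpow (by positivity) (by positivity), ← Real.rpow_mul (by norm_num),
      ← Real.rpow_mul (by linarith)]
    norm_num
  have h3 : C * (((2 * D).divisors.card : ℕ) : ℝ) ≤ A * Real.sqrt M := by
    rw [Real.sqrt_eq_rpow, hA]
    have h4 := mul_le_mul_of_nonneg_left h2 hC.le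
    linarith
  have h4 : A * Real.sqrt M ≤ A ^ 2 / (4 * (ε * Real.log 2)) + (ε * Real.log 2) * M := by
    have hB : 0 < ε * Real.log 2 := by positivity
    have hs : Real.sqrt M ^ 2 = M := Real.sq_sqrt (by linarith)
    obtain ⟨B, hBd⟩ : ∃ B, B = ε * Real.log 2 := ⟨_, rfl⟩
    rw [← hBd] at hB ⊢
    have h5 : 0 ≤ (A - 2 * B * Real.sqrt M) ^ 2 / (4 * B) := by positivity
    have h6 : (A - 2 * B * Real.sqrt M) ^ 2 / (4 * B) =
        A ^ 2 / (4 * B) - A * Real.sqrt M + B * M := by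
      field_simp
      rw [sub_sq, mul_pow, mul_pow, hs]
      ring
    rw [h6] at h5
    linarith
  have h5 := c5_clog hN
  rw [← hM] at h5
  have h6 : (ε * Real.log 2) * M ≤ ε * Real.log N + 2 * (ε * Real.log 2) := by
    have h7 := mul_le_mul_of_nonneg_left h5 hε.le
    linarith
  calc Real.exp (C * ((2 * D).divisors.card : ℝ))
      ≤ Real.exp ((A ^ 2 / (4 * (ε * Real.log 2)) + 2 * (ε * Real.log 2)) + ε * Real.log N) := by
        apply Real.exp_le_exp.2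
        linarith
    _ = _ := by
        rw [Real.exp_add, Real.rpow_def_of_pos hN0, mul_comm (Real.log N) ε]

private theorem c5_T (ε : ℝ) (hε : 0 < ε) : ∃ C : ℝ, 0 < C ∧ ∀ N : ℕ, 1 ≤ N →
    ((2 ^ 701 * (Nat.clog 2 N + 1) ^ 40 : ℕ) : ℝ) ≤ C * (N : ℝ) ^ ε := by
  have hl2 : 0 < Real.log 2 := Real.log_pos (by norm_num)
  obtain ⟨B, hB⟩ : ∃ B, B = ε * Real.log 2 := ⟨_, rfl⟩
  have hB0 : 0 < B := by
    rw [hB]
    positivity
  refine ⟨2 ^ 701 * ((Nat.factorial 40 : ℝ) / B ^ 40 * Real.exp (2 * B)), by positivity, ?_⟩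
  intro N hN
  have hN0 : (0 : ℝ) < N := by exact_mod_cast hN
  obtain ⟨M, hM⟩ : ∃ M : ℝ, M = (Nat.clog 2 N : ℝ) + 1 := ⟨_, rfl⟩
  have hM1 : 1 ≤ M := by
    rw [hM]
    have := Nat.cast_nonneg (α := ℝ) (Nat.clog 2 N)
    linarith
  have h1 : (B * M) ^ 40 / (Nat.factorial 40 : ℝ) ≤ Real.exp (B * M) :=
    Real.pow_div_factorial_le_exp _ (by positivity) 40
  have hf : (0 : ℝ) < (Nat.factorial 40 : ℝ) := by positivity
  have h2 : M ^ 40 ≤ (Nat.factorial 40 : ℝ) / B ^ 40 * Real.exp (B * M) := by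
    rw [div_le_iff₀ hf, mul_pow] at h1
    rw [div_mul_eq_mul_div, le_div_iff₀ (by positivity)]
    linarith
  have h5 := c5_clog hN
  rw [← hM] at h5
  have h6 : B * M ≤ 2 * B + ε * Real.log N := by
    have h7 := mul_le_mul_of_nonneg_left h5 hε.le
    rw [hB]
    linarith
  have h7 : Real.exp (B * M) ≤ Real.exp (2 * B) * (N : ℝ) ^ ε := by
    rw [Real.rpow_def_of_pos hN0, ← Real.exp_add, mul_comm (Real.log N) ε]
    exact Real.exp_le_exp.2 h6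
  push_cast
  rw [← hM]
  calc (2 : ℝ) ^ 701 * M ^ 40 ≤ 2 ^ 701 * ((Nat.factorial 40 : ℝ) / B ^ 40 *
        (Real.exp (2 * B) * (N : ℝ) ^ ε)) := by
        apply mul_le_mul_of_nonneg_left _ (by positivity)
        refine h2.trans ?_
        exact mul_le_mul_of_nonneg_left h7 (by positivity)
    _ = _ := by ring

theorem rare_card_le (ε : ℝ) (hε : 0 < ε) : ∃ C : ℝ, 0 < C ∧ ∀ N X k j : ℕ, 1 ≤ X → X ≤ 2 * N →
    ((Rare X k j (2 ^ 701 * (Nat.clog 2 N + 1) ^ 40)).card : ℝ) ≤ C * (N : ℝ) ^ ε * X := by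
  obtain ⟨C₁, hC₁, h₁⟩ := sum_classes_le (ε / 4) (by positivity)
  obtain ⟨C₂, hC₂, h₂⟩ := exp_divisors_le (ε / 4) (by positivity) C₁ hC₁
  obtain ⟨C₃, hC₃, h₃⟩ := c5_T (ε / 4) (by positivity)
  refine ⟨C₃ * (2 * (2 : ℝ) ^ (ε / 4) * C₂), by positivity, ?_⟩
  intro N X k j hX hXN
  have hN : 1 ≤ N := by omega
  have hN0 : (0 : ℝ) < N := by exact_mod_cast hN
  have hN1 : (1 : ℝ) ≤ N := by exact_mod_cast hN
  have hX0 : (0 : ℝ) < X := by exact_mod_cast hX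
  obtain ⟨T, hT⟩ : ∃ T, T = 2 ^ 701 * (Nat.clog 2 N + 1) ^ 40 := ⟨_, rfl⟩
  have hTb := h₃ N hN
  rw [← hT] at hTb ⊢
  have h4 : ((Rare X k j T).card : ℝ) ≤ ∑ D ∈ Icc 1 T, ∑ q ∈ Icc 1 X,
      ((X / rad q + 1 : ℕ) : ℝ) * ∏ p ∈ q.primeFactors, (Nat.gcd (2 * D) (p - 1) : ℝ) := by
    have h5 := rare_card_le_sum X k j T
    exact_mod_cast h5
  have h5 : ∀ D ∈ Icc 1 T, ∑ q ∈ Icc 1 X,
      ((X / rad q + 1 : ℕ) : ℝ) * ∏ p ∈ q.primeFactors, (Nat.gcd (2 * D) (p - 1) : ℝ) ≤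
      2 * (2 : ℝ) ^ (ε / 4) * C₂ * (N : ℝ) ^ (ε / 2) * X := by
    intro D hD
    rw [mem_Icc] at hD
    have h6 := h₁ X (2 * D) hX (by omega)
    have h7 := h₂ N D hN hD.1 (by rw [← hT]; exact hD.2)
    have h8 : (X : ℝ) ^ (1 + ε / 4) ≤ X * ((2 : ℝ) ^ (ε / 4) * (N : ℝ) ^ (ε / 4)) := by
      rw [Real.rpow_add hX0, Real.rpow_one, ← Real.mul_rpow (by norm_num) hN0.le]
      apply mul_le_mul_of_nonneg_left _ hX0.le
      apply Real.rpow_le_rpow hX0.le _ (by positivity)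
      exact_mod_cast hXN
    refine h6.trans ?_
    calc 2 * (X : ℝ) ^ (1 + ε / 4) * Real.exp (C₁ * ((2 * D).divisors.card : ℝ))
        ≤ 2 * (X * ((2 : ℝ) ^ (ε / 4) * (N : ℝ) ^ (ε / 4))) * (C₂ * (N : ℝ) ^ (ε / 4)) := by
          apply mul_le_mul _ h7 (Real.exp_pos _).le (by positivity)
          exact mul_le_mul_of_nonneg_left h8 (by norm_num)
      _ = 2 * (2 : ℝ) ^ (ε / 4) * C₂ * ((N : ℝ) ^ (ε / 4) * (N : ℝ) ^ (ε / 4)) * X := by ring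
      _ = _ := by
          rw [← Real.rpow_add hN0]
          congr 3
          ring
  have h6 : ((Rare X k j T).card : ℝ) ≤
      T * (2 * (2 : ℝ) ^ (ε / 4) * C₂ * (N : ℝ) ^ (ε / 2) * X) := by
    refine h4.trans ((sum_le_sum h5).trans (le_of_eq ?_))
    rw [sum_const, Nat.card_Icc, nsmul_eq_mul]
    simp
  refine h6.trans ?_
  calc (T : ℝ) * (2 * (2 : ℝ) ^ (ε / 4) * C₂ * (N : ℝ) ^ (ε / 2) * X)
      ≤ (C₃ * (N : ℝ) ^ (ε / 4)) * (2 * (2 : ℝ) ^ (ε / 4) * C₂ * (N : ℝ) ^ (ε / 2) * X) :=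
        mul_le_mul_of_nonneg_right hTb (by positivity)
    _ = C₃ * (2 * (2 : ℝ) ^ (ε / 4) * C₂) * ((N : ℝ) ^ (ε / 4) * (N : ℝ) ^ (ε / 2)) * X := by
        ring
    _ ≤ C₃ * (2 * (2 : ℝ) ^ (ε / 4) * C₂) * (N : ℝ) ^ ε * X := by
        apply mul_le_mul_of_nonneg_right _ hX0.le
        apply mul_le_mul_of_nonneg_left _ (by positivity)
        rw [← Real.rpow_add hN0]
        exact Real.rpow_le_rpow_of_exponent_le hN1 (by linarith)

end Pool.Agent.LibJes52
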