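import Pool.Agent.LibJes52.Defs

/-!
Integers all of whose prime factors divide `Q`.
-/

set_option autoImplicit false
open scoped Classical
open Finset

namespace Pool.Agent.LibJes52

private theorem c6_sum_image_le {α : Type} (s : Finset α) (e : α → ℕ) (f : ℕ → ℝ)
    (hf : ∀ q, 0 ≤ f q) : ∑ q ∈ s.image e, f q ≤ ∑ t ∈ s, f (e t) := by
  rw [← sum_fiberwise_of_maps_to (s := s) (t := s.image e) (g := e)
    (fun t ht => mem_image_of_mem e ht)]
  apply sum_le_sum
  intro q hq
  obtain ⟨t, ht, rfl⟩ := mem_image.mp hq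
  exact single_le_sum (f := fun t => f (e t)) (fun t _ => hf (e t)) (mem_filter.mpr ⟨ht, rfl⟩)

private theorem c6_sum_le (ε : ℝ) (hε : 0 < ε) (X : ℕ) (S : Finset ℕ) : (∀ p ∈ S, p.Prime) →
    ∑ q ∈ (Icc 1 X).filter (fun q => q.primeFactors ⊆ S), (q : ℝ) ^ (-ε) ≤
      ∏ p ∈ S, (1 - (p : ℝ) ^ (-ε))⁻¹ := by
  induction S using Finset.induction_on with
  | empty =>
    intro _
    rw [prod_empty]
    have hsub : (Icc 1 X).filter (fun q => q.primeFactors ⊆ (∅ : Finset ℕ)) ⊆ {1} := by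
      intro q hq
      rw [mem_filter, mem_Icc, subset_empty, Nat.primeFactors_eq_empty] at hq
      rw [mem_singleton]
      omega
    calc _ ≤ ∑ q ∈ ({1} : Finset ℕ), (q : ℝ) ^ (-ε) :=
          sum_le_sum_of_subset_of_nonneg hsub (fun q _ _ =>
            Real.rpow_nonneg (Nat.cast_nonneg q) _)
      _ = 1 := by simp
  | insert p S hpS ih =>
    intro hS
    have hp : p.Prime := hS p (mem_insert_self p S)
    have ih' := ih (fun r hr => hS r (mem_insert_of_mem hr))
    rw [prod_insert hpS]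
    set r : ℝ := (p : ℝ) ^ (-ε) with hr
    have hp1 : (1 : ℝ) < (p : ℝ) := by exact_mod_cast hp.one_lt
    have hr0 : 0 < r := Real.rpow_pos_of_pos (by linarith) _
    have hr1 : r < 1 := Real.rpow_lt_one_of_one_lt_of_neg hp1 (by linarith)
    set f : ℕ → ℝ := fun q => (q : ℝ) ^ (-ε) with hf
    have hf0 : ∀ q, 0 ≤ f q := fun q => Real.rpow_nonneg (Nat.cast_nonneg q) _
    set T := (Icc 1 X).filter (fun q => q.primeFactors ⊆ S) with hT
    have hmul : ∀ i : ℕ, ∀ q ∈ T, f (p ^ i * q) = r ^ i * f q := by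
      intro i q _
      show ((p ^ i * q : ℕ) : ℝ) ^ (-ε) = r ^ i * (q : ℝ) ^ (-ε)
      rw [Nat.cast_mul, Nat.cast_pow, Real.mul_rpow (by positivity) (Nat.cast_nonneg q), hr]
      congr 1
      rw [← Real.rpow_natCast, ← Real.rpow_natCast, ← Real.rpow_mul (by positivity),
        ← Real.rpow_mul (by positivity), mul_comm]
    have hsub : (Icc 1 X).filter (fun q => q.primeFactors ⊆ insert p S) ⊆
        ((range (X + 1)) ×ˢ T).image (fun t => p ^ t.1 * t.2) := by
      intro q hq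
      rw [mem_filter, mem_Icc] at hq
      have hq0 : q ≠ 0 := by omega
      rw [mem_image]
      refine ⟨(q.factorization p, q / p ^ q.factorization p), ?_,
        Nat.ordProj_mul_ordCompl_eq_self q p⟩
      rw [mem_product, mem_range, hT, mem_filter, mem_Icc]
      refine ⟨?_, ⟨?_, ?_⟩, ?_⟩
      · have := Nat.factorization_lt p hq0
        show q.factorization p < X + 1
        omega
      · exact Nat.ordCompl_pos p hq0
      · exact le_trans (Nat.ordCompl_le q p) hq.1.2
      · intro s hs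
        rw [Nat.mem_primeFactors] at hs
        have h7 : s ∈ q.primeFactors := Nat.mem_primeFactors.mpr
          ⟨hs.1, dvd_trans hs.2.1 (Nat.ordCompl_dvd q p), hq0⟩
        rcases mem_insert.mp (hq.2 h7) with h8 | h8
        · exfalso
          subst h8
          exact Nat.not_dvd_ordCompl hp hq0 hs.2.1
        · exact h8
    calc ∑ q ∈ (Icc 1 X).filter (fun q => q.primeFactors ⊆ insert p S), f q
        ≤ ∑ q ∈ ((range (X + 1)) ×ˢ T).image (fun t => p ^ t.1 * t.2), f q :=
          sum_le_sum_of_subset_of_nonneg hsub (fun q _ _ => hf0 q)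
      _ ≤ ∑ t ∈ (range (X + 1)) ×ˢ T, f (p ^ t.1 * t.2) := c6_sum_image_le _ _ f hf0
      _ = (∑ i ∈ range (X + 1), r ^ i) * ∑ q ∈ T, f q := by
          rw [sum_product, sum_mul_sum]
          apply sum_congr rfl
          intro i _
          apply sum_congr rfl
          intro q hq
          exact hmul i q hq
      _ ≤ (1 - r)⁻¹ * ∏ p ∈ S, (1 - (p : ℝ) ^ (-ε))⁻¹ := by
          apply mul_le_mul _ ih' (sum_nonneg (fun q _ => hf0 q))
          · exact inv_nonneg.mpr (by linarith)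
          · rw [← tsum_geometric_of_lt_one hr0.le hr1]
            exact (summable_geometric_of_lt_one hr0.le hr1).sum_le_tsum _
                (fun i _ => pow_nonneg hr0.le i)

theorem card_dividing_primes_le (ε : ℝ) (hε : 0 < ε) : ∃ C : ℝ, 0 < C ∧ ∀ Y Q : ℕ, 1 ≤ Q →
    (((Icc 1 Y).filter (fun k : ℕ => ∀ p : ℕ, p.Prime → p ∣ k → p ∣ Q)).card : ℝ) ≤
      C * ((Y : ℝ) * Q) ^ ε := by
  -- the bound at `2`
  have h2 : (2 : ℝ) ^ (-ε) < 1 := Real.rpow_lt_one_of_one_lt_of_neg (by norm_num) (by linarith)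
  set A : ℝ := (1 - (2 : ℝ) ^ (-ε))⁻¹ with hA
  have hA1 : 1 ≤ A := by
    rw [hA]
    have h3 : 0 < (2 : ℝ) ^ (-ε) := Real.rpow_pos_of_pos (by norm_num) _
    exact (one_le_inv₀ (by linarith)).mpr (by linarith)
  obtain ⟨P, hP⟩ := exists_nat_ge ((2 : ℝ) ^ (1 / ε))
  refine ⟨A ^ P, by positivity, ?_⟩
  intro Y Q hQ
  -- single factor
  have hfac : ∀ p ∈ Q.primeFactors, (1 - (p : ℝ) ^ (-ε))⁻¹ ≤
      (if p < P then A else 1) * (p : ℝ) ^ ε := by
    intro p hp
    have hpp := Nat.prime_of_mem_primeFactors hp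
    have hp2 : (2 : ℝ) ≤ (p : ℝ) := by exact_mod_cast hpp.two_le
    have hp1 : 1 ≤ (p : ℝ) ^ ε := Real.one_le_rpow (by linarith) hε.le
    have hmon : (p : ℝ) ^ (-ε) ≤ (2 : ℝ) ^ (-ε) :=
      Real.rpow_le_rpow_of_nonpos (by norm_num) hp2 (by linarith)
    split_ifs with hc
    · have h4 : (1 - (p : ℝ) ^ (-ε))⁻¹ ≤ A := by
        rw [hA]
        exact inv_anti₀ (by linarith) (by linarith)
      calc (1 - (p : ℝ) ^ (-ε))⁻¹ ≤ A := h4
        _ = A * 1 := (mul_one A).symm
        _ ≤ A * (p : ℝ) ^ ε := mul_le_mul_of_nonneg_left hp1 (by linarith)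
    · rw [one_mul]
      have h5 : (2 : ℝ) ≤ (p : ℝ) ^ ε := by
        have h6 : (2 : ℝ) ^ (1 / ε) ≤ (p : ℝ) := le_trans hP (by exact_mod_cast not_lt.mp hc)
        have h7 : ((2 : ℝ) ^ (1 / ε)) ^ ε ≤ (p : ℝ) ^ ε :=
          Real.rpow_le_rpow (Real.rpow_nonneg (by norm_num) _) h6 hε.le
        rwa [← Real.rpow_mul (by norm_num), one_div, inv_mul_cancel₀ hε.ne', Real.rpow_one] at h7
      have h8 : (p : ℝ) ^ (-ε) ≤ 1 / 2 := by
        rw [Real.rpow_neg (by linarith), one_div]
        exact inv_anti₀ (by norm_num) h5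
      calc (1 - (p : ℝ) ^ (-ε))⁻¹ ≤ (1 / 2 : ℝ)⁻¹ := inv_anti₀ (by norm_num) (by linarith)
        _ = 2 := by norm_num
        _ ≤ (p : ℝ) ^ ε := h5
  have hprod : ∏ p ∈ Q.primeFactors, (1 - (p : ℝ) ^ (-ε))⁻¹ ≤ A ^ P * (Q : ℝ) ^ ε := by
    calc ∏ p ∈ Q.primeFactors, (1 - (p : ℝ) ^ (-ε))⁻¹
        ≤ ∏ p ∈ Q.primeFactors, ((if p < P then A else 1) * (p : ℝ) ^ ε) := by
          apply prod_le_prod
          · intro p hp
            have hpp := Nat.prime_of_mem_primeFactors hp
            have hp1 : (1 : ℝ) < (p : ℝ) := by exact_mod_cast hpp.one_lt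
            have := Real.rpow_lt_one_of_one_lt_of_neg hp1 (by linarith : -ε < 0)
            exact inv_nonneg.mpr (by linarith)
          · exact hfac
      _ = (∏ p ∈ Q.primeFactors, (if p < P then A else 1)) * ∏ p ∈ Q.primeFactors, (p : ℝ) ^ ε :=
          prod_mul_distrib
      _ ≤ A ^ P * (Q : ℝ) ^ ε := by
          apply mul_le_mul
          · rw [prod_ite, prod_const, prod_const_one, mul_one]
            apply pow_le_pow_right₀ hA1
            calc (Q.primeFactors.filter (fun p => p < P)).card ≤ (range P).card := by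
                  apply card_le_card
                  intro p hp
                  rw [mem_filter] at hp
                  exact mem_range.mpr hp.2
              _ = P := card_range P
          · rw [Real.finsetProd_rpow _ _ (fun p _ => Nat.cast_nonneg p)]
            apply Real.rpow_le_rpow (prod_nonneg (fun p _ => Nat.cast_nonneg p)) _ hε.le
            have h11 : ((∏ p ∈ Q.primeFactors, p : ℕ) : ℝ) ≤ (Q : ℝ) :=
              Nat.cast_le.mpr (Nat.le_of_dvd hQ (Nat.prod_primeFactors_dvd Q))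
            rw [Nat.cast_prod] at h11
            exact h11
          · exact prod_nonneg (fun p _ => Real.rpow_nonneg (Nat.cast_nonneg p) _)
          · positivity
  have hsub : (Icc 1 Y).filter (fun k : ℕ => ∀ p : ℕ, p.Prime → p ∣ k → p ∣ Q) ⊆
      (Icc 1 Y).filter (fun q => q.primeFactors ⊆ Q.primeFactors) := by
    intro k hk
    rw [mem_filter] at hk ⊢
    refine ⟨hk.1, fun p hp => ?_⟩
    rw [Nat.mem_primeFactors] at hp ⊢
    exact ⟨hp.1, hk.2 p hp.1 hp.2.1, by omega⟩
  calc (((Icc 1 Y).filter (fun k : ℕ => ∀ p : ℕ, p.Prime → p ∣ k → p ∣ Q)).card : ℝ)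
      ≤ (((Icc 1 Y).filter (fun q => q.primeFactors ⊆ Q.primeFactors)).card : ℝ) := by
        exact_mod_cast card_le_card hsub
    _ = ∑ q ∈ (Icc 1 Y).filter (fun q => q.primeFactors ⊆ Q.primeFactors), (1 : ℝ) := by
        rw [sum_const, nsmul_eq_mul, mul_one]
    _ ≤ ∑ q ∈ (Icc 1 Y).filter (fun q => q.primeFactors ⊆ Q.primeFactors),
          (Y : ℝ) ^ ε * (q : ℝ) ^ (-ε) := by
        apply sum_le_sum
        intro q hq
        rw [mem_filter, mem_Icc] at hq
        have hq1 : (1 : ℝ) ≤ (q : ℝ) := by exact_mod_cast hq.1.1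
        have hqY : (q : ℝ) ≤ (Y : ℝ) := by exact_mod_cast hq.1.2
        have h9 : (q : ℝ) ^ ε ≤ (Y : ℝ) ^ ε := Real.rpow_le_rpow (by linarith) hqY hε.le
        have h10 : 0 < (q : ℝ) ^ ε := Real.rpow_pos_of_pos (by linarith) _
        rw [Real.rpow_neg (by linarith), ← div_eq_mul_inv, le_div_iff₀ h10, one_mul]
        exact h9
    _ = (Y : ℝ) ^ ε * ∑ q ∈ (Icc 1 Y).filter (fun q => q.primeFactors ⊆ Q.primeFactors),
          (q : ℝ) ^ (-ε) := by rw [mul_sum]
    _ ≤ (Y : ℝ) ^ ε * (A ^ P * (Q : ℝ) ^ ε) := by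
        apply mul_le_mul_of_nonneg_left _ (Real.rpow_nonneg (Nat.cast_nonneg Y) _)
        exact le_trans (c6_sum_le ε hε Y Q.primeFactors
          (fun p hp => Nat.prime_of_mem_primeFactors hp)) hprod
    _ = A ^ P * ((Y : ℝ) * Q) ^ ε := by
        rw [Real.mul_rpow (Nat.cast_nonneg Y) (Nat.cast_nonneg Q)]
        ring

end Pool.Agent.LibJes52
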