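import Pool.Agent.LibJes52.Defs

/-!
The parametrisation of the primitive triples.
-/

set_option autoImplicit false

namespace Pool.Agent.LibJes52

theorem classify {a b c : ℕ} (ha : 0 < a) (hb : 0 < b) (h : a ^ 2 + b ^ 2 = c ^ 2)
    (hc : a.Coprime b) (hodd : Odd a) :
    ∃ m n : ℕ, 0 < n ∧ n < m ∧ m.Coprime n ∧ Odd (m + n) ∧ a = m ^ 2 - n ^ 2 ∧
      b = 2 * m * n ∧ c = m ^ 2 + n ^ 2 := by
  have hcpos : 0 < c := by
    rcases Nat.eq_zero_or_pos c with h0 | h0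
    · subst h0
      have : 0 < a ^ 2 := by positivity
      omega
    · exact h0
  have hP : PythagoreanTriple (a : ℤ) (b : ℤ) (c : ℤ) := by
    unfold PythagoreanTriple
    have := congrArg (Nat.cast : ℕ → ℤ) h
    push_cast at this
    linarith
  obtain ⟨m, n, hx, hy, hz, hg, hpar, hm⟩ := hP.coprime_classification'
    (by rw [Int.gcd_natCast_natCast]; exact hc) (by obtain ⟨r, hr⟩ := hodd; omega)
    (by exact_mod_cast hcpos)
  have ha' : (0 : ℤ) < a := by exact_mod_cast ha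
  have hb' : (0 : ℤ) < b := by exact_mod_cast hb
  have hm0 : 0 < m := by
    rcases hm.lt_or_eq with h' | h'
    · exact h'
    · rw [← h'] at hy
      simp at hy
      omega
  have hn0 : 0 < n := by
    by_contra hcon
    have h1 : n ≤ 0 := not_lt.mp hcon
    have : 2 * m * n ≤ 0 := mul_nonpos_of_nonneg_of_nonpos (by linarith) h1
    linarith
  have hnm : n < m := by
    by_contra hcon
    have h1 : m ≤ n := not_lt.mp hcon
    have : m ^ 2 ≤ n ^ 2 := pow_le_pow_left₀ hm0.le h1 2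
    linarith
  obtain ⟨M, rfl⟩ := Int.eq_ofNat_of_zero_le hm0.le
  obtain ⟨N, rfl⟩ := Int.eq_ofNat_of_zero_le hn0.le
  have hNM : N < M := by exact_mod_cast hnm
  refine ⟨M, N, by exact_mod_cast hn0, hNM, ?_, ?_, ?_, ?_, ?_⟩
  · rw [Int.gcd_natCast_natCast] at hg
    exact hg
  · rw [Nat.odd_iff]
    omega
  · have h1 : N ^ 2 ≤ M ^ 2 := Nat.pow_le_pow_left hNM.le 2
    zify [h1]
    exact_mod_cast hx
  · exact_mod_cast hy
  · exact_mod_cast hz

theorem odd_or_odd {a b c : ℕ} (h : a ^ 2 + b ^ 2 = c ^ 2) (hc : a.Coprime b) :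
    (Odd a ∧ Even b) ∨ (Even a ∧ Odd b) := by
  rcases Nat.even_or_odd a with ha | ha <;> rcases Nat.even_or_odd b with hb | hb
  · exact absurd hc (Nat.not_coprime_of_dvd_of_dvd (by norm_num) ha.two_dvd hb.two_dvd)
  · exact Or.inr ⟨ha, hb⟩
  · exact Or.inl ⟨ha, hb⟩
  · exfalso
    obtain ⟨r, rfl⟩ := ha
    obtain ⟨s, rfl⟩ := hb
    have h1 : (2 * r + 1) ^ 2 + (2 * s + 1) ^ 2 = 4 * (r ^ 2 + r + s ^ 2 + s) + 2 := by ring
    rw [h1] at h
    rcases Nat.even_or_odd c with hc' | hc'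
    · obtain ⟨t, rfl⟩ := hc'
      have h2 : (t + t) ^ 2 = 4 * t ^ 2 := by ring
      rw [h2] at h
      omega
    · obtain ⟨t, rfl⟩ := hc'
      have h2 : (2 * t + 1) ^ 2 = 4 * (t ^ 2 + t) + 1 := by ring
      rw [h2] at h
      omega

theorem coprime_gen {m n : ℕ} (hmn : n < m) (hc : m.Coprime n) (hpar : Odd (m + n)) :
    (m ^ 2 - n ^ 2).Coprime (2 * m * n) := by
  have h1 : n ^ 2 ≤ m ^ 2 := Nat.pow_le_pow_left hmn.le 2
  have hfac : m ^ 2 - n ^ 2 = (m + n) * (m - n) := Nat.sq_sub_sq m n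
  have hodd : Odd (m ^ 2 - n ^ 2) := by
    rw [hfac]
    refine hpar.mul ?_
    rw [Nat.odd_iff] at hpar ⊢
    omega
  refine Nat.coprime_of_dvd fun p hp hp1 hp2 => ?_
  have hp2' : p ≠ 2 := by
    rintro rfl
    exact (Nat.not_even_iff_odd.mpr hodd) (even_iff_two_dvd.mpr hp1)
  have hp2'' : ¬ p ∣ 2 := fun h' => hp2' ((Nat.prime_dvd_prime_iff_eq hp Nat.prime_two).mp h')
  have h3 : p ∣ m ∨ p ∣ n := by
    rcases (hp.dvd_mul).mp hp2 with h' | h'
    · exact Or.inl (((hp.dvd_mul).mp h').resolve_left hp2'')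
    · exact Or.inr h'
  have hsum : (m ^ 2 - n ^ 2) + n ^ 2 = m ^ 2 := Nat.sub_add_cancel h1
  rcases h3 with h3 | h3
  · have h4 : p ∣ m ^ 2 := dvd_pow h3 two_ne_zero
    have h5 : p ∣ n ^ 2 := by
      refine (Nat.dvd_add_right hp1).mp ?_
      rw [hsum]
      exact h4
    exact Nat.not_coprime_of_dvd_of_dvd hp.one_lt h3 (hp.dvd_of_dvd_pow h5) hc
  · have h4 : p ∣ n ^ 2 := dvd_pow h3 two_ne_zero
    have h5 : p ∣ m ^ 2 := by
      have := Nat.dvd_add hp1 h4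
      rwa [hsum] at this
    exact Nat.not_coprime_of_dvd_of_dvd hp.one_lt (hp.dvd_of_dvd_pow h5) h3 hc

end Pool.Agent.LibJes52
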