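import Pool.Agent.LibJes52.D1

/-!
Counting the primitive triples by their generators.
-/

set_option autoImplicit false
open scoped Classical
open Finset

namespace Pool.Agent.LibJes52

/-- upper bound for the primitive triples with a given property of the generators: `Q m n` must
hold for the generators of every triple counted -/
theorem card_prim_le (N M : ℕ) (hM : N < (M + 1) ^ 2) (R : ℕ × ℕ × ℕ → Prop) (Q : ℕ → ℕ → Prop)
    (h1 : ∀ m n : ℕ, 0 < n → n < m → m.Coprime n → Odd (m + n) → m ^ 2 + n ^ 2 ≤ N →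
      R (m ^ 2 - n ^ 2, 2 * m * n, m ^ 2 + n ^ 2) → Q m n)
    (h2 : ∀ m n : ℕ, 0 < n → n < m → m.Coprime n → Odd (m + n) → m ^ 2 + n ^ 2 ≤ N →
      R (2 * m * n, m ^ 2 - n ^ 2, m ^ 2 + n ^ 2) → Q m n) :
    ((Trip N).filter (fun t => Prim t ∧ R t)).card ≤
      2 * (((Icc 1 M) ×ˢ (Icc 1 M)).filter (fun q : ℕ × ℕ => q.2 < q.1 ∧ Q q.1 q.2)).card := by
  set G := ((Icc 1 M) ×ˢ (Icc 1 M)).filter (fun q : ℕ × ℕ => q.2 < q.1 ∧ Q q.1 q.2) with hG
  have hmem : ∀ m n : ℕ, 0 < n → n < m → m ^ 2 + n ^ 2 ≤ N → Q m n → (m, n) ∈ G := by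
    intro m n hn hnm hle hQ
    have hmM : m ≤ M := by
      by_contra hlt
      have h3 : M + 1 ≤ m := by omega
      have h4 : (M + 1) ^ 2 ≤ m ^ 2 := Nat.pow_le_pow_left h3 2
      have h5 : 0 ≤ n ^ 2 := Nat.zero_le _
      omega
    rw [hG, mem_filter, mem_product, mem_Icc, mem_Icc]
    exact ⟨⟨⟨by omega, hmM⟩, ⟨hn, by omega⟩⟩, hnm, hQ⟩
  have hsub : (Trip N).filter (fun t => Prim t ∧ R t) ⊆
      G.image (fun q : ℕ × ℕ => (q.1 ^ 2 - q.2 ^ 2, 2 * q.1 * q.2, q.1 ^ 2 + q.2 ^ 2)) ∪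
      G.image (fun q : ℕ × ℕ => (2 * q.1 * q.2, q.1 ^ 2 - q.2 ^ 2, q.1 ^ 2 + q.2 ^ 2)) := by
    rintro ⟨a, b, c⟩ ht
    rw [mem_filter, Trip, mem_filter, mem_product, mem_product] at ht
    obtain ⟨⟨⟨ha, hb, hc⟩, hp⟩, hprim, hR⟩ := ht
    rw [mem_Icc] at ha hb hc
    dsimp only at ha hb hc hp
    have hcop : a.Coprime b := hprim
    rw [mem_union, mem_image, mem_image]
    rcases odd_or_odd hp hcop with ⟨hodd, -⟩ | ⟨-, hodd⟩
    · left
      obtain ⟨m, n, hn, hnm, hmn, hpar, rfl, rfl, rfl⟩ :=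
        classify (by omega) (by omega) hp hcop hodd
      exact ⟨(m, n), hmem m n hn hnm hc.2 (h1 m n hn hnm hmn hpar hc.2 hR), rfl⟩
    · right
      have hp' : b ^ 2 + a ^ 2 = c ^ 2 := by rw [← hp]; ring
      obtain ⟨m, n, hn, hnm, hmn, hpar, rfl, rfl, rfl⟩ :=
        classify (by omega) (by omega) hp' hcop.symm hodd
      exact ⟨(m, n), hmem m n hn hnm hc.2 (h2 m n hn hnm hmn hpar hc.2 hR), rfl⟩
  calc ((Trip N).filter (fun t => Prim t ∧ R t)).card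
      ≤ (G.image (fun q : ℕ × ℕ => (q.1 ^ 2 - q.2 ^ 2, 2 * q.1 * q.2, q.1 ^ 2 + q.2 ^ 2)) ∪
        G.image (fun q : ℕ × ℕ => (2 * q.1 * q.2, q.1 ^ 2 - q.2 ^ 2, q.1 ^ 2 + q.2 ^ 2))).card :=
        card_le_card hsub
    _ ≤ _ := card_union_le _ _
    _ ≤ G.card + G.card := Nat.add_le_add card_image_le card_image_le
    _ = 2 * G.card := by ring

theorem card_prim_le_self (X : ℕ) : (((Trip X).filter (fun t => Prim t)).card : ℝ) ≤ 2 * X := by
  obtain ⟨R, hR⟩ : ∃ R : ℕ × ℕ × ℕ → Prop, ∀ t, R t := ⟨fun _ => True, fun _ => trivial⟩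
  obtain ⟨Q, hQ⟩ : ∃ Q : ℕ → ℕ → Prop, ∀ m n, Q m n := ⟨fun _ _ => True, fun _ _ => trivial⟩
  have h := card_prim_le X (Nat.sqrt X) (Nat.lt_succ_sqrt' X) R Q
    (fun m n _ _ _ _ _ _ => hQ m n) (fun m n _ _ _ _ _ _ => hQ m n)
  have h3 : ((Trip X).filter (fun t => Prim t)).card ≤ 2 * X := by
    refine (card_le_card ?_).trans (h.trans (Nat.mul_le_mul_left 2 ((card_filter_le _ _).trans ?_)))
    · intro t ht
      rw [mem_filter] at ht ⊢
      exact ⟨ht.1, ht.2, hR t⟩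
    · rw [card_product, Nat.card_Icc, Nat.add_sub_cancel]
      exact Nat.sqrt_le X
  exact_mod_cast h3

end Pool.Agent.LibJes52
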