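import Mathlib

/-!
Jesmanowicz's conjecture: definitions.
-/

set_option autoImplicit false
open scoped Classical
open Finset

namespace Pool.Agent.LibJes52

/-- the Pythagorean triples `(a, b, c)` of positive integers with `c ≤ N` -/
def Trip (N : ℕ) : Finset (ℕ × ℕ × ℕ) :=
  ((Icc 1 N) ×ˢ (Icc 1 N) ×ˢ (Icc 1 N)).filter fun t => t.1 ^ 2 + t.2.1 ^ 2 = t.2.2 ^ 2

/-- the triple is primitive -/
def Prim (t : ℕ × ℕ × ℕ) : Prop := t.1.Coprime t.2.1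

/-- `a ^ x + b ^ y = c ^ z` has a solution in positive integers other than `(2, 2, 2)` -/
def Other (t : ℕ × ℕ × ℕ) : Prop :=
  ∃ x y z : ℕ, 0 < x ∧ 0 < y ∧ 0 < z ∧ t.1 ^ x + t.2.1 ^ y = t.2.2 ^ z ∧
    ¬ (x = 2 ∧ y = 2 ∧ z = 2)

/-- the multiple `k (a, b, c)` -/
def mul (k : ℕ) (t : ℕ × ℕ × ℕ) : ℕ × ℕ × ℕ := (k * t.1, k * t.2.1, k * t.2.2)

/-- `(a, b, c)` is a primitive Pythagorean triple of positive integers and `(x, y, z) ≠ (2, 2, 2)`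
a solution of the equation of its multiple by `k > 0` -/
structure Sol (k a b c x y z : ℕ) : Prop where
  k_pos : 0 < k
  a_pos : 0 < a
  b_pos : 0 < b
  pyth : a ^ 2 + b ^ 2 = c ^ 2
  cop : a.Coprime b
  x_pos : 0 < x
  y_pos : 0 < y
  z_pos : 0 < z
  eq : (k * a) ^ x + (k * b) ^ y = (k * c) ^ z
  ne : ¬ (x = 2 ∧ y = 2 ∧ z = 2)

/-- the pairs `(q, w)` in `[1, X]²`, `q` prime to `w` and to `k j`, such that `q` divides
`(k w ^ 2) ^ D - j ^ D` for some `1 ≤ D ≤ T` -/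
noncomputable def Rare (X k j T : ℕ) : Finset (ℕ × ℕ) :=
  ((Icc 1 X) ×ˢ (Icc 1 X)).filter fun q => q.1.Coprime q.2 ∧ q.1.Coprime (k * j) ∧
    ∃ D : ℕ, 0 < D ∧ D ≤ T ∧ (q.1 : ℤ) ∣ ((k : ℤ) * (q.2 : ℤ) ^ 2) ^ D - (j : ℤ) ^ D

/-- the product of the primes dividing `q` -/
def rad (q : ℕ) : ℕ := ∏ p ∈ q.primeFactors, p

end Pool.Agent.LibJes52
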