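import Pool.Agent.LibJes52.J2

/-!
Congruences.
-/

set_option autoImplicit false

namespace Pool.Agent.LibJes52

private theorem pow_dist {R : Type} [CommRing R] {t : R} (ht : IsUnit t) {i j : ℕ}
    (h : t ^ i = t ^ j) : t ^ (max i j - min i j) = 1 := by
  rcases le_total i j with hij | hij
  · rw [max_eq_right hij, min_eq_left hij]
    have h1 : t ^ i * t ^ (j - i) = t ^ i * 1 := by
      rw [← pow_add, mul_one, Nat.add_sub_cancel' hij, h]
    exact (ht.pow i).mul_left_cancel h1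
  · rw [max_eq_left hij, min_eq_right hij]
    have h1 : t ^ j * t ^ (i - j) = t ^ j * 1 := by
      rw [← pow_add, mul_one, Nat.add_sub_cancel' hij, h]
    exact (ht.pow j).mul_left_cancel h1

/-- congruence modulo `a` for primitive triples -/
theorem Sol.dvd_a {a b c x y z : ℕ} (h : Sol 1 a b c x y z) :
    ∃ D : ℕ, 0 < D ∧ D ≤ max y z ∧ a ∣ c ^ (2 * D) - 1 := by
  obtain ⟨h1, h2, h3, h4, h5, h6, hac, hbc, hpar, hodd⟩ := h.basic
  have hne := h.y_ne_z
  refine ⟨max y z - min y z, ?_, Nat.sub_le _ _, ?_⟩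
  · rcases lt_or_gt_of_ne hne with h7 | h7
    · rw [max_eq_right h7.le, min_eq_left h7.le]
      omega
    · rw [max_eq_left h7.le, min_eq_right h7.le]
      omega
  · have ha0 : ((a : ℕ) : ZMod a) = 0 := ZMod.natCast_self a
    have e1 : (b : ZMod a) ^ 2 = (c : ZMod a) ^ 2 := by
      have := congrArg (Nat.cast : ℕ → ZMod a) h.pyth
      push_cast at this
      rw [ha0] at this
      simpa using this
    have e2 : (b : ZMod a) ^ y = (c : ZMod a) ^ z := by
      have := congrArg (Nat.cast : ℕ → ZMod a) h.eq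
      push_cast at this
      rw [ha0, one_mul, one_mul, one_mul, zero_pow h.x_pos.ne', zero_add] at this
      exact this
    have e3 : ((c : ZMod a) ^ 2) ^ y = ((c : ZMod a) ^ 2) ^ z := by
      rw [← e1, ← pow_mul, mul_comm 2 y, pow_mul, e2, ← pow_mul, e1, ← pow_mul, mul_comm z 2]
    have hu : IsUnit (c : ZMod a) := (ZMod.isUnit_iff_coprime c a).2 hac.symm
    have e4 := pow_dist (hu.pow 2) e3
    rw [← pow_mul] at e4
    have h7 : 1 ≤ c ^ (2 * (max y z - min y z)) := Nat.one_le_pow _ _ (by omega)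
    rw [← ZMod.natCast_eq_zero_iff, Nat.cast_sub h7]
    push_cast
    rw [e4, sub_self]

/-- congruence modulo `m + n` -/
theorem Sol.dvd_sum {k m n x y z : ℕ} (hmn : n < m)
    (h : Sol k (m ^ 2 - n ^ 2) (2 * m * n) (m ^ 2 + n ^ 2) x y z)
    (hk : k.Coprime (m ^ 2 - n ^ 2)) :
    (m + n).Coprime (k * 2) ∧ ∃ D : ℕ, 0 < D ∧ D ≤ 2 * max y z ∧
      ((m + n : ℕ) : ℤ) ∣ ((k : ℤ) * ((m - n : ℕ) : ℤ) ^ 2) ^ D - (2 : ℤ) ^ D := by
  obtain ⟨h1, h2, h3, h4, h5, h6, hac, hbc, hpar, hodd⟩ := h.basic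
  have hne := h.y_ne_z
  have hdvd : m + n ∣ m ^ 2 - n ^ 2 := by
    rw [Nat.sq_sub_sq]
    exact Dvd.intro _ rfl
  have hku : (m + n).Coprime k := (Nat.Coprime.coprime_dvd_right hdvd hk).symm
  have hcu : (m + n).Coprime (m ^ 2 + n ^ 2) := Nat.Coprime.coprime_dvd_left hdvd hac
  have hu2 : (m + n).Coprime 2 := by
    rw [Nat.coprime_comm, Nat.Prime.coprime_iff_not_dvd Nat.prime_two]
    intro h7
    have h8 : Even (m + n) := (even_iff_two_dvd).2 h7
    have h9 : Even (m ^ 2 + n ^ 2) := by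
      rw [Nat.even_add] at h8 ⊢
      rw [Nat.even_pow' two_ne_zero, Nat.even_pow' two_ne_zero]
      exact h8
    exact (Nat.not_even_iff_odd.2 hodd) h9
  refine ⟨hku.mul_right hu2, 2 * (max y z - min y z), ?_, by omega, ?_⟩
  · rcases lt_or_gt_of_ne hne with h7 | h7
    · rw [max_eq_right h7.le, min_eq_left h7.le]
      omega
    · rw [max_eq_left h7.le, min_eq_right h7.le]
      omega
  · set u := m + n with hu
    have hu0 : (m : ZMod u) + (n : ZMod u) = 0 := by
      have : ((m + n : ℕ) : ZMod u) = 0 := by rw [← hu]; exact ZMod.natCast_self u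
      push_cast at this
      exact this
    have ea : ((m ^ 2 - n ^ 2 : ℕ) : ZMod u) = 0 := (ZMod.natCast_eq_zero_iff _ _).2 hdvd
    have hn : (n : ZMod u) = -(m : ZMod u) := by linear_combination hu0
    have eb : ((2 * m * n : ℕ) : ZMod u) = -((m ^ 2 + n ^ 2 : ℕ) : ZMod u) := by
      push_cast
      rw [hn]
      ring
    set c : ZMod u := ((m ^ 2 + n ^ 2 : ℕ) : ZMod u) with hc
    have e2 : ((k : ZMod u) * -c) ^ y = ((k : ZMod u) * c) ^ z := by
      have := congrArg (Nat.cast : ℕ → ZMod u) h.eq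
      rw [Nat.cast_add, Nat.cast_pow, Nat.cast_pow, Nat.cast_pow, Nat.cast_mul k (m ^ 2 - n ^ 2),
        Nat.cast_mul k (2 * m * n), Nat.cast_mul k (m ^ 2 + n ^ 2), ea, eb, mul_zero,
        zero_pow h.x_pos.ne', zero_add] at this
      exact this
    have e3 : (((k : ZMod u) * c) ^ 2) ^ y = (((k : ZMod u) * c) ^ 2) ^ z := by
      have h7 : (((k : ZMod u) * -c) ^ y) ^ 2 = (((k : ZMod u) * c) ^ z) ^ 2 := by rw [e2]
      rw [← pow_mul, ← pow_mul, mul_comm y 2, mul_comm z 2, pow_mul, pow_mul] at h7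
      have h8 : ((k : ZMod u) * -c) ^ 2 = ((k : ZMod u) * c) ^ 2 := by ring
      rw [h8] at h7
      exact h7
    have hUk : IsUnit (k : ZMod u) := (ZMod.isUnit_iff_coprime k u).2 hku.symm
    have hUc : IsUnit c := (ZMod.isUnit_iff_coprime _ u).2 hcu.symm
    have e4 := pow_dist ((hUk.mul hUc).pow 2) e3
    rw [← pow_mul] at e4
    have e5 : ((m - n : ℕ) : ZMod u) ^ 2 = 2 * c := by
      rw [Nat.cast_sub hmn.le, hc]
      push_cast
      rw [hn]
      ring
    have e6 : ((((k : ℤ) * ((m - n : ℕ) : ℤ) ^ 2) ^ (2 * (max y z - min y z)) -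
        (2 : ℤ) ^ (2 * (max y z - min y z)) : ℤ) : ZMod u) = 0 := by
      rw [Int.cast_sub, Int.cast_pow, Int.cast_mul, Int.cast_pow, Int.cast_natCast,
        Int.cast_natCast, Int.cast_pow, e5]
      have h7 : (k : ZMod u) * (2 * c) = 2 * ((k : ZMod u) * c) := by ring
      rw [h7, mul_pow, e4, mul_one]
      norm_num
    exact (ZMod.intCast_zmod_eq_zero_iff_dvd _ _).1 e6

/-- congruence modulo `n` -/
theorem Sol.dvd_n {k m n x y z : ℕ} (hmn : n < m)
    (h : Sol k (m ^ 2 - n ^ 2) (2 * m * n) (m ^ 2 + n ^ 2) x y z)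
    (hk : k.Coprime (2 * m * n)) :
    ∃ D : ℕ, 0 < D ∧ D ≤ max x z ∧ (n : ℤ) ∣ ((k : ℤ) * (m : ℤ) ^ 2) ^ D - (1 : ℤ) ^ D := by
  have hne := h.x_ne_z
  refine ⟨max x z - min x z, ?_, Nat.sub_le _ _, ?_⟩
  · rcases lt_or_gt_of_ne hne with h7 | h7
    · rw [max_eq_right h7.le, min_eq_left h7.le]
      omega
    · rw [max_eq_left h7.le, min_eq_right h7.le]
      omega
  · have hkn : k.Coprime n := Nat.Coprime.coprime_dvd_right (Dvd.intro_left _ rfl) hk
    have hmn1 : m.Coprime n := by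
      by_contra h7
      obtain ⟨p, hp, hpm, hpn⟩ := Nat.Prime.not_coprime_iff_dvd.1 h7
      have h8 : p ∣ m ^ 2 - n ^ 2 :=
        Nat.dvd_sub (dvd_pow hpm two_ne_zero) (dvd_pow hpn two_ne_zero)
      have h9 : p ∣ 2 * m * n := Dvd.dvd.mul_left hpn _
      exact hp.one_lt.ne' (Nat.eq_one_of_dvd_coprimes h.cop h8 h9)
    have hle : n ^ 2 ≤ m ^ 2 := Nat.pow_le_pow_left hmn.le 2
    have hn0 : (n : ZMod n) = 0 := ZMod.natCast_self n
    have ea : ((m ^ 2 - n ^ 2 : ℕ) : ZMod n) = (m : ZMod n) ^ 2 := by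
      rw [Nat.cast_sub hle]
      push_cast
      rw [hn0]
      ring
    have eb : ((2 * m * n : ℕ) : ZMod n) = 0 := by
      push_cast
      rw [hn0, mul_zero]
    have ec : ((m ^ 2 + n ^ 2 : ℕ) : ZMod n) = (m : ZMod n) ^ 2 := by
      push_cast
      rw [hn0]
      ring
    have e2 : ((k : ZMod n) * (m : ZMod n) ^ 2) ^ x = ((k : ZMod n) * (m : ZMod n) ^ 2) ^ z := by
      have := congrArg (Nat.cast : ℕ → ZMod n) h.eq
      rw [Nat.cast_add, Nat.cast_pow, Nat.cast_pow, Nat.cast_pow, Nat.cast_mul k (m ^ 2 - n ^ 2),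
        Nat.cast_mul k (2 * m * n), Nat.cast_mul k (m ^ 2 + n ^ 2), ea, eb, ec, mul_zero,
        zero_pow h.y_pos.ne', add_zero] at this
      exact this
    have hUk : IsUnit (k : ZMod n) := (ZMod.isUnit_iff_coprime k n).2 hkn
    have hUm : IsUnit (m : ZMod n) := (ZMod.isUnit_iff_coprime m n).2 hmn1
    have e4 := pow_dist (hUk.mul (hUm.pow 2)) e2
    have e6 : ((((k : ℤ) * (m : ℤ) ^ 2) ^ (max x z - min x z) -
        (1 : ℤ) ^ (max x z - min x z) : ℤ) : ZMod n) = 0 := by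
      push_cast
      rw [e4, one_pow, sub_self]
    exact (ZMod.intCast_zmod_eq_zero_iff_dvd _ _).1 e6

end Pool.Agent.LibJes52
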