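import Pool.Agent.LibJes52.J6
import Pool.Agent.LibJes52.J7

/-!
The generators of an exceptional triple form a rare pair.
-/

set_option autoImplicit false

namespace Pool.Agent.LibJes52

private theorem coprime_of_primes {k a c : ℕ} (hac : a.Coprime c)
    (hk : ∀ p : ℕ, p.Prime → p ∣ k → p ∣ c) : k.Coprime a := by
  refine Nat.coprime_of_dvd fun p hp hpk hpa => ?_
  exact Nat.not_coprime_of_dvd_of_dvd hp.one_lt hpa (hk p hp hpk) hac

private theorem mem_Rare {X k j T u v D : ℕ} (hu : 0 < u) (huX : u ≤ X) (hv : 0 < v)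
    (hvX : v ≤ X) (huv : u.Coprime v) (hk : u.Coprime (k * j)) (hD : 0 < D) (hDT : D ≤ T)
    (hd : (u : ℤ) ∣ ((k : ℤ) * (v : ℤ) ^ 2) ^ D - (j : ℤ) ^ D) : (u, v) ∈ Rare X k j T := by
  classical
  unfold Rare
  refine Finset.mem_filter.mpr ⟨Finset.mem_product.mpr ⟨Finset.mem_Icc.mpr ⟨hu, huX⟩,
    Finset.mem_Icc.mpr ⟨hv, hvX⟩⟩, huv, hk, D, hD, hDT, hd⟩

/-- for an exceptional triple with generators `m > n`: `(m + n, m - n)` or `(n, m)` is rare -/
theorem rare_of_sol {k m n x y z lam M : ℕ} (hmn : n < m) (hM : m ≤ M)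
    (h : Sol k (m ^ 2 - n ^ 2) (2 * m * n) (m ^ 2 + n ^ 2) x y z)
    (hlam : k * (m ^ 2 + n ^ 2) ≤ 2 ^ lam) :
    (m + n, m - n) ∈ Rare (2 * M) k 2 (2 ^ 701 * lam ^ 40) ∨
      (n, m) ∈ Rare (2 * M) k 1 (2 ^ 701 * lam ^ 40) := by
  obtain ⟨hac, hbc, habc, ha3, hb3, hc5, hcac, hcbc, hpar, hco⟩ := h.basic
  have hn : 0 < n := by
    rcases Nat.eq_zero_or_pos n with h0 | h0
    · subst h0; simp at hb3
    · exact h0
  have hcop : m.Coprime n := by
    refine Nat.coprime_of_dvd fun p hp hpm hpn => ?_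
    refine Nat.not_coprime_of_dvd_of_dvd hp.one_lt ?_ ?_ h.cop
    · exact Nat.dvd_sub (dvd_pow hpm two_ne_zero) (dvd_pow hpn two_ne_zero)
    · exact Dvd.dvd.mul_left hpn _
  have hexp := h.exponents_le hlam
  have h701 : (2 : ℕ) ^ 701 * lam ^ 40 = 2 * (2 ^ 700 * lam ^ 40) := by
    rw [show (2 : ℕ) ^ 701 = 2 * 2 ^ 700 from pow_succ' 2 700, mul_assoc]
  rw [h701]
  generalize 2 ^ 700 * lam ^ 40 = T at *
  have key : k.Coprime (m ^ 2 - n ^ 2) → (m + n, m - n) ∈ Rare (2 * M) k 2 (2 * T) := by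
    intro hka
    obtain ⟨hc2, D, hD, hDle, hdvd⟩ := h.dvd_sum hmn hka
    have hyz : max y z ≤ T := (le_max_right _ _).trans hexp
    refine mem_Rare (D := D) (by omega) (by omega) (by omega) (by omega) ?_ hc2 hD
      (by omega) hdvd
    refine Nat.coprime_of_dvd fun p hp hp1 hp2 => ?_
    have h2 : ¬ p ∣ k * 2 := fun h' => Nat.not_coprime_of_dvd_of_dvd hp.one_lt hp1 h' hc2
    have hp2' : ¬ p ∣ 2 := fun h' => h2 (Dvd.dvd.mul_left h' k)
    have e1 : (m + n) + (m - n) = 2 * m := by omega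
    have e2 : (m + n) - (m - n) = 2 * n := by omega
    have d1 : p ∣ 2 * m := e1 ▸ Nat.dvd_add hp1 hp2
    have d2 : p ∣ 2 * n := e2 ▸ Nat.dvd_sub hp1 hp2
    have d3 : p ∣ m := ((hp.dvd_mul).mp d1).resolve_left hp2'
    have d4 : p ∣ n := ((hp.dvd_mul).mp d2).resolve_left hp2'
    exact Nat.not_coprime_of_dvd_of_dvd hp.one_lt d3 d4 hcop
  rcases h.cases with ⟨_, _, hk⟩ | ⟨_, _, hk⟩ | ⟨_, _, hk⟩
  · exact Or.inl (key (coprime_of_primes hcac hk))
  · exact Or.inl (key (coprime_of_primes h.cop hk))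
  · right
    have hkb : k.Coprime (2 * m * n) := coprime_of_primes h.cop.symm hk
    obtain ⟨D, hD, hDle, hdvd⟩ := h.dvd_n hmn hkb
    have h1 : max x z ≤ T := by
      refine max_le ((le_max_left _ _).trans hexp) ?_
      exact ((le_max_right y z).trans (le_max_right _ _)).trans hexp
    refine mem_Rare (D := D) hn (by omega) (by omega) (by omega) hcop.symm ?_ hD
      (by omega) (by simpa using hdvd)
    rw [mul_one]
    exact (Nat.Coprime.coprime_dvd_right (Dvd.intro_left (2 * m) rfl) hkb).symm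

end Pool.Agent.LibJes52
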