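import Pool.Agent.LibJes52.D2
import Pool.Agent.LibJes52.J8
import Pool.Agent.LibJes52.C5

/-!
Exceptional multiples `k t` of primitive triples, `k` fixed.
-/

set_option autoImplicit false
open scoped Classical
open Finset

namespace Pool.Agent.LibJes52

/-- the primitive triples `t` with hypotenuse at most `Y` for which `k t` is exceptional -/
noncomputable def F (k Y : ℕ) : Finset (ℕ × ℕ × ℕ) :=
  (Trip Y).filter fun t => Prim t ∧ Other (mul k t)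

theorem sol_of_other {k a b c : ℕ} (hk : 0 < k) (ha : 0 < a) (hb : 0 < b)
    (h : a ^ 2 + b ^ 2 = c ^ 2) (hc : a.Coprime b) (ho : Other (mul k (a, b, c))) :
    ∃ x y z : ℕ, Sol k a b c x y z := by
  obtain ⟨x, y, z, hx, hy, hz, he, hne⟩ := ho
  exact ⟨x, y, z, hk, ha, hb, h, hc, hx, hy, hz, he, hne⟩

private theorem e1_pyth {m n : ℕ} (hmn : n < m) :
    (m ^ 2 - n ^ 2) ^ 2 + (2 * m * n) ^ 2 = (m ^ 2 + n ^ 2) ^ 2 := by
  have hlt : n ^ 2 ≤ m ^ 2 := Nat.pow_le_pow_left hmn.le 2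
  zify [hlt]
  ring

private theorem e1_core {k Y lam : ℕ} (hk : 0 < k) (hlam : k * Y ≤ 2 ^ lam) (T : ℕ)
    (hT : T = 2 ^ 701 * lam ^ 40) :
    (F k Y).card ≤ 2 * ((Rare (2 * Nat.sqrt Y) k 2 T).card +
      (Rare (2 * Nat.sqrt Y) k 1 T).card) := by
  have hrare : ∀ m n x y z : ℕ, n < m → m ^ 2 + n ^ 2 ≤ Y →
      Sol k (m ^ 2 - n ^ 2) (2 * m * n) (m ^ 2 + n ^ 2) x y z →
      (m + n, m - n) ∈ Rare (2 * Nat.sqrt Y) k 2 T ∨ (n, m) ∈ Rare (2 * Nat.sqrt Y) k 1 T := by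
    intro m n x y z hmn hY h
    have hm : m ≤ Nat.sqrt Y := by
      rw [Nat.le_sqrt']
      exact le_trans (Nat.le_add_right _ _) hY
    have h1 := rare_of_sol hmn hm h (le_trans (Nat.mul_le_mul_left k hY) hlam)
    rw [← hT] at h1
    exact h1
  obtain ⟨Q, hQ⟩ : ∃ Q : ℕ → ℕ → Prop, ∀ m n, Q m n ↔
      ((m + n, m - n) ∈ Rare (2 * Nat.sqrt Y) k 2 T ∨ (n, m) ∈ Rare (2 * Nat.sqrt Y) k 1 T) :=
    ⟨_, fun _ _ => Iff.rfl⟩
  have hle := card_prim_le Y (Nat.sqrt Y) (by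
      have := Nat.lt_succ_sqrt' Y
      exact this) (fun t => Other (mul k t)) Q
    (by
      intro m n hn hmn hc hpar hY ho
      have hlt : n ^ 2 < m ^ 2 := Nat.pow_lt_pow_left hmn two_ne_zero
      obtain ⟨x, y, z, hs⟩ := sol_of_other hk (Nat.sub_pos_of_lt hlt)
        (Nat.mul_pos (Nat.mul_pos two_pos (hn.trans hmn)) hn) (e1_pyth hmn)
        (coprime_gen hmn hc hpar) ho
      exact (hQ m n).2 (hrare m n x y z hmn hY hs))
    (by
      intro m n hn hmn hc hpar hY ho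
      have hlt : n ^ 2 < m ^ 2 := Nat.pow_lt_pow_left hmn two_ne_zero
      obtain ⟨x, y, z, hs⟩ := sol_of_other hk
        (Nat.mul_pos (Nat.mul_pos two_pos (hn.trans hmn)) hn) (Nat.sub_pos_of_lt hlt)
        (by rw [add_comm]; exact e1_pyth hmn)
        (coprime_gen hmn hc hpar).symm ho
      exact (hQ m n).2 (hrare m n y x z hmn hY hs.symm))
  refine hle.trans (Nat.mul_le_mul_left 2 ?_)
  set B := (Icc 1 (Nat.sqrt Y)) ×ˢ (Icc 1 (Nat.sqrt Y)) with hB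
  refine le_trans (card_le_card (t := (B.filter (fun q : ℕ × ℕ => q.2 < q.1 ∧
        (q.1 + q.2, q.1 - q.2) ∈ Rare (2 * Nat.sqrt Y) k 2 T)) ∪
      (B.filter (fun q : ℕ × ℕ => q.2 < q.1 ∧ (q.2, q.1) ∈ Rare (2 * Nat.sqrt Y) k 1 T))) ?_)
    ((card_union_le _ _).trans (Nat.add_le_add ?_ ?_))
  · intro q hq
    obtain ⟨h1, h2, h4⟩ := Finset.mem_filter.1 hq
    rcases (hQ q.1 q.2).1 h4 with h3 | h3
    · exact mem_union_left _ (mem_filter.2 ⟨h1, h2, h3⟩)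
    · exact mem_union_right _ (mem_filter.2 ⟨h1, h2, h3⟩)
  · refine card_le_card_of_injOn (fun q : ℕ × ℕ => (q.1 + q.2, q.1 - q.2)) ?_ ?_
    · intro q hq
      exact (mem_filter.1 (mem_coe.1 hq)).2.2
    · intro q hq r hr he
      have h1 := (mem_filter.1 (mem_coe.1 hq)).2.1
      have h2 := (mem_filter.1 (mem_coe.1 hr)).2.1
      simp only [Prod.mk.injEq] at he
      apply Prod.ext
      · omega
      · omega
  · refine card_le_card_of_injOn (fun q : ℕ × ℕ => (q.2, q.1)) ?_ ?_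
    · intro q hq
      exact (mem_filter.1 (mem_coe.1 hq)).2.2
    · intro q _ r _ he
      simp only [Prod.mk.injEq] at he
      exact Prod.ext he.2 he.1

theorem card_F_le_rare {k Y lam : ℕ} (hk : 0 < k) (hlam : k * Y ≤ 2 ^ lam) :
    (F k Y).card ≤ 2 * ((Rare (2 * Nat.sqrt Y) k 2 (2 ^ 701 * lam ^ 40)).card +
      (Rare (2 * Nat.sqrt Y) k 1 (2 ^ 701 * lam ^ 40)).card) :=
  e1_core hk hlam _ rfl

theorem card_F_le (ε : ℝ) (hε : 0 < ε) : ∃ C : ℝ, 0 < C ∧ ∀ N k : ℕ, 0 < k → k ≤ N →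
    ((F k (N / k)).card : ℝ) ≤ C * (N : ℝ) ^ ε * Real.sqrt ((N : ℝ) / k) := by
  obtain ⟨C, hC, hrare⟩ := rare_card_le ε hε
  refine ⟨8 * C, by positivity, fun N k hk hkN => ?_⟩
  have hY : 1 ≤ N / k := (Nat.one_le_div_iff hk).2 hkN
  have hlam : k * (N / k) ≤ 2 ^ (Nat.clog 2 N + 1) := by
    calc k * (N / k) ≤ N := Nat.mul_div_le N k
      _ ≤ 2 ^ Nat.clog 2 N := Nat.le_pow_clog (by norm_num) N
      _ ≤ 2 ^ (Nat.clog 2 N + 1) := Nat.pow_le_pow_right (by norm_num) (Nat.le_succ _)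
  have h1 := card_F_le_rare hk hlam
  have hs1 : 1 ≤ Nat.sqrt (N / k) := Nat.sqrt_pos.2 hY
  have hs2 : Nat.sqrt (N / k) ≤ N := (Nat.sqrt_le_self _).trans (Nat.div_le_self _ _)
  have hX1 : 1 ≤ 2 * Nat.sqrt (N / k) := by omega
  have hX2 : 2 * Nat.sqrt (N / k) ≤ 2 * N := by omega
  have h2 := hrare N (2 * Nat.sqrt (N / k)) k 2 hX1 hX2
  have h3 := hrare N (2 * Nat.sqrt (N / k)) k 1 hX1 hX2
  have h4 : ((2 * Nat.sqrt (N / k) : ℕ) : ℝ) ≤ 2 * Real.sqrt ((N : ℝ) / k) := by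
    rw [Nat.cast_mul]
    have h5 : ((Nat.sqrt (N / k) : ℕ) : ℝ) ≤ Real.sqrt ((N / k : ℕ) : ℝ) :=
      Real.nat_sqrt_le_real_sqrt
    have h6 : Real.sqrt ((N / k : ℕ) : ℝ) ≤ Real.sqrt ((N : ℝ) / k) :=
      Real.sqrt_le_sqrt Nat.cast_div_le
    have h7 : ((2 : ℕ) : ℝ) = 2 := by norm_num
    rw [h7]
    linarith
  have h0 : 0 ≤ C * (N : ℝ) ^ ε := by positivity
  have h5 := mul_le_mul_of_nonneg_left h4 h0
  have h6 : ((F k (N / k)).card : ℝ) ≤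
      2 * (((Rare (2 * Nat.sqrt (N / k)) k 2 (2 ^ 701 * (Nat.clog 2 N + 1) ^ 40)).card : ℝ) +
        ((Rare (2 * Nat.sqrt (N / k)) k 1 (2 ^ 701 * (Nat.clog 2 N + 1) ^ 40)).card : ℝ)) := by
    have h7 := (Nat.cast_le (α := ℝ)).2 h1
    rw [Nat.cast_mul, Nat.cast_add] at h7
    have h8 : ((2 : ℕ) : ℝ) = 2 := by norm_num
    rw [h8] at h7
    exact h7
  generalize ((Rare (2 * Nat.sqrt (N / k)) k 2 (2 ^ 701 * (Nat.clog 2 N + 1) ^ 40)).card : ℝ) = r2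
    at h2 h6
  generalize ((Rare (2 * Nat.sqrt (N / k)) k 1 (2 ^ 701 * (Nat.clog 2 N + 1) ^ 40)).card : ℝ) = r1
    at h3 h6
  calc ((F k (N / k)).card : ℝ) ≤ 2 * (r2 + r1) := h6
    _ ≤ 2 * (C * (N : ℝ) ^ ε * (2 * Real.sqrt ((N : ℝ) / k)) +
        C * (N : ℝ) ^ ε * (2 * Real.sqrt ((N : ℝ) / k))) := by
        have h9 := h2.trans h5
        have h10 := h3.trans h5
        linarith
    _ = 8 * C * (N : ℝ) ^ ε * Real.sqrt ((N : ℝ) / k) := by ring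

end Pool.Agent.LibJes52
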