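import Pool.Agent.LibJes52.E1
import Pool.Agent.LibJes52.C6

/-!
Large multipliers.
-/

set_option autoImplicit false
open scoped Classical
open Finset

namespace Pool.Agent.LibJes52

private theorem mem_F_iff {k Y : ℕ} {t : ℕ × ℕ × ℕ} (ht : t ∈ F k Y) :
    (1 ≤ t.1 ∧ t.1 ≤ Y) ∧ (1 ≤ t.2.1 ∧ t.2.1 ≤ Y) ∧ (1 ≤ t.2.2 ∧ t.2.2 ≤ Y) ∧
      t.1 ^ 2 + t.2.1 ^ 2 = t.2.2 ^ 2 ∧ t.1.Coprime t.2.1 ∧ Other (mul k t) := by
  unfold F Trip at ht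
  obtain ⟨h1, h2, h3⟩ := Finset.mem_filter.mp ht
  obtain ⟨h4, h5⟩ := Finset.mem_filter.mp h1
  obtain ⟨h6, h7⟩ := Finset.mem_product.mp h4
  obtain ⟨h8, h9⟩ := Finset.mem_product.mp h7
  exact ⟨Finset.mem_Icc.mp h6, Finset.mem_Icc.mp h8, Finset.mem_Icc.mp h9, h5, h2, h3⟩

private theorem mem_Trip_iff {Y : ℕ} {t : ℕ × ℕ × ℕ} :
    t ∈ Trip Y ↔ (1 ≤ t.1 ∧ t.1 ≤ Y) ∧ (1 ≤ t.2.1 ∧ t.2.1 ≤ Y) ∧ (1 ≤ t.2.2 ∧ t.2.2 ≤ Y) ∧
      t.1 ^ 2 + t.2.1 ^ 2 = t.2.2 ^ 2 := by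
  unfold Trip
  rw [Finset.mem_filter, Finset.mem_product, Finset.mem_product, Finset.mem_Icc, Finset.mem_Icc,
    Finset.mem_Icc]
  tauto

/-- the multipliers of an exceptional multiple are composed of prime factors of `a b c` -/
theorem prime_dvd_of_mem_F {k Y : ℕ} {t : ℕ × ℕ × ℕ} (hk : 0 < k) (ht : t ∈ F k Y) (p : ℕ)
    (hp : p.Prime) (hpk : p ∣ k) : p ∣ t.1 * t.2.1 * t.2.2 := by
  obtain ⟨h1, h2, h3, h4, h5, h6⟩ := mem_F_iff ht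
  obtain ⟨a, b, c⟩ := t
  dsimp only at h1 h2 h3 h4 h5 h6 ⊢
  obtain ⟨x, y, z, hs⟩ := sol_of_other hk h1.1 h2.1 h4 h5 h6
  rcases hs.cases with ⟨_, _, h⟩ | ⟨_, _, h⟩ | ⟨_, _, h⟩
  · exact Dvd.dvd.mul_left (h p hp hpk) _
  · exact Dvd.dvd.mul_right (Dvd.dvd.mul_left (h p hp hpk) _) _
  · exact Dvd.dvd.mul_right (Dvd.dvd.mul_right (h p hp hpk) _) _

/-- the multipliers `k > K₀` -/
theorem sum_large_le (ε : ℝ) (hε : 0 < ε) : ∃ C : ℝ, 0 < C ∧ ∀ N K₀ : ℕ, 1 ≤ K₀ → K₀ ≤ N →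
    ∑ k ∈ Ioc K₀ N, ((F k (N / k)).card : ℝ) ≤ C * (N : ℝ) ^ ε * (N / K₀ : ℝ) := by
  obtain ⟨C₁, hC₁, h1⟩ := card_dividing_primes_le (ε / 4) (by positivity)
  refine ⟨2 * C₁, by positivity, fun N K₀ hK hKN => ?_⟩
  have hN1 : 1 ≤ N := hK.trans hKN
  have hN0 : (0 : ℝ) < N := by exact_mod_cast hN1
  have hK0 : (0 : ℝ) < K₀ := by exact_mod_cast hK
  set P : Finset (ℕ × ℕ × ℕ) := (Trip (N / K₀)).filter (fun t => Prim t) with hP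
  have hsub : ∀ k ∈ Ioc K₀ N, (F k (N / k)).card ≤
      (P.filter (fun t => ∀ p : ℕ, p.Prime → p ∣ k → p ∣ t.1 * t.2.1 * t.2.2)).card := by
    intro k hk
    obtain ⟨hk1, hk2⟩ := Finset.mem_Ioc.mp hk
    have hkpos : 0 < k := by omega
    refine Finset.card_le_card fun t ht => ?_
    obtain ⟨g1, g2, g3, g4, g5, g6⟩ := mem_F_iff ht
    have hle : N / k ≤ N / K₀ := Nat.div_le_div_left hk1.le (by omega)
    refine Finset.mem_filter.mpr ⟨Finset.mem_filter.mpr ⟨mem_Trip_iff.mpr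
      ⟨⟨g1.1, g1.2.trans hle⟩, ⟨g2.1, g2.2.trans hle⟩, ⟨g3.1, g3.2.trans hle⟩, g4⟩, g5⟩, ?_⟩
    exact fun p hp hpk => prime_dvd_of_mem_F hkpos ht p hp hpk
  have hswap : ∑ k ∈ Ioc K₀ N,
      (P.filter (fun t => ∀ p : ℕ, p.Prime → p ∣ k → p ∣ t.1 * t.2.1 * t.2.2)).card =
      ∑ t ∈ P, ((Ioc K₀ N).filter
        (fun k => ∀ p : ℕ, p.Prime → p ∣ k → p ∣ t.1 * t.2.1 * t.2.2)).card := by
    simp only [Finset.card_filter]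
    exact Finset.sum_comm
  have hterm : ∀ t ∈ P, (((Ioc K₀ N).filter
      (fun k => ∀ p : ℕ, p.Prime → p ∣ k → p ∣ t.1 * t.2.1 * t.2.2)).card : ℝ) ≤
        C₁ * (N : ℝ) ^ ε := by
    intro t ht
    obtain ⟨g1, g2, g3, g4⟩ := mem_Trip_iff.mp (Finset.mem_filter.mp ht).1
    have hle : N / K₀ ≤ N := Nat.div_le_self _ _
    have hpos : 1 ≤ t.1 * t.2.1 * t.2.2 :=
      Nat.mul_pos (Nat.mul_pos g1.1 g2.1) g3.1
    have hbd : t.1 * t.2.1 * t.2.2 ≤ N ^ 3 := by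
      calc t.1 * t.2.1 * t.2.2 ≤ N * N * N :=
            Nat.mul_le_mul (Nat.mul_le_mul (g1.2.trans hle) (g2.2.trans hle)) (g3.2.trans hle)
        _ = N ^ 3 := by ring
    have h2 : (((Ioc K₀ N).filter
        (fun k => ∀ p : ℕ, p.Prime → p ∣ k → p ∣ t.1 * t.2.1 * t.2.2)).card : ℝ) ≤
        (((Icc 1 N).filter
        (fun k => ∀ p : ℕ, p.Prime → p ∣ k → p ∣ t.1 * t.2.1 * t.2.2)).card : ℝ) := by
      have : ((Ioc K₀ N).filter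
          (fun k => ∀ p : ℕ, p.Prime → p ∣ k → p ∣ t.1 * t.2.1 * t.2.2)).card ≤
          ((Icc 1 N).filter
          (fun k => ∀ p : ℕ, p.Prime → p ∣ k → p ∣ t.1 * t.2.1 * t.2.2)).card := by
        refine Finset.card_le_card (Finset.filter_subset_filter _ fun k hk => ?_)
        obtain ⟨hk1, hk2⟩ := Finset.mem_Ioc.mp hk
        exact Finset.mem_Icc.mpr ⟨by omega, hk2⟩
      exact_mod_cast this
    refine h2.trans ((h1 N (t.1 * t.2.1 * t.2.2) hpos).trans ?_)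
    refine mul_le_mul_of_nonneg_left ?_ hC₁.le
    have h3 : (N : ℝ) * ((t.1 * t.2.1 * t.2.2 : ℕ) : ℝ) ≤ (N : ℝ) ^ (4 : ℕ) := by
      have : N * (t.1 * t.2.1 * t.2.2) ≤ N ^ 4 := by
        calc N * (t.1 * t.2.1 * t.2.2) ≤ N * N ^ 3 := Nat.mul_le_mul_left N hbd
          _ = N ^ 4 := by ring
      exact_mod_cast this
    calc ((N : ℝ) * ((t.1 * t.2.1 * t.2.2 : ℕ) : ℝ)) ^ (ε / 4) ≤
          ((N : ℝ) ^ (4 : ℕ)) ^ (ε / 4) :=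
          Real.rpow_le_rpow (by positivity) h3 (by positivity)
      _ = (N : ℝ) ^ ε := by
          rw [← Real.rpow_natCast (N : ℝ) 4, ← Real.rpow_mul hN0.le]
          congr 1
          push_cast
          ring
  have hcast : ∑ k ∈ Ioc K₀ N, ((F k (N / k)).card : ℝ) ≤
      ∑ t ∈ P, (((Ioc K₀ N).filter
        (fun k => ∀ p : ℕ, p.Prime → p ∣ k → p ∣ t.1 * t.2.1 * t.2.2)).card : ℝ) := by
    have h2 := (Finset.sum_le_sum hsub).trans_eq hswap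
    exact_mod_cast h2
  have hPc : (P.card : ℝ) ≤ 2 * ((N : ℝ) / K₀) := by
    refine (card_prim_le_self (N / K₀)).trans ?_
    have : ((N / K₀ : ℕ) : ℝ) ≤ (N : ℝ) / K₀ := Nat.cast_div_le
    linarith
  have hNε : (0 : ℝ) < (N : ℝ) ^ ε := Real.rpow_pos_of_pos hN0 ε
  calc _ ≤ ∑ t ∈ P, (((Ioc K₀ N).filter
        (fun k => ∀ p : ℕ, p.Prime → p ∣ k → p ∣ t.1 * t.2.1 * t.2.2)).card : ℝ) := hcast
    _ ≤ ∑ _t ∈ P, C₁ * (N : ℝ) ^ ε := Finset.sum_le_sum hterm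
    _ = (P.card : ℝ) * (C₁ * (N : ℝ) ^ ε) := by rw [Finset.sum_const, nsmul_eq_mul]
    _ ≤ (2 * ((N : ℝ) / K₀)) * (C₁ * (N : ℝ) ^ ε) :=
        mul_le_mul_of_nonneg_right hPc (by positivity)
    _ = 2 * C₁ * (N : ℝ) ^ ε * (N / K₀ : ℝ) := by ring

private theorem sum_inv_sqrt_le (K : ℕ) :
    ∑ k ∈ Icc 1 K, 1 / Real.sqrt (k : ℝ) ≤ 2 * Real.sqrt K := by
  induction K with
  | zero => simp
  | succ K ih =>
    rw [Finset.sum_Icc_succ_top (by omega)]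
    have h0 : (0 : ℝ) < Real.sqrt ((K + 1 : ℕ) : ℝ) :=
      Real.sqrt_pos.mpr (by positivity)
    have h1 : Real.sqrt (K : ℝ) ≤ Real.sqrt ((K + 1 : ℕ) : ℝ) :=
      Real.sqrt_le_sqrt (by push_cast; linarith)
    have h2 : Real.sqrt (K : ℝ) * Real.sqrt (K : ℝ) = K :=
      Real.mul_self_sqrt (Nat.cast_nonneg K)
    have h3 : Real.sqrt ((K + 1 : ℕ) : ℝ) * Real.sqrt ((K + 1 : ℕ) : ℝ) = (K : ℝ) + 1 := by
      rw [Real.mul_self_sqrt (by positivity)]; push_cast; ring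
    have h4 : 0 ≤ Real.sqrt (K : ℝ) := Real.sqrt_nonneg _
    have h5 : 1 / Real.sqrt ((K + 1 : ℕ) : ℝ) ≤
        2 * (Real.sqrt ((K + 1 : ℕ) : ℝ) - Real.sqrt (K : ℝ)) := by
      rw [div_le_iff₀ h0]
      nlinarith [sq_nonneg (Real.sqrt ((K + 1 : ℕ) : ℝ) - Real.sqrt (K : ℝ))]
    linarith

/-- the multipliers `k ≤ K₀` -/
theorem sum_small_le (ε : ℝ) (hε : 0 < ε) : ∃ C : ℝ, 0 < C ∧ ∀ N K₀ : ℕ, 1 ≤ K₀ → K₀ ≤ N →
    ∑ k ∈ Icc 1 K₀, ((F k (N / k)).card : ℝ) ≤ C * (N : ℝ) ^ ε * Real.sqrt (N * K₀) := by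
  obtain ⟨C₁, hC₁, h1⟩ := card_F_le ε hε
  refine ⟨2 * C₁, by positivity, fun N K₀ hK hKN => ?_⟩
  have hN1 : 1 ≤ N := hK.trans hKN
  have hN0 : (0 : ℝ) < N := by exact_mod_cast hN1
  have hNε : (0 : ℝ) < (N : ℝ) ^ ε := Real.rpow_pos_of_pos hN0 ε
  calc _ ≤ ∑ k ∈ Icc 1 K₀, C₁ * (N : ℝ) ^ ε * Real.sqrt ((N : ℝ) / k) := by
        refine Finset.sum_le_sum fun k hk => ?_
        obtain ⟨hk1, hk2⟩ := Finset.mem_Icc.mp hk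
        exact h1 N k (by omega) (by omega)
    _ = C₁ * (N : ℝ) ^ ε * Real.sqrt N * ∑ k ∈ Icc 1 K₀, 1 / Real.sqrt (k : ℝ) := by
        rw [Finset.mul_sum]
        refine Finset.sum_congr rfl fun k _ => ?_
        rw [Real.sqrt_div hN0.le]
        ring
    _ ≤ C₁ * (N : ℝ) ^ ε * Real.sqrt N * (2 * Real.sqrt K₀) :=
        mul_le_mul_of_nonneg_left (sum_inv_sqrt_le K₀) (by positivity)
    _ = 2 * C₁ * (N : ℝ) ^ ε * Real.sqrt (N * K₀) := by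
        rw [Real.sqrt_mul hN0.le]
        ring

end Pool.Agent.LibJes52
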