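import Pool.Agent.LibJes52.E1

/-!
All exceptional triples as multiples of primitive ones.
-/

set_option autoImplicit false
open scoped Classical
open Finset

namespace Pool.Agent.LibJes52

private theorem e3_exists {N : ℕ} {t : ℕ × ℕ × ℕ} (ht : t ∈ Trip N) (ho : Other t) :
    ∃ k ∈ Icc 1 N, ∃ s ∈ F k (N / k), mul k s = t := by
  obtain ⟨a, b, c⟩ := t
  simp only [Trip, mem_filter, mem_product, mem_Icc] at ht
  obtain ⟨⟨⟨ha1, haN⟩, ⟨hb1, hbN⟩, hc1, hcN⟩, he⟩ := ht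
  have hk : 0 < a.gcd b := Nat.gcd_pos_of_pos_left _ ha1
  have hka : a.gcd b ∣ a := Nat.gcd_dvd_left a b
  have hkb : a.gcd b ∣ b := Nat.gcd_dvd_right a b
  have hkc : a.gcd b ∣ c := by
    have h1 : (a.gcd b) ^ 2 ∣ c ^ 2 := by
      rw [← he]
      exact dvd_add (pow_dvd_pow_of_dvd hka 2) (pow_dvd_pow_of_dvd hkb 2)
    exact (Nat.pow_dvd_pow_iff (by norm_num)).1 h1
  have hcop : (a / a.gcd b).Coprime (b / a.gcd b) := Nat.coprime_div_gcd_div_gcd hk
  obtain ⟨a', ha'⟩ := hka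
  obtain ⟨b', hb'⟩ := hkb
  obtain ⟨c', hc'⟩ := hkc
  obtain ⟨k, hkd⟩ : ∃ k, k = a.gcd b := ⟨_, rfl⟩
  rw [← hkd] at hk ha' hb' hc' hcop
  have hda : a / k = a' := by rw [ha']; exact Nat.mul_div_cancel_left _ hk
  have hdb : b / k = b' := by rw [hb']; exact Nat.mul_div_cancel_left _ hk
  rw [hda, hdb] at hcop
  have ha'0 : 0 < a' := Nat.pos_of_ne_zero (by rintro rfl; simp at ha'; omega)
  have hb'0 : 0 < b' := Nat.pos_of_ne_zero (by rintro rfl; simp at hb'; omega)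
  have hc'0 : 0 < c' := Nat.pos_of_ne_zero (by rintro rfl; simp at hc'; omega)
  have hle : ∀ u v : ℕ, u = k * v → u ≤ N → v ≤ N / k := by
    intro u v h1 h2
    rw [Nat.le_div_iff_mul_le hk, mul_comm, ← h1]
    exact h2
  have hm : mul k (a', b', c') = (a, b, c) := by
    simp only [mul]
    rw [← ha', ← hb', ← hc']
  refine ⟨k, mem_Icc.2 ⟨hk, ?_⟩, (a', b', c'), ?_, hm⟩
  · refine le_trans ?_ haN
    rw [ha']
    exact Nat.le_mul_of_pos_right _ ha'0
  · simp only [F, Trip, mem_filter, mem_product, mem_Icc]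
    refine ⟨⟨⟨⟨ha'0, hle a a' ha' haN⟩, ⟨hb'0, hle b b' hb' hbN⟩, hc'0, hle c c' hc' hcN⟩, ?_⟩,
      hcop, ?_⟩
    · rw [ha', hb', hc'] at he
      have h1 : k ^ 2 * (a' ^ 2 + b' ^ 2) = k ^ 2 * c' ^ 2 := by
        rw [← mul_pow k c', ← he]
        ring
      exact Nat.eq_of_mul_eq_mul_left (by positivity) h1
    · rw [hm]
      exact ho

theorem card_other_le (N : ℕ) :
    ((Trip N).filter Other).card ≤ ∑ k ∈ Icc 1 N, (F k (N / k)).card := by
  have h1 : (Trip N).filter Other ⊆ (Icc 1 N).biUnion fun k => (F k (N / k)).image (mul k) := by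
    intro t ht
    rw [mem_filter] at ht
    obtain ⟨k, hk, s, hs, hks⟩ := e3_exists ht.1 ht.2
    rw [mem_biUnion]
    exact ⟨k, hk, mem_image.2 ⟨s, hs, hks⟩⟩
  refine (card_le_card h1).trans (card_biUnion_le.trans ?_)
  apply sum_le_sum
  intro k _
  exact card_image_le

end Pool.Agent.LibJes52
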