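import Pool.Agent.LibJes52.E2
import Pool.Agent.LibJes52.E3

/-!
The counting theorems.
-/

set_option autoImplicit false
open scoped Classical
open Finset

namespace Pool.Agent.LibJes52

private theorem mul_one_eq (t : ℕ × ℕ × ℕ) : mul 1 t = t := by
  simp [mul]

theorem count_prim (ε : ℝ) (hε : 0 < ε) : ∃ C : ℝ, ∀ N : ℕ,
    (((Trip N).filter (fun t => Prim t ∧ Other t)).card : ℝ) ≤ C * (N : ℝ) ^ (1 / 2 + ε) := by
  obtain ⟨C, hC, h⟩ := card_F_le ε hε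
  refine ⟨C, fun N => ?_⟩
  rcases Nat.eq_zero_or_pos N with h0 | h0
  · subst h0
    simp [Trip]
    positivity
  · have h1 := h N 1 one_pos h0
    have hF : F 1 (N / 1) = (Trip N).filter (fun t => Prim t ∧ Other t) := by
      unfold F
      simp only [Nat.div_one, mul_one_eq]
    rw [hF] at h1
    refine h1.trans (le_of_eq ?_)
    have hN : (0 : ℝ) < N := by exact_mod_cast h0
    rw [Nat.cast_one, div_one, Real.sqrt_eq_rpow, mul_assoc, ← Real.rpow_add hN, add_comm]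

theorem count_all (ε : ℝ) (hε : 0 < ε) : ∃ C : ℝ, ∀ N : ℕ,
    (((Trip N).filter Other).card : ℝ) ≤ C * (N : ℝ) ^ (2 / 3 + ε) := by
  obtain ⟨C₁, hC₁, h₁⟩ := sum_small_le ε hε
  obtain ⟨C₂, hC₂, h₂⟩ := sum_large_le ε hε
  refine ⟨C₁ + 2 * C₂, fun N => ?_⟩
  rcases Nat.eq_zero_or_pos N with h0 | h0
  · subst h0
    simp [Trip]
    positivity
  have hN : (0 : ℝ) < N := by exact_mod_cast h0
  have hN1 : (1 : ℝ) ≤ N := by exact_mod_cast h0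
  set r : ℝ := (N : ℝ) ^ (1 / 3 : ℝ) with hr
  have hr1 : 1 ≤ r := Real.one_le_rpow hN1 (by norm_num)
  have hrN : r ≤ N := by
    calc r ≤ (N : ℝ) ^ (1 : ℝ) := Real.rpow_le_rpow_of_exponent_le hN1 (by norm_num)
      _ = N := Real.rpow_one _
  set K := ⌊r⌋₊ with hK
  have hK1 : 1 ≤ K := Nat.le_floor (by exact_mod_cast hr1)
  have hKr : (K : ℝ) ≤ r := Nat.floor_le (by linarith)
  have hKN : K ≤ N := by
    have : (K : ℝ) ≤ N := hKr.trans hrN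
    exact_mod_cast this
  have hK2 : r ≤ 2 * K := by
    have h3 : r < K + 1 := Nat.lt_floor_add_one r
    have h4 : (1 : ℝ) ≤ K := by exact_mod_cast hK1
    linarith
  have hsplit : ∑ k ∈ Icc 1 N, ((F k (N / k)).card : ℝ) =
      ∑ k ∈ Icc 1 K, ((F k (N / k)).card : ℝ) + ∑ k ∈ Ioc K N, ((F k (N / k)).card : ℝ) := by
    rw [← Finset.sum_union]
    · congr 1
      ext k
      simp only [mem_union, mem_Icc, mem_Ioc]
      omega
    · rw [Finset.disjoint_left]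
      intro k hk hk'
      simp only [mem_Icc, mem_Ioc] at hk hk'
      omega
  have h3 : (((Trip N).filter Other).card : ℝ) ≤ ∑ k ∈ Icc 1 N, ((F k (N / k)).card : ℝ) := by
    exact_mod_cast card_other_le N
  have h4 := h₁ N K hK1 hKN
  have h5 := h₂ N K hK1 hKN
  have h6 : Real.sqrt (N * K) ≤ (N : ℝ) ^ (2 / 3 : ℝ) := by
    have : (N : ℝ) * K ≤ (N : ℝ) ^ (4 / 3 : ℝ) := by
      calc (N : ℝ) * K ≤ N * r := by gcongr
        _ = (N : ℝ) ^ (1 : ℝ) * (N : ℝ) ^ (1 / 3 : ℝ) := by rw [Real.rpow_one]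
        _ = (N : ℝ) ^ (4 / 3 : ℝ) := by
          rw [← Real.rpow_add hN]; norm_num
    calc Real.sqrt (N * K) ≤ Real.sqrt ((N : ℝ) ^ (4 / 3 : ℝ)) := Real.sqrt_le_sqrt this
      _ = (N : ℝ) ^ (2 / 3 : ℝ) := by
        rw [Real.sqrt_eq_rpow, ← Real.rpow_mul hN.le]; norm_num
  have h7 : (N : ℝ) / K ≤ 2 * (N : ℝ) ^ (2 / 3 : ℝ) := by
    have hK0 : (0 : ℝ) < K := by exact_mod_cast hK1
    rw [div_le_iff₀ hK0]
    calc (N : ℝ) = (N : ℝ) ^ (2 / 3 : ℝ) * r := by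
          rw [hr, ← Real.rpow_add hN]; norm_num
      _ ≤ (N : ℝ) ^ (2 / 3 : ℝ) * (2 * K) := by gcongr
      _ = 2 * (N : ℝ) ^ (2 / 3 : ℝ) * K := by ring
  have hpow : (N : ℝ) ^ ε * (N : ℝ) ^ (2 / 3 : ℝ) = (N : ℝ) ^ (2 / 3 + ε) := by
    rw [← Real.rpow_add hN, add_comm]
  have hNε : 0 ≤ (N : ℝ) ^ ε := by positivity
  calc (((Trip N).filter Other).card : ℝ) ≤ _ := h3
    _ = _ := hsplit
    _ ≤ C₁ * (N : ℝ) ^ ε * Real.sqrt (N * K) + C₂ * (N : ℝ) ^ ε * (N / K : ℝ) := add_le_add h4 h5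
    _ ≤ C₁ * (N : ℝ) ^ ε * (N : ℝ) ^ (2 / 3 : ℝ) +
        C₂ * (N : ℝ) ^ ε * (2 * (N : ℝ) ^ (2 / 3 : ℝ)) := by gcongr
    _ = (C₁ + 2 * C₂) * ((N : ℝ) ^ ε * (N : ℝ) ^ (2 / 3 : ℝ)) := by ring
    _ = _ := by rw [hpow]

end Pool.Agent.LibJes52
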