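import Pool.Agent.LibJes52.E1

/-!
The pointwise theorems.
-/

set_option autoImplicit false

namespace Pool.Agent.LibJes52

/-- the primitive triple below a triple -/
private theorem exists_sol {a b c x y z : ℕ} (ha : 0 < a) (hb : 0 < b)
    (h : a ^ 2 + b ^ 2 = c ^ 2) (hx : 0 < x) (hy : 0 < y) (hz : 0 < z)
    (he : a ^ x + b ^ y = c ^ z) (hne : ¬ (x = 2 ∧ y = 2 ∧ z = 2)) :
    ∃ k a' b' c' : ℕ, k * c' = c ∧ Sol k a' b' c' x y z := by
  set k := Nat.gcd a b with hk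
  have hk0 : 0 < k := Nat.gcd_pos_of_pos_left b ha
  obtain ⟨a', ha'⟩ : k ∣ a := Nat.gcd_dvd_left a b
  obtain ⟨b', hb'⟩ : k ∣ b := Nat.gcd_dvd_right a b
  have hkc : k ∣ c := by
    have : k ^ 2 ∣ c ^ 2 := by
      rw [← h]
      exact dvd_add (pow_dvd_pow_of_dvd (Nat.gcd_dvd_left a b) 2)
        (pow_dvd_pow_of_dvd (Nat.gcd_dvd_right a b) 2)
    exact (Nat.pow_dvd_pow_iff (by norm_num)).mp this
  obtain ⟨c', hc'⟩ := hkc
  have ha'0 : 0 < a' := by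
    rcases Nat.eq_zero_or_pos a' with h0 | h0
    · rw [h0] at ha'; omega
    · exact h0
  have hb'0 : 0 < b' := by
    rcases Nat.eq_zero_or_pos b' with h0 | h0
    · rw [h0] at hb'; omega
    · exact h0
  refine ⟨k, a', b', c', hc'.symm, hk0, ha'0, hb'0, ?_, ?_, hx, hy, hz, ?_, hne⟩
  · have h1 : k ^ 2 * (a' ^ 2 + b' ^ 2) = k ^ 2 * c' ^ 2 := by
      calc k ^ 2 * (a' ^ 2 + b' ^ 2) = (k * a') ^ 2 + (k * b') ^ 2 := by ring
        _ = a ^ 2 + b ^ 2 := by rw [← ha', ← hb']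
        _ = c ^ 2 := h
        _ = (k * c') ^ 2 := by rw [← hc']
        _ = k ^ 2 * c' ^ 2 := by ring
    exact Nat.eq_of_mul_eq_mul_left (by positivity) h1
  · have h1 : (a / k).Coprime (b / k) := Nat.coprime_div_gcd_div_gcd hk0
    have h2 : a / k = a' := by
      rw [ha', Nat.mul_div_cancel_left _ hk0]
    have h3 : b / k = b' := by
      rw [hb', Nat.mul_div_cancel_left _ hk0]
    rw [h2, h3] at h1
    exact h1
  · rw [← ha', ← hb', ← hc']
    exact he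

private theorem clog_le : ∀ c : ℕ, 2 ≤ c → (Nat.clog 2 c : ℝ) ≤ 3 * Real.log c := by
  intro c hc
  have hc0 : (0 : ℝ) < c := by positivity
  have h2 : (2 : ℝ) ≤ c := by exact_mod_cast hc
  have hlog : Real.log 2 ≤ Real.log c := Real.log_le_log (by norm_num) h2
  have hl2 := Real.log_two_gt_d9
  have h1 : 1 < Nat.clog 2 c + 1 := by
    have : 0 < Nat.clog 2 c := Nat.clog_pos (by norm_num) hc
    omega
  have h3 : 2 ^ (Nat.clog 2 c - 1) < c := by
    have := Nat.pow_pred_clog_lt_self (b := 2) (by norm_num) (x := c) (by omega)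
    exact this
  have h4 : ((Nat.clog 2 c - 1 : ℕ) : ℝ) * Real.log 2 ≤ Real.log c := by
    rw [← Real.log_pow]
    apply Real.log_le_log (by positivity)
    exact_mod_cast h3.le
  have h5 : ((Nat.clog 2 c - 1 : ℕ) : ℝ) = (Nat.clog 2 c : ℝ) - 1 := by
    have : 1 ≤ Nat.clog 2 c := by omega
    push_cast [Nat.cast_sub this]
    ring
  rw [h5] at h4
  have h6 : (Nat.clog 2 c : ℝ) * Real.log 2 ≤ 2 * Real.log c := by linarith
  have h7 : (0 : ℝ) ≤ Nat.clog 2 c := by positivity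
  nlinarith

/-- every solution of every Pythagorean triple has exponents at most `C (log c) ^ 40` -/
theorem exponents_bound : ∃ C : ℝ, ∀ a b c : ℕ, 0 < a → 0 < b → a ^ 2 + b ^ 2 = c ^ 2 →
    ∀ x y z : ℕ, 0 < x → 0 < y → 0 < z → a ^ x + b ^ y = c ^ z →
      (max x (max y z) : ℝ) ≤ C * Real.log c ^ 40 := by
  refine ⟨2 ^ 700 * 3 ^ 40, fun a b c ha hb h x y z hx hy hz he => ?_⟩
  have hc2 : 2 ≤ c := by
    by_contra hlt
    have : c ≤ 1 := by omega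
    have h1 : c ^ 2 ≤ 1 := by
      calc c ^ 2 ≤ 1 ^ 2 := Nat.pow_le_pow_left this 2
        _ = 1 := by norm_num
    have h2 : 1 ≤ a ^ 2 := Nat.one_le_pow _ _ ha
    have h3 : 1 ≤ b ^ 2 := Nat.one_le_pow _ _ hb
    omega
  have hlog : 0 ≤ Real.log c := Real.log_natCast_nonneg c
  have hcl := clog_le c hc2
  have hcl0 : 1 ≤ Nat.clog 2 c := Nat.clog_pos (by norm_num) hc2
  have hkey : (2 : ℝ) ^ 700 * (Nat.clog 2 c : ℝ) ^ 40 ≤ 2 ^ 700 * 3 ^ 40 * Real.log c ^ 40 := by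
    calc (2 : ℝ) ^ 700 * (Nat.clog 2 c : ℝ) ^ 40 ≤ 2 ^ 700 * (3 * Real.log c) ^ 40 := by gcongr
      _ = 2 ^ 700 * 3 ^ 40 * Real.log c ^ 40 := by rw [mul_pow]; ring
  refine le_trans ?_ hkey
  by_cases hne : x = 2 ∧ y = 2 ∧ z = 2
  · obtain ⟨rfl, rfl, rfl⟩ := hne
    have h1 : (1 : ℝ) ≤ (Nat.clog 2 c : ℝ) ^ 40 := by
      apply one_le_pow₀
      exact_mod_cast hcl0
    have h2 : (2 : ℝ) ≤ 2 ^ 700 := le_self_pow₀ (by norm_num) (by norm_num)
    simp only [Nat.cast_ofNat, max_self]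
    calc (2 : ℝ) ≤ 2 ^ 700 := h2
      _ = 2 ^ 700 * 1 := by ring
      _ ≤ 2 ^ 700 * (Nat.clog 2 c : ℝ) ^ 40 := mul_le_mul_of_nonneg_left h1 (by positivity)
  · obtain ⟨k, a', b', c', hkc, hs⟩ := exists_sol ha hb h hx hy hz he hne
    have h1 := hs.exponents_le (lam := Nat.clog 2 c)
      (by rw [hkc]; exact Nat.le_pow_clog (by norm_num) c)
    have h2 : ((max x (max y z) : ℕ) : ℝ) ≤ ((2 ^ 700 * Nat.clog 2 c ^ 40 : ℕ) : ℝ) := by
      exact_mod_cast h1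
    push_cast at h2
    exact h2

/-- an exceptional primitive triple: `c ^ 2` has a very small order modulo `a` and modulo `b` -/
theorem order_bound : ∃ C : ℝ, ∀ a b c : ℕ, 0 < a → 0 < b → a ^ 2 + b ^ 2 = c ^ 2 →
    a.Coprime b → Other (a, b, c) → ∃ D E : ℕ, 0 < D ∧ 0 < E ∧
      (D : ℝ) ≤ C * Real.log c ^ 40 ∧ (E : ℝ) ≤ C * Real.log c ^ 40 ∧
      a ∣ c ^ (2 * D) - 1 ∧ b ∣ c ^ (2 * E) - 1 := by
  obtain ⟨C, hC⟩ := exponents_bound
  refine ⟨C, fun a b c ha hb h hc ho => ?_⟩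
  obtain ⟨x, y, z, hx, hy, hz, he, hne⟩ := ho
  simp only at he
  have hs : Sol 1 a b c x y z :=
    ⟨one_pos, ha, hb, h, hc, hx, hy, hz, by simpa using he, hne⟩
  have hmax := hC a b c ha hb h x y z hx hy hz he
  obtain ⟨D, hD0, hD, hDa⟩ := hs.dvd_a
  obtain ⟨E, hE0, hE, hEb⟩ := hs.symm.dvd_a
  refine ⟨D, E, hD0, hE0, ?_, ?_, hDa, hEb⟩
  · refine le_trans ?_ hmax
    have : ((D : ℕ) : ℝ) ≤ ((max y z : ℕ) : ℝ) := by exact_mod_cast hD
    push_cast at this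
    exact this.trans (le_max_right _ _)
  · refine le_trans ?_ hmax
    have : ((E : ℕ) : ℝ) ≤ ((max x z : ℕ) : ℝ) := by exact_mod_cast hE
    push_cast at this
    refine this.trans (max_le (le_max_left _ _) ?_)
    exact (le_max_right _ _).trans (le_max_right _ _)

end Pool.Agent.LibJes52
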