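import Pool.Agent.LibJes52.Defs

/-!
Elementary facts on `Sol`.
-/

set_option autoImplicit false

namespace Pool.Agent.LibJes52

/-- exchanging the roles of `(a, x)` and `(b, y)` -/
theorem Sol.symm {k a b c x y z : ℕ} (h : Sol k a b c x y z) : Sol k b a c y x z where
  k_pos := h.k_pos
  a_pos := h.b_pos
  b_pos := h.a_pos
  pyth := by rw [add_comm]; exact h.pyth
  cop := h.cop.symm
  x_pos := h.y_pos
  y_pos := h.x_pos
  z_pos := h.z_pos
  eq := by rw [add_comm]; exact h.eq
  ne := fun hc => h.ne ⟨hc.2.1, hc.1, hc.2.2⟩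

private theorem J0_three {a b c : ℕ} (ha : 0 < a) (hb : 0 < b) (h : a ^ 2 + b ^ 2 = c ^ 2) :
    3 ≤ a := by
  have hbc : b < c := by
    by_contra hcon
    push Not at hcon
    have : c ^ 2 ≤ b ^ 2 := Nat.pow_le_pow_left hcon 2
    have : 0 < a ^ 2 := by positivity
    omega
  by_contra hcon
  push Not at hcon
  obtain ⟨d, rfl⟩ := Nat.exists_eq_add_of_lt hbc
  have h1 : (b + d + 1) ^ 2 = b ^ 2 + (2 * b * (d + 1) + (d + 1) ^ 2) := by ring
  rw [h1] at h
  have h2 : a ^ 2 = 2 * b * (d + 1) + (d + 1) ^ 2 := by omega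
  have ha2 : a = 1 ∨ a = 2 := by omega
  rcases ha2 with rfl | rfl
  · have : 1 ≤ b * (d + 1) := Nat.one_le_iff_ne_zero.mpr (by positivity)
    nlinarith
  · rcases Nat.eq_zero_or_pos d with rfl | hd
    · norm_num at h2
      omega
    · have : 2 ≤ b * (d + 1) := by nlinarith
      nlinarith

private theorem J0_cop {a b c : ℕ} (hc : a.Coprime b) (h : a ^ 2 + b ^ 2 = c ^ 2) :
    a.Coprime c := by
  have h1 : a.Coprime (c ^ 2) := by
    rw [← h, sq a]
    rw [Nat.coprime_mul_left_add_right]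
    exact hc.pow_right 2
  exact Nat.Coprime.coprime_dvd_right (dvd_pow_self c (by norm_num)) h1

theorem Sol.basic {k a b c x y z : ℕ} (h : Sol k a b c x y z) :
    a < c ∧ b < c ∧ c < a + b ∧ 3 ≤ a ∧ 3 ≤ b ∧ 5 ≤ c ∧ a.Coprime c ∧ b.Coprime c ∧
      (Odd a ∧ Even b ∨ Even a ∧ Odd b) ∧ Odd c := by
  have hp := h.pyth
  have ha := h.a_pos
  have hb := h.b_pos
  have hp' : b ^ 2 + a ^ 2 = c ^ 2 := by rw [add_comm]; exact hp
  have h3a : 3 ≤ a := J0_three ha hb hp
  have h3b : 3 ≤ b := J0_three hb ha hp'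
  have hac : a < c := by nlinarith
  have hbc : b < c := by nlinarith
  have hcab : c < a + b := by nlinarith
  have h5 : 5 ≤ c := by nlinarith
  have hodd : (Odd a ∧ Even b ∨ Even a ∧ Odd b) ∧ Odd c := by
    rcases Nat.even_or_odd a with hea | hoa
    · rcases Nat.even_or_odd b with heb | hob
      · exfalso
        have h2 : 2 ∣ Nat.gcd a b := Nat.dvd_gcd hea.two_dvd heb.two_dvd
        rw [h.cop] at h2
        omega
      · refine ⟨Or.inr ⟨hea, hob⟩, ?_⟩
        have h1 : Odd (c ^ 2) := by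
          rw [← hp]
          exact (hea.pow_of_ne_zero (by norm_num)).add_odd hob.pow
        rcases Nat.even_or_odd c with hec | hoc
        · exact absurd (hec.pow_of_ne_zero (by norm_num)) (Nat.not_even_iff_odd.mpr h1)
        · exact hoc
    · rcases Nat.even_or_odd b with heb | hob
      · refine ⟨Or.inl ⟨hoa, heb⟩, ?_⟩
        have h1 : Odd (c ^ 2) := by
          rw [← hp]
          exact hoa.pow.add_even (heb.pow_of_ne_zero (by norm_num))
        rcases Nat.even_or_odd c with hec | hoc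
        · exact absurd (hec.pow_of_ne_zero (by norm_num)) (Nat.not_even_iff_odd.mpr h1)
        · exact hoc
      · exfalso
        obtain ⟨s, hs⟩ := hoa
        obtain ⟨t, ht⟩ := hob
        rcases Nat.even_or_odd' c with ⟨u, hu | hu⟩
        · rw [hs, ht, hu] at hp
          have h4 : 4 * (s ^ 2 + s + t ^ 2 + t) + 2 = 4 * u ^ 2 := by nlinarith
          omega
        · rw [hs, ht, hu] at hp
          have h4 : 4 * (s ^ 2 + s + t ^ 2 + t) + 2 = 4 * (u ^ 2 + u) + 1 := by nlinarith
          omega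
  exact ⟨hac, hbc, hcab, h3a, h3b, h5, J0_cop h.cop hp, J0_cop h.cop.symm hp', hodd.1, hodd.2⟩

end Pool.Agent.LibJes52
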