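import Pool.Agent.LibJes52.Defs

/-!
`b ^ y` does not divide `c ^ x - a ^ x` for `y > x`.
-/

set_option autoImplicit false

namespace Pool.Agent.LibJes52

private theorem j1_odd_two {a c m : ℕ} (hac : a < c) (ha : Odd a) (hc : Odd c) :
    padicValNat 2 (c ^ (2 * m + 1) - a ^ (2 * m + 1)) = padicValNat 2 (c - a) := by
  have h2 : ((2 : ℤ)) ∣ (c : ℤ) - (a : ℤ) := by
    obtain ⟨k, rfl⟩ := ha
    obtain ⟨l, rfl⟩ := hc
    refine ⟨(l : ℤ) - k, ?_⟩
    push_cast
    ring
  have hc' : ¬ ((2 : ℤ)) ∣ (c : ℤ) := by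
    obtain ⟨l, rfl⟩ := hc
    omega
  have hn : ¬ (2 : ℤ) ∣ ((2 * m + 1 : ℕ) : ℤ) := by
    push_cast
    omega
  have key := emultiplicity_pow_sub_pow_of_prime Int.prime_two h2 hc' hn
  have hpw : a ^ (2 * m + 1) < c ^ (2 * m + 1) := Nat.pow_lt_pow_left hac (by omega)
  rw [← Nat.cast_inj (R := ℕ∞), padicValNat_eq_emultiplicity (Nat.sub_ne_zero_of_lt hpw),
    padicValNat_eq_emultiplicity (Nat.sub_ne_zero_of_lt hac)]
  rw [← Int.natCast_emultiplicity, ← Int.natCast_emultiplicity]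
  rw [Nat.cast_sub hpw.le, Nat.cast_sub hac.le]
  push_cast
  exact key

theorem valuation_le {a b c : ℕ} (ha : 0 < a) (hb : 0 < b) (h : a ^ 2 + b ^ 2 = c ^ 2)
    (hc : a.Coprime b) {x p : ℕ} (hx : 0 < x) (hp : p.Prime) (hpb : p ∣ b)
    (hd : b ∣ c ^ x - a ^ x) :
    padicValNat p (c ^ x - a ^ x) ≤ 2 * padicValNat p b + padicValNat p x := by
  have := Fact.mk hp
  have hac : a < c := by
    have : a ^ 2 < c ^ 2 := by
      have := pow_pos hb 2
      omega
    exact lt_of_pow_lt_pow_left₀ 2 (Nat.zero_le _) this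
  have hpa : ¬ p ∣ a := fun h' => Nat.not_coprime_of_dvd_of_dvd hp.one_lt h' hpb hc
  have hpc : ¬ p ∣ c := by
    intro h'
    apply hpa
    have h1 : p ∣ c ^ 2 := h'.trans (dvd_pow_self _ (by norm_num))
    have h2 : p ∣ b ^ 2 := hpb.trans (dvd_pow_self _ (by norm_num))
    rw [← h] at h1
    exact hp.dvd_of_dvd_pow ((Nat.dvd_add_left h2).1 h1)
  have hsq : c ^ 2 - a ^ 2 = b ^ 2 := by omega
  have hfac : c ^ 2 - a ^ 2 = (c + a) * (c - a) := Nat.sq_sub_sq c a
  have hca0 : c - a ≠ 0 := Nat.sub_ne_zero_of_lt hac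
  have hsum : padicValNat p (c + a) + padicValNat p (c - a) = 2 * padicValNat p b := by
    rw [← padicValNat.mul (by omega) hca0, ← hfac, hsq, padicValNat.pow]
  have hdx : p ∣ c ^ x - a ^ x := hpb.trans hd
  have hpsq : p ∣ c ^ 2 - a ^ 2 := by
    rw [hsq]
    exact hpb.trans (dvd_pow_self _ (by norm_num))
  rcases Nat.even_or_odd' x with ⟨m, rfl | rfl⟩
  · have hm : m ≠ 0 := by omega
    rcases hp.eq_two_or_odd' with rfl | hpo
    · have h1 := padicValNat.pow_two_sub_pow hac (by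
        have hco : Odd c := Nat.not_even_iff_odd.1 fun h' => hpc h'.two_dvd
        have hao : Odd a := Nat.not_even_iff_odd.1 fun h' => hpa h'.two_dvd
        exact (Nat.Odd.sub_odd hco hao).two_dvd) hpc (show 2 * m ≠ 0 by omega) ⟨m, by ring⟩
      omega
    · have h1 := padicValNat.pow_sub_pow hpo (Nat.pow_lt_pow_left hac (by norm_num : 2 ≠ 0))
        hpsq (fun h' => hpc (hp.dvd_of_dvd_pow h')) hm
      rw [← pow_mul, ← pow_mul, hsq, padicValNat.pow] at h1
      rw [h1, padicValNat.mul (by norm_num) hm]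
      omega
  · have hpca : p ∣ c - a := by
      have h1 : (c ^ (2 * m + 1) : ℤ) ≡ a ^ (2 * m + 1) [ZMOD p] := by
        refine (Int.modEq_iff_dvd.2 ?_).symm
        have h2 := Int.natCast_dvd_natCast.2 hdx
        rw [Nat.cast_sub (Nat.pow_le_pow_left hac.le _)] at h2
        push_cast at h2
        exact h2
      have h2 : (c ^ 2 : ℤ) ≡ a ^ 2 [ZMOD p] := by
        refine (Int.modEq_iff_dvd.2 ?_).symm
        have h2 := Int.natCast_dvd_natCast.2 hpsq
        rw [Nat.cast_sub (Nat.pow_le_pow_left hac.le _)] at h2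
        push_cast at h2
        exact h2
      have h3 : (c ^ (2 * m + 1) : ℤ) ≡ (a ^ 2) ^ m * c [ZMOD p] := by
        rw [pow_succ, pow_mul]
        exact (h2.pow m).mul_right _
      have h4 : (p : ℤ) ∣ (a ^ 2) ^ m * (c - a) := by
        have h5 := Int.modEq_iff_dvd.1 (h1.symm.trans h3)
        have h6 : ((a : ℤ) ^ 2) ^ m * (c - a) = (a ^ 2) ^ m * c - a ^ (2 * m + 1) := by
          ring
        rw [h6]
        exact h5
      rcases (Nat.prime_iff_prime_int.1 hp).dvd_or_dvd h4 with h5 | h5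
      · exfalso
        have h6 := (Nat.prime_iff_prime_int.1 hp).dvd_of_dvd_pow
          ((Nat.prime_iff_prime_int.1 hp).dvd_of_dvd_pow h5)
        exact hpa (Int.natCast_dvd_natCast.1 h6)
      · rw [← Int.natCast_dvd_natCast, Nat.cast_sub hac.le]
        exact h5
    rcases hp.eq_two_or_odd' with rfl | hpo
    · rw [j1_odd_two hac (Nat.not_even_iff_odd.1 fun h' => hpa h'.two_dvd)
        (Nat.not_even_iff_odd.1 fun h' => hpc h'.two_dvd)]
      omega
    · rw [padicValNat.pow_sub_pow hpo hac hpca hpc (by omega)]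
      omega

theorem not_pow_dvd {a b c : ℕ} (ha : 0 < a) (hb : 0 < b) (h : a ^ 2 + b ^ 2 = c ^ 2)
    (hc : a.Coprime b) {x y : ℕ} (hx : 0 < x) (hxy : x < y) : ¬ b ^ y ∣ c ^ x - a ^ x := by
  intro hdvd
  have hac : a < c := by
    have : a ^ 2 < c ^ 2 := by
      have := pow_pos hb 2
      omega
    exact lt_of_pow_lt_pow_left₀ 2 (Nat.zero_le _) this
  have hcab : c < a + b := by
    have : c ^ 2 < (a + b) ^ 2 := by nlinarith [Nat.mul_pos ha hb]
    exact lt_of_pow_lt_pow_left₀ 2 (Nat.zero_le _) this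
  have hb3 : 3 ≤ b := by
    obtain ⟨d, rfl⟩ := Nat.exists_eq_add_of_lt hac
    by_contra hcon
    push Not at hcon
    have hb2 : b ≤ 2 := by omega
    have : b ^ 2 ≤ 4 := by nlinarith
    have h1 : (a + d + 1) ^ 2 = a ^ 2 + 2 * a * (d + 1) + (d + 1) ^ 2 := by ring
    rw [h1] at h
    have hd0 : d = 0 := by
      by_contra hd0
      have : 1 ≤ d := Nat.one_le_iff_ne_zero.2 hd0
      nlinarith
    subst hd0
    have h2 : b ^ 2 = 2 * a + 1 := by
      ring_nf at h
      ring_nf
      omega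
    interval_cases b
    · omega
    · omega
  have hb0 : b ∣ c ^ x - a ^ x := (dvd_pow_self b (by omega)).trans hdvd
  have hne : c ^ x - a ^ x ≠ 0 := Nat.sub_ne_zero_of_lt (Nat.pow_lt_pow_left hac hx.ne')
  rcases Nat.lt_or_ge y 3 with hy | hy
  · have hx1 : x = 1 := by omega
    have hy2 : y = 2 := by omega
    subst hx1 hy2
    rw [pow_one, pow_one] at hdvd
    have h1 := Nat.le_of_dvd (Nat.sub_pos_of_lt hac) hdvd
    have h2 : b ^ 2 = b * b := by ring
    have h3 : b * 1 ≤ b * b := Nat.mul_le_mul_left b hb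
    omega
  · obtain ⟨n, rfl⟩ := Nat.exists_eq_add_of_le hy
    have hdiv : b ^ (n + 1) ∣ x := by
      rw [← Nat.factorization_prime_le_iff_dvd (pow_ne_zero _ hb.ne') hx.ne']
      intro p hp
      rw [Nat.factorization_pow, Finsupp.smul_apply, smul_eq_mul, Nat.factorization_def _ hp,
        Nat.factorization_def _ hp]
      have := Fact.mk hp
      by_cases hpb : p ∣ b
      · have h1 := valuation_le ha hb h hc hx hp hpb hb0
        have h2 : padicValNat p (b ^ (3 + n)) ≤ padicValNat p (c ^ x - a ^ x) :=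
          (padicValNat_dvd_iff_le hne).1 (pow_padicValNat_dvd.trans hdvd)
        rw [padicValNat.pow] at h2
        have h3 : (3 + n) * padicValNat p b = (n + 1) * padicValNat p b + 2 * padicValNat p b := by
          ring
        omega
      · rw [padicValNat.eq_zero_of_not_dvd hpb, mul_zero]
        exact Nat.zero_le _
    have h1 := Nat.le_of_dvd hx hdiv
    have h2 : 3 ^ (n + 1) ≤ b ^ (n + 1) := Nat.pow_le_pow_left hb3 _
    have h3 : n + 3 ≤ 3 ^ (n + 1) := by
      clear * -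
      induction n with
      | zero => norm_num
      | succ n ih => rw [pow_succ]; omega
    omega

end Pool.Agent.LibJes52
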