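import Pool.Agent.LibJes52.J0
import Pool.Agent.LibJes52.J1

/-!
The three types of solutions.
-/

set_option autoImplicit false

namespace Pool.Agent.LibJes52

/-- `a ^ n + b ^ n ≤ c ^ n` for `n ≥ 2` -/
private theorem j2_le {a b c : ℕ} (h : a ^ 2 + b ^ 2 = c ^ 2) (hac : a < c) (hbc : b < c)
    {n : ℕ} (hn : 2 ≤ n) : a ^ n + b ^ n ≤ c ^ n := by
  obtain ⟨m, rfl⟩ := Nat.exists_eq_add_of_le hn
  calc a ^ (2 + m) + b ^ (2 + m) = a ^ m * a ^ 2 + b ^ m * b ^ 2 := by ring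
    _ ≤ c ^ m * a ^ 2 + c ^ m * b ^ 2 :=
        Nat.add_le_add (Nat.mul_le_mul_right _ (Nat.pow_le_pow_left hac.le m))
          (Nat.mul_le_mul_right _ (Nat.pow_le_pow_left hbc.le m))
    _ = c ^ m * (a ^ 2 + b ^ 2) := by ring
    _ = c ^ (2 + m) := by rw [h]; ring

private theorem j2_lt {a b c : ℕ} (h : a ^ 2 + b ^ 2 = c ^ 2) (ha : 0 < a) (hac : a < c)
    (hbc : b < c) {n : ℕ} (hn : 3 ≤ n) : a ^ n + b ^ n < c ^ n := by
  obtain ⟨m, rfl⟩ := Nat.exists_eq_add_of_le hn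
  calc a ^ (3 + m) + b ^ (3 + m) = a ^ (m + 1) * a ^ 2 + b ^ (m + 1) * b ^ 2 := by ring
    _ < c ^ (m + 1) * a ^ 2 + c ^ (m + 1) * b ^ 2 :=
        Nat.add_lt_add_of_lt_of_le (Nat.mul_lt_mul_of_pos_right
          (Nat.pow_lt_pow_left hac (Nat.succ_ne_zero m)) (by positivity))
          (Nat.mul_le_mul_right _ (Nat.pow_le_pow_left hbc.le (m + 1)))
    _ = c ^ (m + 1) * (a ^ 2 + b ^ 2) := by ring
    _ = c ^ (3 + m) := by rw [h]; ring

theorem Sol.x_ne_z {k a b c x y z : ℕ} (h : Sol k a b c x y z) : x ≠ z := by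
  intro hxz
  subst hxz
  obtain ⟨hac, hbc, hcab, ha3, hb3, hc5, -⟩ := h.basic
  have hk := h.k_pos
  have heq := h.eq
  rw [mul_pow, mul_pow, mul_pow] at heq
  rcases Nat.lt_trichotomy x y with hxy | hxy | hxy
  · obtain ⟨d, rfl⟩ := Nat.exists_eq_add_of_lt hxy
    have h1 : a ^ x + k ^ (d + 1) * b ^ (x + d + 1) = c ^ x := by
      have h2 : k ^ x * (a ^ x + k ^ (d + 1) * b ^ (x + d + 1)) = k ^ x * c ^ x := by
        rw [← heq]; ring
      exact Nat.eq_of_mul_eq_mul_left (Nat.pow_pos hk) h2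
    refine not_pow_dvd h.a_pos h.b_pos h.pyth h.cop h.x_pos hxy ⟨k ^ (d + 1), ?_⟩
    rw [← h1, Nat.add_sub_cancel_left, mul_comm]
  · subst hxy
    have h1 : a ^ x + b ^ x = c ^ x := by
      have h2 : k ^ x * (a ^ x + b ^ x) = k ^ x * c ^ x := by
        rw [← heq]; ring
      exact Nat.eq_of_mul_eq_mul_left (Nat.pow_pos hk) h2
    rcases Nat.lt_trichotomy x 2 with hx | hx | hx
    · have hx1 : x = 1 := by
        have := h.x_pos
        omega
      subst hx1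
      rw [pow_one, pow_one, pow_one] at h1
      omega
    · exact h.ne ⟨hx, hx, hx⟩
    · have := j2_lt h.pyth h.a_pos hac hbc (n := x) hx
      omega
  · obtain ⟨d, rfl⟩ := Nat.exists_eq_add_of_lt hxy
    have hy := h.y_pos
    have h1 : k ^ (d + 1) * a ^ (y + d + 1) + b ^ y = k ^ (d + 1) * c ^ (y + d + 1) := by
      have h2 : k ^ y * (k ^ (d + 1) * a ^ (y + d + 1) + b ^ y) =
          k ^ y * (k ^ (d + 1) * c ^ (y + d + 1)) := by
        calc _ = k ^ (y + d + 1) * a ^ (y + d + 1) + k ^ y * b ^ y := by ring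
          _ = k ^ (y + d + 1) * c ^ (y + d + 1) := heq
          _ = _ := by ring
      exact Nat.eq_of_mul_eq_mul_left (Nat.pow_pos hk) h2
    have h3 := j2_le h.pyth hac hbc (n := y + d + 1) (by omega)
    have h4 := Nat.mul_le_mul_left (k ^ (d + 1)) h3
    rw [mul_add] at h4
    have h5 : b ^ y < b ^ (y + d + 1) := Nat.pow_lt_pow_right (by omega) (by omega)
    have h6 : b ^ (y + d + 1) ≤ k ^ (d + 1) * b ^ (y + d + 1) :=
      Nat.le_mul_of_pos_left _ (Nat.pow_pos hk)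
    omega

theorem Sol.y_ne_z {k a b c x y z : ℕ} (h : Sol k a b c x y z) : y ≠ z :=
  h.symm.x_ne_z

private theorem j2_mid {k a b c x y z : ℕ} (h : Sol k a b c x y z) (hyz : y < z) (hzx : z < x) :
    ∀ p : ℕ, p.Prime → p ∣ k → p ∣ b := by
  intro p hp hpk
  have heq := h.eq
  rw [mul_pow, mul_pow, mul_pow] at heq
  obtain ⟨d, rfl⟩ := Nat.exists_eq_add_of_lt hyz
  obtain ⟨e, rfl⟩ := Nat.exists_eq_add_of_lt (hyz.trans hzx)
  have h1 : k ^ (e + 1) * a ^ (y + e + 1) + b ^ y = k ^ (d + 1) * c ^ (y + d + 1) := by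
    have h2 : k ^ y * (k ^ (e + 1) * a ^ (y + e + 1) + b ^ y) =
        k ^ y * (k ^ (d + 1) * c ^ (y + d + 1)) := by
      calc _ = k ^ (y + e + 1) * a ^ (y + e + 1) + k ^ y * b ^ y := by ring
        _ = k ^ (y + d + 1) * c ^ (y + d + 1) := heq
        _ = _ := by ring
    exact Nat.eq_of_mul_eq_mul_left (Nat.pow_pos h.k_pos) h2
  have h3 : p ∣ k ^ (e + 1) * a ^ (y + e + 1) :=
    Dvd.dvd.mul_right (hpk.trans (dvd_pow_self k (Nat.succ_ne_zero e))) _
  have h4 : p ∣ k ^ (d + 1) * c ^ (y + d + 1) :=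
    Dvd.dvd.mul_right (hpk.trans (dvd_pow_self k (Nat.succ_ne_zero d))) _
  rw [← h1] at h4
  exact hp.dvd_of_dvd_pow ((Nat.dvd_add_right h3).1 h4)

theorem Sol.cases {k a b c x y z : ℕ} (h : Sol k a b c x y z) :
    (z < x ∧ z < y ∧ (∀ p : ℕ, p.Prime → p ∣ k → p ∣ c)) ∨
    (y < z ∧ z < x ∧ (∀ p : ℕ, p.Prime → p ∣ k → p ∣ b)) ∨
    (x < z ∧ z < y ∧ (∀ p : ℕ, p.Prime → p ∣ k → p ∣ a)) := by
  obtain ⟨hac, hbc, hcab, ha3, hb3, hc5, -⟩ := h.basic
  have hxz := h.x_ne_z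
  have hyz := h.y_ne_z
  rcases Nat.lt_or_gt_of_ne hxz with hx | hx
  · rcases Nat.lt_or_gt_of_ne hyz with hy | hy
    · exfalso
      have hk := h.k_pos
      have h1 : (k * a) ^ x < (k * c) ^ x :=
        Nat.pow_lt_pow_left (Nat.mul_lt_mul_of_pos_left hac hk) h.x_pos.ne'
      have h2 : (k * b) ^ y < (k * c) ^ y :=
        Nat.pow_lt_pow_left (Nat.mul_lt_mul_of_pos_left hbc hk) h.y_pos.ne'
      have hkc : 2 ≤ k * c := by
        calc 2 ≤ c := by omega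
          _ ≤ k * c := Nat.le_mul_of_pos_left _ hk
      have h3 : (k * c) ^ x ≤ (k * c) ^ (z - 1) := Nat.pow_le_pow_right (by omega) (by omega)
      have h4 : (k * c) ^ y ≤ (k * c) ^ (z - 1) := Nat.pow_le_pow_right (by omega) (by omega)
      have h5 : (k * c) ^ z = (k * c) ^ (z - 1) * (k * c) := by
        rw [← pow_succ]
        congr 1
        have := h.z_pos
        omega
      have h6 : (k * c) ^ (z - 1) * 2 ≤ (k * c) ^ (z - 1) * (k * c) := Nat.mul_le_mul_left _ hkc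
      have h7 := h.eq
      omega
    · exact Or.inr (Or.inr ⟨hx, hy, j2_mid h.symm hx hy⟩)
  · rcases Nat.lt_or_gt_of_ne hyz with hy | hy
    · exact Or.inr (Or.inl ⟨hy, hx, j2_mid h hy hx⟩)
    · refine Or.inl ⟨hx, hy, fun p hp hpk => ?_⟩
      have heq := h.eq
      rw [mul_pow, mul_pow, mul_pow] at heq
      obtain ⟨d, rfl⟩ := Nat.exists_eq_add_of_lt hx
      obtain ⟨e, rfl⟩ := Nat.exists_eq_add_of_lt hy
      have h1 : k ^ (d + 1) * a ^ (z + d + 1) + k ^ (e + 1) * b ^ (z + e + 1) = c ^ z := by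
        have h2 : k ^ z * (k ^ (d + 1) * a ^ (z + d + 1) + k ^ (e + 1) * b ^ (z + e + 1)) =
            k ^ z * c ^ z := by
          rw [← heq]; ring
        exact Nat.eq_of_mul_eq_mul_left (Nat.pow_pos h.k_pos) h2
      have h3 : p ∣ k ^ (d + 1) * a ^ (z + d + 1) :=
        Dvd.dvd.mul_right (hpk.trans (dvd_pow_self k (Nat.succ_ne_zero d))) _
      have h4 : p ∣ k ^ (e + 1) * b ^ (z + e + 1) :=
        Dvd.dvd.mul_right (hpk.trans (dvd_pow_self k (Nat.succ_ne_zero e))) _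
      have h5 : p ∣ c ^ z := by
        rw [← h1]
        exact dvd_add h3 h4
      exact hp.dvd_of_dvd_pow h5

end Pool.Agent.LibJes52
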