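import Pool.Agent.LibJes52.J2

/-!
Type `y < z < x`: relations between the exponents.
-/

set_option autoImplicit false

namespace Pool.Agent.LibJes52

/-- valuations at a prime factor of `k ≥ 2` -/
theorem Sol.y_le {k a b c x y z : ℕ} (h : Sol k a b c x y z) (hk : 2 ≤ k) (hyz : y < z)
    (hzx : z < x) : y ≤ (z - y) * Nat.log 2 k := by
  obtain ⟨-, -, -, -, -, -, hcac, hcbc, -, -⟩ := h.basic
  have hpk : ∀ p : ℕ, p.Prime → p ∣ k → p ∣ b := by
    rcases h.cases with h1 | h1 | h1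
    · omega
    · exact h1.2.2
    · omega
  have hk1 : k ≠ 1 := by omega
  have hp : (k.minFac).Prime := Nat.minFac_prime hk1
  have hpdk : k.minFac ∣ k := Nat.minFac_dvd k
  generalize k.minFac = p at hp hpdk
  have hpb : p ∣ b := hpk p hp hpdk
  have heq := h.eq
  obtain ⟨d, hd, rfl⟩ : ∃ d, 0 < d ∧ z = y + d := ⟨z - y, by omega, by omega⟩
  obtain ⟨e, he, rfl⟩ : ∃ e, 0 < e ∧ x = y + d + e := ⟨x - (y + d), by omega, by omega⟩
  have hky : 0 < k ^ y := pow_pos h.k_pos y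
  have h2 : k ^ d * (k ^ e * a ^ (y + d + e)) + b ^ y = k ^ d * c ^ (y + d) := by
    apply Nat.eq_of_mul_eq_mul_left hky
    have h3 : (k * a) ^ (y + d + e) = k ^ y * (k ^ d * (k ^ e * a ^ (y + d + e))) := by
      rw [mul_pow, pow_add k (y + d) e, pow_add k y d]
      ring
    have h4 : (k * b) ^ y = k ^ y * b ^ y := mul_pow _ _ _
    have h5 : (k * c) ^ (y + d) = k ^ y * (k ^ d * c ^ (y + d)) := by
      rw [mul_pow, pow_add k y d]
      ring
    rw [mul_add, ← h3, ← h4, ← h5]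
    exact heq
  have hlt : k ^ e * a ^ (y + d + e) ≤ c ^ (y + d) := by
    have h3 : k ^ d * (k ^ e * a ^ (y + d + e)) ≤ k ^ d * c ^ (y + d) := by omega
    exact Nat.le_of_mul_le_mul_left h3 (pow_pos h.k_pos d)
  obtain ⟨w, hw⟩ := Nat.exists_eq_add_of_le hlt
  have hby : b ^ y = k ^ d * w := by
    rw [hw, mul_add] at h2
    omega
  have hpw : ¬ p ∣ w := by
    intro hcon
    have h3 : p ∣ c ^ (y + d) := by
      rw [hw]
      apply dvd_add _ hcon
      exact Dvd.dvd.mul_right (dvd_pow hpdk he.ne') _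
    have h4 : p ∣ c := hp.dvd_of_dvd_pow h3
    have h5 : p ∣ Nat.gcd b c := Nat.dvd_gcd hpb h4
    rw [hcbc] at h5
    exact hp.one_lt.ne' (Nat.dvd_one.mp h5)
  have h6 : p ^ y ∣ k ^ d := by
    have h7 : p ^ y ∣ k ^ d * w := by
      rw [← hby]
      exact pow_dvd_pow_of_dvd hpb y
    have h8 : (p ^ y).Coprime w := Nat.Coprime.pow_left y ((Nat.Prime.coprime_iff_not_dvd hp).mpr hpw)
    exact h8.dvd_of_dvd_mul_right h7
  have hkd : k ^ d ≠ 0 := (pow_pos h.k_pos d).ne'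
  have h9 : y ≤ d * k.factorization p := by
    have h10 := (hp.pow_dvd_iff_le_factorization hkd).mp h6
    rw [Nat.factorization_pow] at h10
    simpa using h10
  have h11 : k.factorization p ≤ Nat.log 2 k := by
    apply Nat.le_log_of_pow_le (by norm_num)
    calc 2 ^ k.factorization p ≤ p ^ k.factorization p := Nat.pow_le_pow_left hp.two_le _
      _ ≤ k := Nat.le_of_dvd h.k_pos (Nat.ordProj_dvd k p)
  have h12 : y + d - y = d := by omega
  rw [h12]
  exact h9.trans (Nat.mul_le_mul le_rfl h11)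

/-- the linear form in logarithms is small -/
theorem Sol.linear_form_le {k a b c x y z : ℕ} (h : Sol k a b c x y z) (hyz : y < z) :
    |(x : ℝ) * Real.log ((k * a : ℕ) : ℝ) - z * Real.log ((k * c : ℕ) : ℝ)| ≤
      2 * (1 / 2 : ℝ) ^ (2 * (z - y)) := by
  obtain ⟨hac, hbc, -, ha3, hb3, hc5, -, -, -, -⟩ := h.basic
  have hk := h.k_pos
  obtain ⟨d, hd, rfl⟩ : ∃ d, 0 < d ∧ z = y + d := ⟨z - y, by omega, by omega⟩
  have h12 : y + d - y = d := by omega
  rw [h12]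
  set A : ℝ := ((k * a : ℕ) : ℝ) with hA
  set C : ℝ := ((k * c : ℕ) : ℝ) with hC
  set B : ℝ := ((k * b : ℕ) : ℝ) with hB
  have hA0 : 0 < A := by
    rw [hA]
    exact_mod_cast Nat.mul_pos hk (by omega)
  have hB0 : 0 < B := by
    rw [hB]
    exact_mod_cast Nat.mul_pos hk (by omega)
  have hC5 : 5 ≤ C := by
    rw [hC]
    have : 5 ≤ k * c := by nlinarith
    exact_mod_cast this
  have hC0 : 0 < C := by linarith
  have hBC : B ≤ C := by
    rw [hB, hC]
    exact_mod_cast Nat.mul_le_mul le_rfl hbc.le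
  have heq : A ^ x + B ^ y = C ^ (y + d) := by
    rw [hA, hB, hC]
    exact_mod_cast h.eq
  have hAx : 0 < A ^ x := pow_pos hA0 x
  have hCz : 0 < C ^ (y + d) := pow_pos hC0 _
  -- `t`
  set t : ℝ := B ^ y / C ^ (y + d) with ht
  have ht0 : 0 < t := div_pos (pow_pos hB0 y) hCz
  have ht1 : t ≤ (1 / 5 : ℝ) ^ d := by
    rw [ht, div_le_iff₀ hCz, pow_add]
    have h1 : B ^ y ≤ C ^ y := pow_le_pow_left₀ hB0.le hBC y
    have h2 : (1 : ℝ) ≤ (1 / 5 : ℝ) ^ d * C ^ d := by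
      rw [← mul_pow]
      apply one_le_pow₀
      linarith
    calc B ^ y ≤ C ^ y := h1
      _ = 1 * C ^ y := (one_mul _).symm
      _ ≤ ((1 / 5 : ℝ) ^ d * C ^ d) * C ^ y :=
          mul_le_mul_of_nonneg_right h2 (pow_pos hC0 y).le
      _ = (1 / 5 : ℝ) ^ d * (C ^ y * C ^ d) := by ring
  have h5d : (1 / 5 : ℝ) ^ d ≤ 1 / 5 := by
    calc (1 / 5 : ℝ) ^ d ≤ (1 / 5 : ℝ) ^ 1 := pow_le_pow_of_le_one (by norm_num) (by norm_num) hd
      _ = 1 / 5 := pow_one _
  have ht5 : t ≤ 1 / 5 := ht1.trans h5d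
  have h1t : 0 < 1 - t := by linarith
  have hlog : (x : ℝ) * Real.log A - ((y + d : ℕ) : ℝ) * Real.log C = Real.log (1 - t) := by
    rw [← Real.log_pow, ← Real.log_pow, ← Real.log_div hAx.ne' hCz.ne']
    congr 1
    rw [ht, eq_sub_iff_add_eq, ← add_div, heq, div_self hCz.ne']
  rw [hlog]
  have hneg : Real.log (1 - t) ≤ 0 := Real.log_nonpos h1t.le (by linarith)
  rw [abs_of_nonpos hneg]
  have h3 : - Real.log (1 - t) ≤ t / (1 - t) := by
    rw [← Real.log_inv]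
    have h4 := Real.log_le_sub_one_of_pos (inv_pos.mpr h1t)
    refine h4.trans (le_of_eq ?_)
    field_simp
    ring
  have h4 : t / (1 - t) ≤ 5 / 4 * t := by
    rw [div_le_iff₀ h1t]
    nlinarith
  have h5 : (1 / 5 : ℝ) ^ d ≤ (1 / 4 : ℝ) ^ d := pow_le_pow_left₀ (by norm_num) (by norm_num) d
  have h6 : (1 / 2 : ℝ) ^ (2 * d) = (1 / 4 : ℝ) ^ d := by
    rw [pow_mul]
    norm_num
  rw [h6]
  have h7 : 0 < (1 / 4 : ℝ) ^ d := by positivity
  linarith

/-- size -/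
theorem Sol.x_le {k a b c x y z lam : ℕ} (h : Sol k a b c x y z) (hlam : k * c ≤ 2 ^ lam) :
    x ≤ lam * z := by
  obtain ⟨hac, hbc, -, ha3, hb3, hc5, -, -, -, -⟩ := h.basic
  have hk := h.k_pos
  have h1 : 2 ≤ k * a := by nlinarith
  have h2 : 2 ^ x ≤ 2 ^ (lam * z) := by
    calc 2 ^ x ≤ (k * a) ^ x := Nat.pow_le_pow_left h1 x
      _ ≤ (k * a) ^ x + (k * b) ^ y := Nat.le_add_right _ _
      _ = (k * c) ^ z := h.eq
      _ ≤ (2 ^ lam) ^ z := Nat.pow_le_pow_left hlam z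
      _ = 2 ^ (lam * z) := (pow_mul _ _ _).symm
  exact (Nat.pow_le_pow_iff_right (by norm_num)).mp h2

private theorem J3_indep {k a c i j : ℕ} (hk : 0 < k) (ha : 2 ≤ a) (hac : a.Coprime c)
    (hij : j ≤ i) (hj : 0 < j) (he : (k * a) ^ i = (k * c) ^ j) : i = j ∧ a = c := by
  obtain ⟨d, rfl⟩ := Nat.exists_eq_add_of_le hij
  have h1 : k ^ d * a ^ (j + d) = c ^ j := by
    apply Nat.eq_of_mul_eq_mul_left (pow_pos hk j)
    rw [mul_pow, mul_pow, pow_add k j d] at he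
    rw [← he]
    ring
  have hp : (a.minFac).Prime := Nat.minFac_prime (by omega)
  have h2 : a.minFac ∣ c ^ j := by
    rw [← h1]
    exact Dvd.dvd.mul_left (dvd_pow (Nat.minFac_dvd a) (by omega)) _
  have h3 : a.minFac ∣ Nat.gcd a c := Nat.dvd_gcd (Nat.minFac_dvd a) (hp.dvd_of_dvd_pow h2)
  rw [hac] at h3
  exact absurd (Nat.dvd_one.mp h3) hp.one_lt.ne'

theorem Sol.indep {k a b c x y z : ℕ} (h : Sol k a b c x y z) :
    ∀ i j : ℕ, 0 < i → 0 < j → (k * a) ^ i ≠ (k * c) ^ j := by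
  obtain ⟨hac, hbc, -, ha3, hb3, hc5, hcac, -, -, -⟩ := h.basic
  intro i j hi hj he
  rcases le_total j i with hij | hij
  · have := (J3_indep h.k_pos (by omega) hcac hij hj he).2
    omega
  · have := (J3_indep h.k_pos (by omega) hcac.symm hij hi he.symm).2
    omega

end Pool.Agent.LibJes52
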