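import Pool.Agent.LibJes52.J3
import Pool.Agent.LibTL52.P9
import Pool.Agent.LibTL52.Q6

/-!
Bounds for the exponents in terms of their own logarithms.
-/

set_option autoImplicit false

namespace Pool.Agent.LibJes52

/-- 2-adic estimate: if `b` is even and `k` is odd -/
theorem Sol.y_le_two {k a b c x y z lam e : ℕ} (h : Sol k a b c x y z) (hb : Even b)
    (hk : Odd k) (hlam : k * c ≤ 2 ^ lam) (hx : x ≤ 2 ^ e) (hz : z ≤ 2 ^ e) :
    y ≤ 2 ^ 60 * (e + lam) ^ 8 := by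
  obtain ⟨hac, hbc, habc, ha3, hb3, hc5, hcac, hcbc, hpar, hco⟩ := h.basic
  have hkpos := h.k_pos
  have hao : Odd a := by
    rcases hpar with hpar | hpar
    · exact hpar.1
    · exact absurd hpar.2 (Nat.not_odd_iff_even.mpr hb)
  have hkac : k * a ≤ k * c := Nat.mul_le_mul_left k hac.le
  have h1 : a ≤ k * a := Nat.le_mul_of_pos_left a hkpos
  have h2 : c ≤ k * c := Nat.le_mul_of_pos_left c hkpos
  refine LibTL52.two_adic (α := k * a) (β := k * c) (x := x) (z := z) (lam := lam) (b := e)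
    (V := y) (by omega) (by omega) h.indep (hk.mul hao) (hk.mul hco) (hkac.trans hlam) hlam
    h.x_pos h.z_pos hx hz ?_
  have heq : (((k * a : ℕ) : ℤ)) ^ x - ((k * c : ℕ) : ℤ) ^ z = - ((k * b : ℕ) : ℤ) ^ y := by
    have := congrArg (Nat.cast : ℕ → ℤ) h.eq
    push_cast at this ⊢
    linarith
  rw [heq]
  refine (Dvd.dvd.neg_right ?_)
  refine pow_dvd_pow_of_dvd ?_ y
  have : (2 : ℕ) ∣ k * b := Dvd.dvd.mul_left hb.two_dvd k
  exact_mod_cast this

/-- archimedean estimate -/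
theorem Sol.z_sub_y_le {k a b c x y z lam e : ℕ} (h : Sol k a b c x y z) (hyz : y < z)
    (hlam : k * c ≤ 2 ^ lam) (hx : x ≤ 2 ^ e) (hz : z ≤ 2 ^ e) :
    z - y ≤ 2 ^ 240 * (e + lam) ^ 36 := by
  obtain ⟨hac, hbc, habc, ha3, hb3, hc5, hcac, hcbc, hpar, hco⟩ := h.basic
  have hkpos := h.k_pos
  have hkac : k * a ≤ k * c := Nat.mul_le_mul_left k hac.le
  have h1 : a ≤ k * a := Nat.le_mul_of_pos_left a hkpos
  have h2 : c ≤ k * c := Nat.le_mul_of_pos_left c hkpos
  have h3 := LibTL52.arch (α := k * a) (β := k * c) (x := x) (z := z) (lam := lam) (b := e)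
    (by omega) (by omega) h.indep (hkac.trans hlam) hlam h.x_pos h.z_pos hx hz
  have h4 := h3.trans (h.linear_form_le hyz)
  have hlam1 : 1 ≤ lam := by
    rcases Nat.eq_zero_or_pos lam with h0 | h0
    · subst h0
      simp at hlam
      omega
    · exact h0
  have hV : 1 ≤ 2 ^ 240 * (e + lam) ^ 36 :=
    Nat.mul_pos (by positivity) (Nat.pow_pos (by omega))
  generalize 2 ^ 240 * (e + lam) ^ 36 = V at *
  by_contra hcon
  push Not at hcon
  have h5 : V + 2 ≤ 2 * (z - y) := by omega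
  have h6 : (1 / 2 : ℝ) ^ (2 * (z - y)) ≤ (1 / 2 : ℝ) ^ (V + 2) :=
    pow_le_pow_of_le_one (by norm_num) (by norm_num) h5
  have h7 : (1 / 2 : ℝ) ^ (V + 2) = (1 / 2 : ℝ) ^ V * (1 / 4) := by
    rw [pow_add]; norm_num
  have h8 : (0 : ℝ) < (1 / 2 : ℝ) ^ V := by positivity
  rw [h7] at h6
  linarith

end Pool.Agent.LibJes52
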