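import Pool.Agent.LibJes52.J4

/-!
Bounds for the exponents.
-/

set_option autoImplicit false

namespace Pool.Agent.LibJes52

private theorem j5_final {s A n t : ℕ} (hs : 1 ≤ s) (hA : A ≤ 2 ^ 250) (hn : n ≤ 40)
    (ht : t ≤ A * s ^ n) : t ≤ 2 ^ 250 * s ^ 40 :=
  ht.trans (Nat.mul_le_mul hA (Nat.pow_le_pow_right hs hn))

private theorem j5_lam {k a b c x y z lam : ℕ} (h : Sol k a b c x y z)
    (hlam : k * c ≤ 2 ^ lam) : 1 ≤ lam := by
  rcases Nat.eq_zero_or_pos lam with h0 | h0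
  · subst h0
    have h1 := h.basic.2.2.2.2.2.1
    have h2 : 1 * c ≤ k * c := Nat.mul_le_mul_right c h.k_pos
    rw [pow_zero] at hlam
    omega
  · exact h0

private theorem j5_aux {x y z lam s P : ℕ} (hs : 1 ≤ s) (hls : lam ≤ s)
    (hP : P = 2 ^ 60 * s ^ 8) (hzy : z < y) (hy : y ≤ P) (hx : x ≤ lam * z) :
    x ≤ 2 ^ 250 * s ^ 40 ∧ y ≤ 2 ^ 250 * s ^ 40 ∧ z ≤ 2 ^ 250 * s ^ 40 := by
  have hy1 : y ≤ 2 ^ 250 * s ^ 40 :=
    j5_final (A := 2 ^ 60) (n := 8) hs (by norm_num) (by norm_num) (hP ▸ hy)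
  refine ⟨?_, hy1, hzy.le.trans hy1⟩
  refine j5_final (A := 2 ^ 60) (n := 9) hs (by norm_num) (by norm_num) ?_
  calc x ≤ lam * z := hx
    _ ≤ s * (2 ^ 60 * s ^ 8) := Nat.mul_le_mul hls (hzy.le.trans (hP ▸ hy))
    _ = 2 ^ 60 * s ^ 9 := by ring

/-- type `z < x, y` -/
theorem Sol.bound_a {k a b c x y z lam e : ℕ} (h : Sol k a b c x y z) (hzx : z < x)
    (hzy : z < y) (hp : ∀ p : ℕ, p.Prime → p ∣ k → p ∣ c)
    (hlam : k * c ≤ 2 ^ lam) (hx : x ≤ 2 ^ e) (hy : y ≤ 2 ^ e) (hz : z ≤ 2 ^ e) :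
    max x (max y z) ≤ 2 ^ 250 * (e + lam) ^ 40 := by
  have hl := j5_lam h hlam
  obtain ⟨-, -, -, -, -, -, -, -, hpar, hc⟩ := h.basic
  have hk : Odd k := by
    rcases Nat.even_or_odd k with h1 | h1
    · exact absurd (even_iff_two_dvd.2 (hp 2 Nat.prime_two (even_iff_two_dvd.1 h1)))
        (Nat.not_even_iff_odd.2 hc)
    · exact h1
  rcases hpar with ⟨-, hb⟩ | ⟨ha, -⟩
  · obtain ⟨h1, h2, h3⟩ := j5_aux (s := e + lam) (by omega) (Nat.le_add_left _ _) rfl hzy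
      (h.y_le_two hb hk hlam hx hz) (h.x_le hlam)
    exact max_le h1 (max_le h2 h3)
  · obtain ⟨h1, h2, h3⟩ := j5_aux (s := e + lam) (by omega) (Nat.le_add_left _ _) rfl hzx
      (h.symm.y_le_two ha hk hlam hy hz) (h.symm.x_le hlam)
    exact max_le h2 (max_le h1 h3)

/-- type `y < z < x` -/
theorem Sol.bound_b {k a b c x y z lam e : ℕ} (h : Sol k a b c x y z) (hyz : y < z)
    (hzx : z < x) (hlam : k * c ≤ 2 ^ lam) (hx : x ≤ 2 ^ e) (hy : y ≤ 2 ^ e) (hz : z ≤ 2 ^ e) :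
    max x (max y z) ≤ 2 ^ 250 * (e + lam) ^ 40 := by
  have hl := j5_lam h hlam
  obtain ⟨-, -, -, -, -, hc5, -, -, hpar, hc⟩ := h.basic
  have hV := h.z_sub_y_le hyz hlam hx hz
  have hxz := h.x_le hlam
  have hs : 1 ≤ e + lam := by omega
  have hls : lam ≤ e + lam := Nat.le_add_left _ _
  have hPb : Even b → Odd k → y ≤ 2 ^ 60 * (e + lam) ^ 8 :=
    fun hb hk => h.y_le_two hb hk hlam hx hz
  have hPa : Even a → Odd k → x ≤ 2 ^ 60 * (e + lam) ^ 8 :=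
    fun ha hk => h.symm.y_le_two ha hk hlam hy hz
  generalize e + lam = s at *
  suffices hmain : x ≤ 2 ^ 250 * s ^ 40 from
    max_le hmain (max_le ((hyz.trans hzx).le.trans hmain) (hzx.le.trans hmain))
  rcases Nat.lt_or_ge k 2 with hk | hk
  · have hk1 : k = 1 := by
      have := h.k_pos
      omega
    have hko : Odd k := by rw [hk1]; exact odd_one
    rcases hpar with ⟨-, hb⟩ | ⟨ha, -⟩
    · have h1 := hPb hb hko
      have h2 : 2 ^ 60 * s ^ 8 ≤ 2 ^ 240 * s ^ 36 :=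
        Nat.mul_le_mul (by norm_num) (Nat.pow_le_pow_right hs (by norm_num))
      have h5 : z ≤ 2 ^ 241 * s ^ 36 := by
        calc z = y + (z - y) := by omega
          _ ≤ 2 ^ 240 * s ^ 36 + 2 ^ 240 * s ^ 36 := Nat.add_le_add (h1.trans h2) hV
          _ = 2 ^ 241 * s ^ 36 := by ring
      refine j5_final (A := 2 ^ 241) (n := 37) hs (by norm_num) (by norm_num) ?_
      calc x ≤ lam * z := hxz
        _ ≤ s * (2 ^ 241 * s ^ 36) := Nat.mul_le_mul hls h5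
        _ = 2 ^ 241 * s ^ 37 := by ring
    · exact j5_final (A := 2 ^ 60) (n := 8) hs (by norm_num) (by norm_num) (hPa ha hko)
  · have h1 := h.y_le hk hyz hzx
    have h2 : Nat.log 2 k ≤ s := by
      refine le_trans ?_ hls
      have h3 : k ≤ 2 ^ lam := le_trans (Nat.le_mul_of_pos_right k (by omega)) hlam
      calc Nat.log 2 k ≤ Nat.log 2 (2 ^ lam) := Nat.log_mono_right h3
        _ = lam := Nat.log_pow (by norm_num) lam
    have h4 : y ≤ (2 ^ 240 * s ^ 36) * s := h1.trans (Nat.mul_le_mul hV h2)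
    have h5 : z ≤ 2 ^ 241 * s ^ 37 := by
      calc z = y + (z - y) := by omega
        _ ≤ (2 ^ 240 * s ^ 36) * s + 2 ^ 240 * s ^ 36 := Nat.add_le_add h4 hV
        _ ≤ (2 ^ 240 * s ^ 36) * s + 2 ^ 240 * s ^ 36 * s :=
          Nat.add_le_add_left (Nat.le_mul_of_pos_right _ (by omega)) _
        _ = 2 ^ 241 * s ^ 37 := by ring
    refine j5_final (A := 2 ^ 241) (n := 38) hs (by norm_num) (by norm_num) ?_
    calc x ≤ lam * z := hxz
      _ ≤ s * (2 ^ 241 * s ^ 37) := Nat.mul_le_mul hls h5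
      _ = 2 ^ 241 * s ^ 38 := by ring

private theorem j5_step (A B n N : ℕ) (h1 : A * (n + 1) ≤ B * n) (h3 : B ^ N ≤ 2 * A ^ N)
    (hA : 0 < A) : (n + 1) ^ N ≤ 2 * n ^ N := by
  have h2 : (A * (n + 1)) ^ N ≤ (B * n) ^ N := Nat.pow_le_pow_left h1 N
  rw [Nat.mul_pow, Nat.mul_pow] at h2
  have h4 : A ^ N * (n + 1) ^ N ≤ A ^ N * (2 * n ^ N) := by
    calc A ^ N * (n + 1) ^ N ≤ B ^ N * n ^ N := h2
      _ ≤ (2 * A ^ N) * n ^ N := Nat.mul_le_mul_right _ h3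
      _ = A ^ N * (2 * n ^ N) := by ring
  exact Nat.le_of_mul_le_mul_left h4 (Nat.pow_pos hA)

private theorem j5_pow (m : ℕ) : (700 + m) ^ 40 < 2 ^ (400 + m) := by
  induction m with
  | zero =>
    calc (700 + 0) ^ 40 < (2 ^ 10) ^ 40 := Nat.pow_lt_pow_left (by norm_num) (by norm_num)
      _ = 2 ^ (400 + 0) := by rw [← pow_mul]
  | succ m ih =>
    have h5 := j5_step 700 701 (700 + m) 40 (by omega) (by norm_num) (by norm_num)
    calc (700 + (m + 1)) ^ 40 = (700 + m + 1) ^ 40 := by rw [Nat.add_assoc]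
      _ ≤ 2 * (700 + m) ^ 40 := h5
      _ < 2 * 2 ^ (400 + m) := Nat.mul_lt_mul_of_pos_left ih (by norm_num)
      _ = 2 ^ (400 + (m + 1)) := by rw [← Nat.add_assoc, pow_succ, Nat.mul_comm]

private theorem j5_dbl (t u : ℕ) (h : u ≤ 2 * t) : 2 ^ 250 * u ^ 40 ≤ 2 ^ 290 * t ^ 40 := by
  calc 2 ^ 250 * u ^ 40 ≤ 2 ^ 250 * (2 * t) ^ 40 :=
        Nat.mul_le_mul_left _ (Nat.pow_le_pow_left h 40)
    _ = 2 ^ (250 + 40) * t ^ 40 := by rw [Nat.mul_pow, ← Nat.mul_assoc, pow_add]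
    _ = 2 ^ 290 * t ^ 40 := rfl

theorem self_improve {T lam : ℕ} (hlam : 1 ≤ lam)
    (h : T ≤ 2 ^ 250 * (Nat.clog 2 T + lam) ^ 40) : T ≤ 2 ^ 700 * lam ^ 40 := by
  rcases le_or_gt (Nat.clog 2 T) lam with h1 | h1
  · calc T ≤ 2 ^ 250 * (Nat.clog 2 T + lam) ^ 40 := h
      _ ≤ 2 ^ 290 * lam ^ 40 := j5_dbl _ _ (by omega)
      _ ≤ 2 ^ 700 * lam ^ 40 := Nat.mul_le_mul_right _ (Nat.pow_le_pow_right (by norm_num)
        (by norm_num))
  · have h2 : T ≤ 2 ^ 290 * (Nat.clog 2 T) ^ 40 := h.trans (j5_dbl _ _ (by omega))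
    have h3 : 1 < T := by
      by_contra h4
      have h5 : Nat.clog 2 T = 0 := Nat.clog_of_right_le_one (by omega) 2
      omega
    have h4 : 2 ^ (Nat.clog 2 T - 1) < T := Nat.pow_pred_clog_lt_self (by norm_num) h3
    have h5 : T ≤ 2 ^ Nat.clog 2 T := Nat.le_pow_clog (by norm_num) T
    have h6 : Nat.clog 2 T ≤ 700 := by
      by_contra h7
      obtain ⟨m, hm⟩ := Nat.exists_eq_add_of_le (not_le.1 h7).le
      rw [hm] at h4 h2
      have h8 := j5_pow m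
      have h9 : 2 ^ (700 + m - 1) < 2 ^ 290 * 2 ^ (400 + m) :=
        h4.trans_le (h2.trans (Nat.mul_le_mul_left _ h8.le))
      rw [← pow_add] at h9
      have h10 := (Nat.pow_lt_pow_iff_right (by norm_num : 1 < 2)).1 h9
      omega
    calc T ≤ 2 ^ Nat.clog 2 T := h5
      _ ≤ 2 ^ 700 := Nat.pow_le_pow_right (by norm_num) h6
      _ = 2 ^ 700 * 1 := (Nat.mul_one _).symm
      _ ≤ 2 ^ 700 * lam ^ 40 := Nat.mul_le_mul_left _ (Nat.one_le_pow _ _ hlam)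

end Pool.Agent.LibJes52
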