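import Pool.Agent.LibJes52.J5

/-!
All solutions have exponents bounded by a power of `log (k c)`.
-/

set_option autoImplicit false

namespace Pool.Agent.LibJes52

theorem Sol.exponents_le {k a b c x y z lam : ℕ} (h : Sol k a b c x y z)
    (hlam : k * c ≤ 2 ^ lam) : max x (max y z) ≤ 2 ^ 700 * lam ^ 40 := by
  have hb := h.basic
  have hc5 : 5 ≤ c := hb.2.2.2.2.2.1
  have hk := h.k_pos
  have hlam1 : 1 ≤ lam := by
    rcases Nat.eq_zero_or_pos lam with h0 | h0
    · subst h0
      have : 5 ≤ k * c := le_trans hc5 (Nat.le_mul_of_pos_left c hk)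
      simp at hlam
      omega
    · exact h0
  apply self_improve hlam1
  set T := max x (max y z) with hT
  have hT2 : T ≤ 2 ^ Nat.clog 2 T := Nat.le_pow_clog (by norm_num) T
  have hx : x ≤ 2 ^ Nat.clog 2 T := le_trans (le_max_left _ _) hT2
  have hy : y ≤ 2 ^ Nat.clog 2 T :=
    le_trans (le_trans (le_max_left _ _) (le_max_right x _)) hT2
  have hz : z ≤ 2 ^ Nat.clog 2 T :=
    le_trans (le_trans (le_max_right _ _) (le_max_right x _)) hT2
  rcases h.cases with ⟨h1, h2, h3⟩ | ⟨h1, h2, -⟩ | ⟨h1, h2, -⟩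
  · exact h.bound_a h1 h2 h3 hlam hx hy hz
  · exact h.bound_b h1 h2 hlam hx hy hz
  · have := h.symm.bound_b h1 h2 hlam hy hx hz
    have he : max y (max x z) = T := by
      rw [hT, max_left_comm]
    rw [he] at this
    exact this

end Pool.Agent.LibJes52
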