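import Pool.Agent.LibJes52.E4
import Pool.Agent.LibJes52.E5

/-!
Jesmanowicz's conjecture with a power saving.
-/

set_option autoImplicit false
open scoped Classical
open Finset

namespace Pool.Agent.LibJes52

theorem main :
    (∃ C : ℝ, ∀ a b c : ℕ, 0 < a → 0 < b → a ^ 2 + b ^ 2 = c ^ 2 →
      ∀ x y z : ℕ, 0 < x → 0 < y → 0 < z → a ^ x + b ^ y = c ^ z →
        (max x (max y z) : ℝ) ≤ C * Real.log c ^ 40) ∧
    (∃ C : ℝ, ∀ a b c : ℕ, 0 < a → 0 < b → a ^ 2 + b ^ 2 = c ^ 2 → a.Coprime b →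
      Other (a, b, c) → ∃ D E : ℕ, 0 < D ∧ 0 < E ∧
        (D : ℝ) ≤ C * Real.log c ^ 40 ∧ (E : ℝ) ≤ C * Real.log c ^ 40 ∧
        a ∣ c ^ (2 * D) - 1 ∧ b ∣ c ^ (2 * E) - 1) ∧
    ∀ ε : ℝ, 0 < ε → ∃ C : ℝ, ∀ N : ℕ,
      (((Trip N).filter (fun t => Prim t ∧ Other t)).card : ℝ) ≤ C * (N : ℝ) ^ (1 / 2 + ε) ∧
      (((Trip N).filter Other).card : ℝ) ≤ C * (N : ℝ) ^ (2 / 3 + ε) := by
  refine ⟨exponents_bound, order_bound, fun ε hε => ?_⟩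
  obtain ⟨C₁, h₁⟩ := count_prim ε hε
  obtain ⟨C₂, h₂⟩ := count_all ε hε
  refine ⟨max C₁ C₂, fun N => ⟨(h₁ N).trans ?_, (h₂ N).trans ?_⟩⟩
  · exact mul_le_mul_of_nonneg_right (le_max_left _ _) (by positivity)
  · exact mul_le_mul_of_nonneg_right (le_max_right _ _) (by positivity)

end Pool.Agent.LibJes52
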