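import Pool.Agent.LibJes52.Defs

/-!
Integers composed of the primes of a finite set, in terms of the sum over the set.
-/

set_option autoImplicit false
open scoped Classical
open Finset

namespace Pool.Agent.LibJes52

private theorem r5_sum_image_le {α : Type} (s : Finset α) (e : α → ℕ) (f : ℕ → ℝ)
    (hf : ∀ q, 0 ≤ f q) : ∑ q ∈ s.image e, f q ≤ ∑ t ∈ s, f (e t) := by
  rw [← sum_fiberwise_of_maps_to (s := s) (t := s.image e) (g := e)
    (fun t ht => mem_image_of_mem e ht)]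
  apply sum_le_sum
  intro q hq
  obtain ⟨t, ht, rfl⟩ := mem_image.mp hq
  exact single_le_sum (f := fun t => f (e t)) (fun t _ => hf (e t)) (mem_filter.mpr ⟨ht, rfl⟩)

private theorem r5_sum_le (ε : ℝ) (hε : 0 < ε) (X : ℕ) (S : Finset ℕ) : (∀ p ∈ S, p.Prime) →
    ∑ q ∈ (Icc 1 X).filter (fun q => q.primeFactors ⊆ S), (q : ℝ) ^ (-ε) ≤
      ∏ p ∈ S, (1 - (p : ℝ) ^ (-ε))⁻¹ := by
  induction S using Finset.induction_on with
  | empty =>
    intro _
    rw [prod_empty]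
    have hsub : (Icc 1 X).filter (fun q => q.primeFactors ⊆ (∅ : Finset ℕ)) ⊆ {1} := by
      intro q hq
      rw [mem_filter, mem_Icc, subset_empty, Nat.primeFactors_eq_empty] at hq
      rw [mem_singleton]
      omega
    calc _ ≤ ∑ q ∈ ({1} : Finset ℕ), (q : ℝ) ^ (-ε) :=
          sum_le_sum_of_subset_of_nonneg hsub (fun q _ _ =>
            Real.rpow_nonneg (Nat.cast_nonneg q) _)
      _ = 1 := by simp
  | insert p S hpS ih =>
    intro hS
    have hp : p.Prime := hS p (mem_insert_self p S)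
    have ih' := ih (fun r hr => hS r (mem_insert_of_mem hr))
    rw [prod_insert hpS]
    set r : ℝ := (p : ℝ) ^ (-ε) with hr
    have hp1 : (1 : ℝ) < (p : ℝ) := by exact_mod_cast hp.one_lt
    have hr0 : 0 < r := Real.rpow_pos_of_pos (by linarith) _
    have hr1 : r < 1 := Real.rpow_lt_one_of_one_lt_of_neg hp1 (by linarith)
    set f : ℕ → ℝ := fun q => (q : ℝ) ^ (-ε) with hf
    have hf0 : ∀ q, 0 ≤ f q := fun q => Real.rpow_nonneg (Nat.cast_nonneg q) _
    set T := (Icc 1 X).filter (fun q => q.primeFactors ⊆ S) with hT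
    have hmul : ∀ i : ℕ, ∀ q ∈ T, f (p ^ i * q) = r ^ i * f q := by
      intro i q _
      show ((p ^ i * q : ℕ) : ℝ) ^ (-ε) = r ^ i * (q : ℝ) ^ (-ε)
      rw [Nat.cast_mul, Nat.cast_pow, Real.mul_rpow (by positivity) (Nat.cast_nonneg q), hr]
      congr 1
      rw [← Real.rpow_natCast, ← Real.rpow_natCast, ← Real.rpow_mul (by positivity),
        ← Real.rpow_mul (by positivity), mul_comm]
    have hsub : (Icc 1 X).filter (fun q => q.primeFactors ⊆ insert p S) ⊆
        ((range (X + 1)) ×ˢ T).image (fun t => p ^ t.1 * t.2) := by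
      intro q hq
      rw [mem_filter, mem_Icc] at hq
      have hq0 : q ≠ 0 := by omega
      rw [mem_image]
      refine ⟨(q.factorization p, q / p ^ q.factorization p), ?_,
        Nat.ordProj_mul_ordCompl_eq_self q p⟩
      rw [mem_product, mem_range, hT, mem_filter, mem_Icc]
      refine ⟨?_, ⟨?_, ?_⟩, ?_⟩
      · have := Nat.factorization_lt p hq0
        show q.factorization p < X + 1
        omega
      · exact Nat.ordCompl_pos p hq0
      · exact le_trans (Nat.ordCompl_le q p) hq.1.2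
      · intro s hs
        rw [Nat.mem_primeFactors] at hs
        have h7 : s ∈ q.primeFactors := Nat.mem_primeFactors.mpr
          ⟨hs.1, dvd_trans hs.2.1 (Nat.ordCompl_dvd q p), hq0⟩
        rcases mem_insert.mp (hq.2 h7) with h8 | h8
        · exfalso
          subst h8
          exact Nat.not_dvd_ordCompl hp hq0 hs.2.1
        · exact h8
    calc ∑ q ∈ (Icc 1 X).filter (fun q => q.primeFactors ⊆ insert p S), f q
        ≤ ∑ q ∈ ((range (X + 1)) ×ˢ T).image (fun t => p ^ t.1 * t.2), f q :=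
          sum_le_sum_of_subset_of_nonneg hsub (fun q _ _ => hf0 q)
      _ ≤ ∑ t ∈ (range (X + 1)) ×ˢ T, f (p ^ t.1 * t.2) := r5_sum_image_le _ _ f hf0
      _ = (∑ i ∈ range (X + 1), r ^ i) * ∑ q ∈ T, f q := by
          rw [sum_product, sum_mul_sum]
          apply sum_congr rfl
          intro i _
          apply sum_congr rfl
          intro q hq
          exact hmul i q hq
      _ ≤ (1 - r)⁻¹ * ∏ p ∈ S, (1 - (p : ℝ) ^ (-ε))⁻¹ := by
          apply mul_le_mul _ ih' (sum_nonneg (fun q _ => hf0 q))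
          · exact inv_nonneg.mpr (by linarith)
          · rw [← tsum_geometric_of_lt_one hr0.le hr1]
            exact (summable_geometric_of_lt_one hr0.le hr1).sum_le_tsum _
                (fun i _ => pow_nonneg hr0.le i)

theorem card_composed_sum_le (σ : ℝ) (hσ : 0 < σ) : ∃ A : ℝ, 0 < A ∧
    ∀ (P : Finset ℕ) (X : ℕ), (∀ p ∈ P, p.Prime) →
      (((Icc 1 X).filter (fun u : ℕ => ∀ p : ℕ, p.Prime → p ∣ u → p ∈ P)).card : ℝ) ≤
        (X : ℝ) ^ σ * Real.exp (A * ∑ p ∈ P, (p : ℝ) ^ (-σ)) := by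
  have h2 : (2 : ℝ) ^ (-σ) < 1 := Real.rpow_lt_one_of_one_lt_of_neg (by norm_num) (by linarith)
  set A : ℝ := (1 - (2 : ℝ) ^ (-σ))⁻¹ with hA
  have hA0 : 0 < A := inv_pos.2 (by linarith)
  refine ⟨A, hA0, ?_⟩
  intro P X hprime
  have hfac : ∀ p ∈ P, (1 - (p : ℝ) ^ (-σ))⁻¹ ≤ Real.exp (A * (p : ℝ) ^ (-σ)) := by
    intro p hp
    have hpp := hprime p hp
    have hp2 : (2 : ℝ) ≤ (p : ℝ) := by exact_mod_cast hpp.two_le
    have hmon : (p : ℝ) ^ (-σ) ≤ (2 : ℝ) ^ (-σ) :=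
      Real.rpow_le_rpow_of_nonpos (by norm_num) hp2 (by linarith)
    have hr0 : 0 < (p : ℝ) ^ (-σ) := Real.rpow_pos_of_pos (by linarith) _
    have h4 : (1 - (p : ℝ) ^ (-σ))⁻¹ ≤ A := by
      rw [hA]
      exact inv_anti₀ (by linarith) (by linarith)
    have h5 : (1 - (p : ℝ) ^ (-σ))⁻¹ = 1 + (1 - (p : ℝ) ^ (-σ))⁻¹ * (p : ℝ) ^ (-σ) := by
      have : (1 - (p : ℝ) ^ (-σ)) ≠ 0 := by linarith
      field_simp
      ring
    calc (1 - (p : ℝ) ^ (-σ))⁻¹ = 1 + (1 - (p : ℝ) ^ (-σ))⁻¹ * (p : ℝ) ^ (-σ) := h5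
      _ ≤ 1 + A * (p : ℝ) ^ (-σ) := by
          have := mul_le_mul_of_nonneg_right h4 hr0.le
          linarith
      _ ≤ Real.exp (A * (p : ℝ) ^ (-σ)) := by
          have := Real.add_one_le_exp (A * (p : ℝ) ^ (-σ))
          linarith
  have hprod : ∏ p ∈ P, (1 - (p : ℝ) ^ (-σ))⁻¹ ≤ Real.exp (A * ∑ p ∈ P, (p : ℝ) ^ (-σ)) := by
    calc ∏ p ∈ P, (1 - (p : ℝ) ^ (-σ))⁻¹ ≤ ∏ p ∈ P, Real.exp (A * (p : ℝ) ^ (-σ)) := by
          apply prod_le_prod
          · intro p hp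
            have hp1 : (1 : ℝ) < (p : ℝ) := by exact_mod_cast (hprime p hp).one_lt
            have := Real.rpow_lt_one_of_one_lt_of_neg hp1 (by linarith : -σ < 0)
            exact inv_nonneg.mpr (by linarith)
          · exact hfac
      _ = Real.exp (A * ∑ p ∈ P, (p : ℝ) ^ (-σ)) := by rw [← Real.exp_sum, mul_sum]
  have hsub : (Icc 1 X).filter (fun u : ℕ => ∀ p : ℕ, p.Prime → p ∣ u → p ∈ P) ⊆
      (Icc 1 X).filter (fun q => q.primeFactors ⊆ P) := by
    intro k hk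
    rw [mem_filter] at hk ⊢
    refine ⟨hk.1, fun p hp => ?_⟩
    rw [Nat.mem_primeFactors] at hp
    exact hk.2 p hp.1 hp.2.1
  calc (((Icc 1 X).filter (fun u : ℕ => ∀ p : ℕ, p.Prime → p ∣ u → p ∈ P)).card : ℝ)
      ≤ (((Icc 1 X).filter (fun q => q.primeFactors ⊆ P)).card : ℝ) := by
        exact_mod_cast card_le_card hsub
    _ = ∑ q ∈ (Icc 1 X).filter (fun q => q.primeFactors ⊆ P), (1 : ℝ) := by
        rw [sum_const, nsmul_eq_mul, mul_one]
    _ ≤ ∑ q ∈ (Icc 1 X).filter (fun q => q.primeFactors ⊆ P),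
          (X : ℝ) ^ σ * (q : ℝ) ^ (-σ) := by
        apply sum_le_sum
        intro q hq
        rw [mem_filter, mem_Icc] at hq
        have hq1 : (1 : ℝ) ≤ (q : ℝ) := by exact_mod_cast hq.1.1
        have hqY : (q : ℝ) ≤ (X : ℝ) := by exact_mod_cast hq.1.2
        have h9 : (q : ℝ) ^ σ ≤ (X : ℝ) ^ σ := Real.rpow_le_rpow (by linarith) hqY hσ.le
        have h10 : 0 < (q : ℝ) ^ σ := Real.rpow_pos_of_pos (by linarith) _
        rw [Real.rpow_neg (by linarith), ← div_eq_mul_inv, le_div_iff₀ h10, one_mul]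
        exact h9
    _ = (X : ℝ) ^ σ * ∑ q ∈ (Icc 1 X).filter (fun q => q.primeFactors ⊆ P),
          (q : ℝ) ^ (-σ) := by rw [mul_sum]
    _ ≤ (X : ℝ) ^ σ * Real.exp (A * ∑ p ∈ P, (p : ℝ) ^ (-σ)) := by
        apply mul_le_mul_of_nonneg_left _ (Real.rpow_nonneg (Nat.cast_nonneg X) _)
        exact le_trans (r5_sum_le σ hσ X P hprime) hprod

end Pool.Agent.LibJes52
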