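import Pool.Agent.LibJes52.R1

/-!
The primes dividing `A ^ D - B ^ D`, sorted by the order of `A / B`.
-/

set_option autoImplicit false
open scoped Classical
open Finset

namespace Pool.Agent.LibJes52

private theorem r6_ne {A B d : ℕ} (hAB : A ≠ B) (hd : 0 < d) :
    (A : ℤ) ^ d - (B : ℤ) ^ d ≠ 0 := by
  intro h
  have h1 : (A : ℤ) ^ d = (B : ℤ) ^ d := by linarith
  have h2 : A ^ d = B ^ d := by exact_mod_cast h1
  exact hAB (Nat.pow_left_injective hd.ne' h2)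

private theorem r6_natAbs_le {A B l d : ℕ} (hA : A ≤ 2 ^ l) (hB : B ≤ 2 ^ l) :
    ((A : ℤ) ^ d - (B : ℤ) ^ d).natAbs ≤ 2 ^ (l * d) := by
  have h1 : A ^ d ≤ 2 ^ (l * d) := by
    calc A ^ d ≤ (2 ^ l) ^ d := Nat.pow_le_pow_left hA d
      _ = 2 ^ (l * d) := by rw [pow_mul]
  have h2 : B ^ d ≤ 2 ^ (l * d) := by
    calc B ^ d ≤ (2 ^ l) ^ d := Nat.pow_le_pow_left hB d
      _ = 2 ^ (l * d) := by rw [pow_mul]
  have h3 : ((A : ℤ) ^ d - (B : ℤ) ^ d) = ((A ^ d : ℕ) : ℤ) - ((B ^ d : ℕ) : ℤ) := by push_cast; ring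
  rw [h3]
  omega

/-- facts on the order -/
private theorem r6_order {A B D p : ℕ} (hcop : A.Coprime B) (hp : p.Prime)
    (hd : (p : ℤ) ∣ (A : ℤ) ^ D - (B : ℤ) ^ D) (hD : 0 < D) :
    0 < orderOf ((A : ZMod p) * (B : ZMod p)⁻¹) ∧
    orderOf ((A : ZMod p) * (B : ZMod p)⁻¹) ∣ D ∧
    orderOf ((A : ZMod p) * (B : ZMod p)⁻¹) ∣ p - 1 ∧
    (p : ℤ) ∣ (A : ℤ) ^ orderOf ((A : ZMod p) * (B : ZMod p)⁻¹) -
      (B : ℤ) ^ orderOf ((A : ZMod p) * (B : ZMod p)⁻¹) := by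
  haveI : Fact p.Prime := ⟨hp⟩
  have hz : (A : ZMod p) ^ D = (B : ZMod p) ^ D := by
    have h1 : (((A : ℤ) ^ D - (B : ℤ) ^ D : ℤ) : ZMod p) = 0 :=
      (ZMod.intCast_zmod_eq_zero_iff_dvd _ p).2 hd
    push_cast at h1
    exact sub_eq_zero.1 h1
  have hB : (B : ZMod p) ≠ 0 := by
    intro h0
    have h1 : (A : ZMod p) ^ D = 0 := by rw [hz, h0, zero_pow hD.ne']
    have h2 : (A : ZMod p) = 0 := pow_eq_zero_iff hD.ne' |>.1 h1
    have h3 : p ∣ A := (ZMod.natCast_eq_zero_iff A p).1 h2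
    have h4 : p ∣ B := (ZMod.natCast_eq_zero_iff B p).1 h0
    have h5 := Nat.dvd_gcd h3 h4
    rw [hcop] at h5
    exact hp.one_lt.ne' (Nat.dvd_one.1 h5)
  have hA : (A : ZMod p) ≠ 0 := by
    intro h0
    have h1 : (B : ZMod p) ^ D = 0 := by rw [← hz, h0, zero_pow hD.ne']
    exact hB (pow_eq_zero_iff hD.ne' |>.1 h1)
  set g : ZMod p := (A : ZMod p) * (B : ZMod p)⁻¹ with hg
  have hg0 : g ≠ 0 := mul_ne_zero hA (inv_ne_zero hB)
  have hgD : g ^ D = 1 := by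
    rw [hg, mul_pow, inv_pow, hz]
    exact mul_inv_cancel₀ (pow_ne_zero D hB)
  have hgp : g ^ (p - 1) = 1 := ZMod.pow_card_sub_one_eq_one hg0
  have h1 := orderOf_dvd_of_pow_eq_one hgD
  refine ⟨Nat.pos_of_dvd_of_pos h1 hD, h1, orderOf_dvd_of_pow_eq_one hgp, ?_⟩
  rw [← ZMod.intCast_zmod_eq_zero_iff_dvd]
  push_cast
  have h2 : g ^ orderOf g = 1 := pow_orderOf_eq_one g
  have h3 : (A : ZMod p) = g * (B : ZMod p) := by
    rw [hg, mul_assoc, inv_mul_cancel₀ hB, mul_one]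
  calc (A : ZMod p) ^ orderOf g - (B : ZMod p) ^ orderOf g
      = (g * (B : ZMod p)) ^ orderOf g - (B : ZMod p) ^ orderOf g := by rw [← h3]
    _ = 0 := by rw [mul_pow, h2, one_mul, sub_self]

theorem sum_order_le (σ : ℝ) (hσ : 1 / 2 ≤ σ) (hσ1 : σ < 1) : ∃ C : ℝ, 0 < C ∧
    ∀ A B l D : ℕ, A.Coprime B → A ≠ B → A ≤ 2 ^ l → B ≤ 2 ^ l → 1 ≤ l → 0 < D →
      ∑ p ∈ ((A : ℤ) ^ D - (B : ℤ) ^ D).natAbs.primeFactors, (p : ℝ) ^ (-σ) ≤
        C * (D.divisors.card : ℝ) * (l : ℝ) ^ (1 - σ) := by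
  obtain ⟨C, hC, hsum⟩ := sum_rpow_neg_le σ (by linarith) hσ1
  refine ⟨C, hC, ?_⟩
  intro A B l D hcop hAB hA hB hl hD
  have hl0 : (0 : ℝ) < l := by exact_mod_cast hl
  set S := ((A : ℤ) ^ D - (B : ℤ) ^ D).natAbs.primeFactors with hS
  set o : ℕ → ℕ := fun p => orderOf ((A : ZMod p) * (B : ZMod p)⁻¹) with ho
  have hmem : ∀ p ∈ S, p.Prime ∧ (p : ℤ) ∣ (A : ℤ) ^ D - (B : ℤ) ^ D := by
    intro p hp
    rw [hS, Nat.mem_primeFactors] at hp
    exact ⟨hp.1, Int.natCast_dvd.2 hp.2.1⟩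
  have hmaps : ∀ p ∈ S, o p ∈ D.divisors := by
    intro p hp
    obtain ⟨h1, h2⟩ := hmem p hp
    have h3 := r6_order hcop h1 h2 hD
    exact Nat.mem_divisors.2 ⟨h3.2.1, hD.ne'⟩
  rw [← sum_fiberwise_of_maps_to hmaps]
  have hfib : ∀ d ∈ D.divisors, ∑ p ∈ S.filter (fun p => o p = d), (p : ℝ) ^ (-σ) ≤
      C * (l : ℝ) ^ (1 - σ) := by
    intro d hdD
    have hd0 : 0 < d := Nat.pos_of_mem_divisors hdD
    have hdR : (0 : ℝ) < d := by exact_mod_cast hd0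
    have hd1 : (1 : ℝ) ≤ d := by exact_mod_cast hd0
    set Q := S.filter (fun p => o p = d) with hQ
    have hfacts : ∀ p ∈ Q, p.Prime ∧ d ∣ p - 1 ∧ (p : ℤ) ∣ (A : ℤ) ^ d - (B : ℤ) ^ d := by
      intro p hp
      rw [hQ, mem_filter] at hp
      obtain ⟨h1, h2⟩ := hmem p hp.1
      have h3 := r6_order hcop h1 h2 hD
      have h4 : orderOf ((A : ZMod p) * (B : ZMod p)⁻¹) = d := hp.2
      rw [h4] at h3
      exact ⟨h1, h3.2.2.1, h3.2.2.2⟩
    -- the number of primes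
    have hcard : Q.card ≤ l * d := by
      have h1 : ∏ p ∈ Q, p ∣ ((A : ℤ) ^ d - (B : ℤ) ^ d).natAbs := by
        apply Finset.prod_primes_dvd
        · intro p hp
          exact (hfacts p hp).1.prime
        · intro p hp
          exact Int.natCast_dvd.1 (hfacts p hp).2.2
      have h2 : 0 < ((A : ℤ) ^ d - (B : ℤ) ^ d).natAbs :=
        Int.natAbs_pos.2 (r6_ne hAB hd0)
      have h3 := Nat.le_of_dvd h2 h1
      have h4 : 2 ^ Q.card ≤ ∏ p ∈ Q, p := by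
        rw [← prod_const]
        apply prod_le_prod'
        intro p hp
        exact (hfacts p hp).1.two_le
      have h5 : 2 ^ Q.card ≤ 2 ^ (l * d) := h4.trans (h3.trans (r6_natAbs_le hA hB))
      exact (Nat.pow_le_pow_iff_right (by norm_num)).1 h5
    -- the quotients
    have hq : ∀ p ∈ Q, p = d * ((p - 1) / d) + 1 ∧ 1 ≤ (p - 1) / d := by
      intro p hp
      obtain ⟨h1, h2, -⟩ := hfacts p hp
      have h3 : d * ((p - 1) / d) = p - 1 := Nat.mul_div_cancel' h2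
      have h4 := h1.two_le
      refine ⟨by omega, ?_⟩
      rcases Nat.eq_zero_or_pos ((p - 1) / d) with h5 | h5
      · rw [h5, mul_zero] at h3
        omega
      · exact h5
    have hinj : Set.InjOn (fun p : ℕ => (p - 1) / d) (Q : Set ℕ) := by
      intro p hp r hr he
      have h1 := (hq p hp).1
      have h2 := (hq r hr).1
      simp only at he
      rw [h1, h2, he]
    have hle : ∀ p ∈ Q, (p : ℝ) ^ (-σ) ≤ (d : ℝ) ^ (-σ) * (((p - 1) / d : ℕ) : ℝ) ^ (-σ) := by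
      intro p hp
      obtain ⟨h1, h2⟩ := hq p hp
      have h3 : (0 : ℝ) < (((p - 1) / d : ℕ) : ℝ) := by exact_mod_cast h2
      rw [← Real.mul_rpow hdR.le h3.le]
      apply Real.rpow_le_rpow_of_nonpos (by positivity) _ (by linarith)
      have h4 : d * ((p - 1) / d) ≤ p := by omega
      exact_mod_cast h4
    have hld : (0 : ℝ) < ((l * d : ℕ) : ℝ) := by
      push_cast
      positivity
    calc ∑ p ∈ Q, (p : ℝ) ^ (-σ)
        ≤ ∑ p ∈ Q, (d : ℝ) ^ (-σ) * (((p - 1) / d : ℕ) : ℝ) ^ (-σ) := sum_le_sum hle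
      _ = (d : ℝ) ^ (-σ) * ∑ q ∈ Q.image (fun p : ℕ => (p - 1) / d), (q : ℝ) ^ (-σ) := by
          rw [← mul_sum, sum_image hinj]
      _ ≤ (d : ℝ) ^ (-σ) * (C * ((l * d : ℕ) : ℝ) ^ (1 - σ)) := by
          apply mul_le_mul_of_nonneg_left _ (by positivity)
          apply hsum _ (l * d)
          · intro q hq'
            obtain ⟨p, hp, rfl⟩ := mem_image.1 hq'
            exact (hq p hp).2
          · exact card_image_le.trans hcard
          · exact Nat.one_le_iff_ne_zero.2 (by positivity)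
      _ = C * (l : ℝ) ^ (1 - σ) * (d : ℝ) ^ (1 - 2 * σ) := by
          push_cast
          rw [Real.mul_rpow hl0.le hdR.le]
          have : (d : ℝ) ^ (1 - 2 * σ) = (d : ℝ) ^ (-σ) * (d : ℝ) ^ (1 - σ) := by
            rw [← Real.rpow_add hdR]
            ring_nf
          rw [this]
          ring
      _ ≤ C * (l : ℝ) ^ (1 - σ) * 1 := by
          apply mul_le_mul_of_nonneg_left _ (by positivity)
          exact Real.rpow_le_one_of_one_le_of_nonpos hd1 (by linarith)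
      _ = C * (l : ℝ) ^ (1 - σ) := mul_one _
  calc ∑ d ∈ D.divisors, ∑ p ∈ S.filter (fun p => o p = d), (p : ℝ) ^ (-σ)
      ≤ ∑ d ∈ D.divisors, C * (l : ℝ) ^ (1 - σ) := sum_le_sum hfib
    _ = C * (D.divisors.card : ℝ) * (l : ℝ) ^ (1 - σ) := by
        rw [sum_const, nsmul_eq_mul]
        ring

end Pool.Agent.LibJes52
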