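import Pool.Agent.LibJes52.C0
import Pool.Agent.LibJes52.R5
import Pool.Agent.LibJes52.R6

/-!
Moduli for which a given number has a small order: square root saving.
-/

set_option autoImplicit false
open scoped Classical
open Finset

namespace Pool.Agent.LibJes52

/-- `l ^ a ≤ η l + K` for `a < 1` -/
private theorem r7_rpow_le (a η : ℝ) (ha : 0 < a) (ha1 : a < 1) (hη : 0 < η) : ∃ K : ℝ, 0 < K ∧
    ∀ l : ℝ, 0 < l → l ^ a ≤ η * l + K := by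
  set B : ℝ := η ^ (-(1 / (1 - a))) with hB
  have h1a : 0 < 1 - a := by linarith
  have hB0 : 0 < B := Real.rpow_pos_of_pos hη _
  refine ⟨B ^ a, Real.rpow_pos_of_pos hB0 _, fun l hl => ?_⟩
  by_cases h : l ≤ B
  · have h1 : l ^ a ≤ B ^ a := Real.rpow_le_rpow hl.le h ha.le
    have h2 : 0 < η * l := mul_pos hη hl
    linarith
  · have h1 : B < l := not_le.1 h
    have h2 : l ^ (a - 1) ≤ η := by
      calc l ^ (a - 1) ≤ B ^ (a - 1) :=
            Real.rpow_le_rpow_of_nonpos hB0 h1.le (by linarith)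
        _ = η := by
            rw [hB, ← Real.rpow_mul hη.le]
            have : -(1 / (1 - a)) * (a - 1) = 1 := by
              field_simp
              ring
            rw [this, Real.rpow_one]
    have h3 : l ^ a = l ^ (a - 1) * l := by
      have h4 := Real.rpow_add hl (a - 1) 1
      rw [Real.rpow_one] at h4
      rw [← h4]
      congr 1
      ring
    have h5 : l ^ a ≤ η * l := by
      rw [h3]
      exact mul_le_mul_of_nonneg_right h2 hl.le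
    have h6 : 0 < B ^ a := Real.rpow_pos_of_pos hB0 _
    linarith

/-- growth -/
private theorem r7_growth (c η : ℝ) (hc : 0 < c) (hη : 0 < η) : ∃ K : ℝ, 0 < K ∧
    ∀ l : ℝ, 0 < l → l ^ 40 * Real.exp (c * l ^ (0.6 : ℝ)) ≤ K * Real.exp (η * l) := by
  obtain ⟨K, hK, h1⟩ := r7_rpow_le 0.6 (η / (2 * c)) (by norm_num) (by norm_num) (by positivity)
  refine ⟨(Nat.factorial 40 : ℝ) * (2 / η) ^ 40 * Real.exp (c * K), by positivity, fun l hl => ?_⟩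
  have h2 : Real.exp (c * l ^ (0.6 : ℝ)) ≤ Real.exp (η / 2 * l) * Real.exp (c * K) := by
    rw [← Real.exp_add]
    apply Real.exp_le_exp.2
    have h3 := mul_le_mul_of_nonneg_left (h1 l hl) hc.le
    have h4 : c * (η / (2 * c) * l + K) = η / 2 * l + c * K := by
      field_simp
    linarith
  have h5 : l ^ 40 ≤ (Nat.factorial 40 : ℝ) * (2 / η) ^ 40 * Real.exp (η / 2 * l) := by
    have h6 := Real.pow_div_factorial_le_exp (η / 2 * l) (by positivity) 40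
    have h7 : (0 : ℝ) < (Nat.factorial 40 : ℝ) := by positivity
    rw [div_le_iff₀ h7] at h6
    calc l ^ 40 = (2 / η) ^ 40 * (η / 2 * l) ^ 40 := by
          rw [← mul_pow]
          congr 1
          field_simp
      _ ≤ (2 / η) ^ 40 * (Real.exp (η / 2 * l) * (Nat.factorial 40 : ℝ)) := by gcongr
      _ = _ := by ring
  calc l ^ 40 * Real.exp (c * l ^ (0.6 : ℝ))
      ≤ ((Nat.factorial 40 : ℝ) * (2 / η) ^ 40 * Real.exp (η / 2 * l)) *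
        (Real.exp (η / 2 * l) * Real.exp (c * K)) := by gcongr
    _ = (Nat.factorial 40 : ℝ) * (2 / η) ^ 40 * Real.exp (c * K) *
        (Real.exp (η / 2 * l) * Real.exp (η / 2 * l)) := by ring
    _ = _ := by
        rw [← Real.exp_add]
        congr 2
        ring

/-- `2 clog M + 2 ≤ 3 log M + 4` -/
private theorem r7_clog {M : ℕ} (hM : 1 ≤ M) :
    (2 * (Nat.clog 2 M : ℝ) + 2) ≤ 3 * Real.log M + 4 := by
  have hlog : 0 ≤ Real.log M := Real.log_natCast_nonneg M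
  rcases Nat.eq_zero_or_pos (Nat.clog 2 M) with h0 | h0
  · rw [h0]
    push_cast
    linarith
  · have hM2 : 2 ≤ M := by
      by_contra h
      have : M = 1 := by omega
      rw [this] at h0
      simp at h0
    have h3 : 2 ^ (Nat.clog 2 M - 1) < M :=
      Nat.pow_pred_clog_lt_self (b := 2) (by norm_num) (x := M) (by omega)
    have h4 : ((Nat.clog 2 M - 1 : ℕ) : ℝ) * Real.log 2 ≤ Real.log M := by
      rw [← Real.log_pow]
      apply Real.log_le_log (by positivity)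
      exact_mod_cast h3.le
    have h5 : ((Nat.clog 2 M - 1 : ℕ) : ℝ) = (Nat.clog 2 M : ℝ) - 1 := by
      push_cast [Nat.cast_sub h0]
      ring
    rw [h5] at h4
    have hl2 := Real.log_two_gt_d9
    nlinarith

/-- reduction to coprime bases -/
private theorem r7_bases {w M : ℕ} (hw : 1 ≤ w) (hwM : w ≤ 2 * M) (hM : 1 ≤ M) :
    ∃ A B : ℕ, A.Coprime B ∧ A ≠ B ∧ A ≤ 2 ^ (2 * Nat.clog 2 M + 2) ∧
      B ≤ 2 ^ (2 * Nat.clog 2 M + 2) ∧ ∀ u D : ℕ, Odd u →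
        (u : ℤ) ∣ ((w : ℤ) ^ 2) ^ D - (2 : ℤ) ^ D → (u : ℤ) ∣ (A : ℤ) ^ D - (B : ℤ) ^ D := by
  have hM2 : M ≤ 2 ^ Nat.clog 2 M := Nat.le_pow_clog (by norm_num) M
  have hw2 : w ^ 2 ≤ 2 ^ (2 * Nat.clog 2 M + 2) := by
    calc w ^ 2 ≤ (2 * 2 ^ Nat.clog 2 M) ^ 2 := Nat.pow_le_pow_left (by omega) 2
      _ = 2 ^ (2 * Nat.clog 2 M + 2) := by
        rw [mul_pow, ← pow_mul]
        rw [show Nat.clog 2 M * 2 = 2 * Nat.clog 2 M by ring, pow_add]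
        ring
  rcases Nat.even_or_odd w with he | ho
  · obtain ⟨v, hv⟩ := he
    have hv' : w = 2 * v := by omega
    refine ⟨2 * v ^ 2, 1, Nat.coprime_one_right _, ?_, ?_, Nat.one_le_two_pow, ?_⟩
    · omega
    · have : w ^ 2 = 4 * v ^ 2 := by rw [hv']; ring
      omega
    · intro u D hu hd
      have h1 : ((w : ℤ) ^ 2) ^ D - (2 : ℤ) ^ D =
          (2 : ℤ) ^ D * (((2 * v ^ 2 : ℕ) : ℤ) ^ D - ((1 : ℕ) : ℤ) ^ D) := by
        rw [hv']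
        push_cast
        rw [one_pow, mul_sub, mul_one, ← mul_pow]
        congr 2
        ring
      rw [h1] at hd
      have h2 : IsCoprime (u : ℤ) ((2 : ℤ) ^ D) := by
        apply IsCoprime.pow_right
        rw [Int.isCoprime_iff_gcd_eq_one]
        have : Nat.Coprime u 2 := (Nat.coprime_two_right).2 hu
        exact_mod_cast this
      exact h2.dvd_of_dvd_mul_left hd
  · refine ⟨w ^ 2, 2, ?_, ?_, hw2, ?_, ?_⟩
    · apply Nat.Coprime.pow_left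
      exact (Nat.coprime_two_right).2 ho
    · intro h
      have h1 : Odd (w ^ 2) := ho.pow
      rw [h] at h1
      exact absurd h1 (by decide)
    · calc 2 = 2 ^ 1 := by norm_num
        _ ≤ 2 ^ (2 * Nat.clog 2 M + 2) := Nat.pow_le_pow_right (by norm_num) (by omega)
    · intro u D _ hd
      push_cast
      exact hd

private theorem r7_T (G L : ℕ) :
    ((G * (2 * L + 1) ^ 40 : ℕ) : ℝ) ≤ ((G : ℝ) + 1) * ((2 * L + 2 : ℕ) : ℝ) ^ 40 := by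
  have h : G * (2 * L + 1) ^ 40 ≤ (G + 1) * (2 * L + 2) ^ 40 :=
    Nat.mul_le_mul (Nat.le_succ _) (Nat.pow_le_pow_left (Nat.le_succ _) 40)
  have h2 : ((G * (2 * L + 1) ^ 40 : ℕ) : ℝ) ≤ (((G + 1) * (2 * L + 2) ^ 40 : ℕ) : ℝ) :=
    Nat.cast_le.2 h
  refine h2.trans (le_of_eq ?_)
  rw [Nat.cast_mul, Nat.cast_pow, Nat.cast_add, Nat.cast_one]

private theorem r7_main (ε : ℝ) (hε : 0 < ε) (G : ℕ) : ∃ C : ℝ, 0 < C ∧ ∀ M w l T : ℕ, 1 ≤ M →
    1 ≤ l → (l : ℝ) ≤ 3 * Real.log M + 4 → (T : ℝ) ≤ ((G : ℝ) + 1) * (l : ℝ) ^ 40 →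
    (∃ A B : ℕ, A.Coprime B ∧ A ≠ B ∧ A ≤ 2 ^ l ∧
      B ≤ 2 ^ l ∧ ∀ u D : ℕ, Odd u →
        (u : ℤ) ∣ ((w : ℤ) ^ 2) ^ D - (2 : ℤ) ^ D → (u : ℤ) ∣ (A : ℤ) ^ D - (B : ℤ) ^ D) →
    (((Icc 1 (2 * M)).filter (fun u : ℕ => Odd u ∧ ∃ D : ℕ, 0 < D ∧
      D ≤ T ∧
      (u : ℤ) ∣ ((w : ℤ) ^ 2) ^ D - (2 : ℤ) ^ D)).card : ℝ) ≤ C * (M : ℝ) ^ (1 / 2 + ε) := by
  set δ : ℝ := min ε (1 / 2) / 2 with hδ
  have hδ0 : 0 < δ := by positivity
  have hδε : δ ≤ ε / 2 := by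
    have := min_le_left ε (1 / 2)
    linarith
  have hδ4 : δ ≤ 1 / 4 := by
    have := min_le_right ε (1 / 2)
    linarith
  set σ : ℝ := 1 / 2 + δ with hσ
  obtain ⟨A₀, hA₀, hcomp⟩ := card_composed_sum_le σ (by linarith)
  obtain ⟨C₁, hC₁, hord⟩ := sum_order_le σ (by linarith) (by linarith)
  obtain ⟨C₂, hC₂, hdiv⟩ := card_divisors_le_rpow (1 / 400) (by norm_num)
  set c : ℝ := A₀ * (C₁ * (C₂ * ((G : ℝ) + 1) ^ (1 / 400 : ℝ))) with hc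
  have hc0 : 0 < c := by
    have : 0 < C₂ := by linarith
    positivity
  obtain ⟨K, hK, hgrow⟩ := r7_growth c (ε / 6) hc0 (by positivity)
  refine ⟨((G : ℝ) + 1) * (K * Real.exp (4 * (ε / 6))) * 2, by positivity, ?_⟩
  intro M w l T hM hl1 hLlog hTl hbases
  have hMR : (1 : ℝ) ≤ M := by exact_mod_cast hM
  have hM0 : (0 : ℝ) < M := by linarith
  have hlR : (1 : ℝ) ≤ l := by exact_mod_cast hl1
  have hl0 : (0 : ℝ) < l := by linarith
  obtain ⟨A, B, hcop, hAB, hA, hB, hred⟩ := hbases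
  -- one exponent
  have hone : ∀ D ∈ Icc 1 T, (((Icc 1 (2 * M)).filter (fun u : ℕ => Odd u ∧
      (u : ℤ) ∣ ((w : ℤ) ^ 2) ^ D - (2 : ℤ) ^ D)).card : ℝ) ≤
      ((2 * M : ℕ) : ℝ) ^ σ * Real.exp (c * (l : ℝ) ^ (0.6 : ℝ)) := by
    intro D hD
    rw [mem_Icc] at hD
    have hD0 : 0 < D := hD.1
    set P := ((A : ℤ) ^ D - (B : ℤ) ^ D).natAbs.primeFactors with hP
    have hprime : ∀ p ∈ P, p.Prime := fun p hp => (Nat.mem_primeFactors.1 hp).1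
    have hne : ((A : ℤ) ^ D - (B : ℤ) ^ D).natAbs ≠ 0 := by
      intro h0
      have h1 := Int.natAbs_eq_zero.1 h0
      have h2 : A ^ D = B ^ D := by
        have : (A : ℤ) ^ D = (B : ℤ) ^ D := by linarith
        exact_mod_cast this
      exact hAB (Nat.pow_left_injective hD0.ne' h2)
    have h1 := hcomp P (2 * M) hprime
    have h2 := hord A B l D hcop hAB hA hB hl1 hD0
    have h3 := hdiv D hD0
    have hexp : A₀ * ∑ p ∈ P, (p : ℝ) ^ (-σ) ≤ c * (l : ℝ) ^ (0.6 : ℝ) := by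
      have h4 : (D : ℝ) ^ (1 / 400 : ℝ) ≤ ((G : ℝ) + 1) ^ (1 / 400 : ℝ) * (l : ℝ) ^ (0.1 : ℝ) := by
        have h5 : (D : ℝ) ≤ ((G : ℝ) + 1) * (l : ℝ) ^ 40 := by
          have : (D : ℝ) ≤ T := by exact_mod_cast hD.2
          exact this.trans hTl
        calc (D : ℝ) ^ (1 / 400 : ℝ) ≤ (((G : ℝ) + 1) * (l : ℝ) ^ 40) ^ (1 / 400 : ℝ) :=
              Real.rpow_le_rpow (by positivity) h5 (by norm_num)
          _ = ((G : ℝ) + 1) ^ (1 / 400 : ℝ) * ((l : ℝ) ^ 40) ^ (1 / 400 : ℝ) :=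
              Real.mul_rpow (by positivity) (by positivity)
          _ = _ := by
              congr 1
              rw [← Real.rpow_natCast, ← Real.rpow_mul hl0.le]
              norm_num
      have h6 : (l : ℝ) ^ (1 - σ) ≤ (l : ℝ) ^ (0.5 : ℝ) :=
        Real.rpow_le_rpow_of_exponent_le hlR (by rw [hσ]; norm_num; linarith)
      have h7 : (l : ℝ) ^ (0.1 : ℝ) * (l : ℝ) ^ (0.5 : ℝ) = (l : ℝ) ^ (0.6 : ℝ) := by
        rw [← Real.rpow_add hl0]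
        norm_num
      have hC20 : 0 < C₂ := by linarith
      calc A₀ * ∑ p ∈ P, (p : ℝ) ^ (-σ)
          ≤ A₀ * (C₁ * (D.divisors.card : ℝ) * (l : ℝ) ^ (1 - σ)) := by gcongr
        _ ≤ A₀ * (C₁ * (C₂ * (((G : ℝ) + 1) ^ (1 / 400 : ℝ) * (l : ℝ) ^ (0.1 : ℝ))) *
            (l : ℝ) ^ (0.5 : ℝ)) := by
            gcongr
            exact h3.trans (mul_le_mul_of_nonneg_left h4 hC20.le)
        _ = c * ((l : ℝ) ^ (0.1 : ℝ) * (l : ℝ) ^ (0.5 : ℝ)) := by rw [hc]; ring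
        _ = c * (l : ℝ) ^ (0.6 : ℝ) := by rw [h7]
    have hsub : (Icc 1 (2 * M)).filter (fun u : ℕ => Odd u ∧
        (u : ℤ) ∣ ((w : ℤ) ^ 2) ^ D - (2 : ℤ) ^ D) ⊆
        (Icc 1 (2 * M)).filter (fun u : ℕ => ∀ p : ℕ, p.Prime → p ∣ u → p ∈ P) := by
      intro u hu
      rw [mem_filter] at hu ⊢
      refine ⟨hu.1, fun p hp hpu => ?_⟩
      rw [hP, Nat.mem_primeFactors]
      refine ⟨hp, ?_, hne⟩
      have h8 := hred u D hu.2.1 hu.2.2
      exact (hpu.trans (Int.natCast_dvd.1 h8))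
    calc (((Icc 1 (2 * M)).filter (fun u : ℕ => Odd u ∧
          (u : ℤ) ∣ ((w : ℤ) ^ 2) ^ D - (2 : ℤ) ^ D)).card : ℝ)
        ≤ (((Icc 1 (2 * M)).filter
          (fun u : ℕ => ∀ p : ℕ, p.Prime → p ∣ u → p ∈ P)).card : ℝ) := by
          exact_mod_cast card_le_card hsub
      _ ≤ _ := h1
      _ ≤ _ := by
          apply mul_le_mul_of_nonneg_left _ (by positivity)
          exact Real.exp_le_exp.2 hexp
  -- all exponents
  have hall : (((Icc 1 (2 * M)).filter (fun u : ℕ => Odd u ∧ ∃ D : ℕ, 0 < D ∧ D ≤ T ∧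
      (u : ℤ) ∣ ((w : ℤ) ^ 2) ^ D - (2 : ℤ) ^ D)).card : ℝ) ≤
      T * (((2 * M : ℕ) : ℝ) ^ σ * Real.exp (c * (l : ℝ) ^ (0.6 : ℝ))) := by
    have hsub : (Icc 1 (2 * M)).filter (fun u : ℕ => Odd u ∧ ∃ D : ℕ, 0 < D ∧ D ≤ T ∧
        (u : ℤ) ∣ ((w : ℤ) ^ 2) ^ D - (2 : ℤ) ^ D) ⊆
        (Icc 1 T).biUnion (fun D => (Icc 1 (2 * M)).filter (fun u : ℕ => Odd u ∧
          (u : ℤ) ∣ ((w : ℤ) ^ 2) ^ D - (2 : ℤ) ^ D)) := by
      intro u hu
      rw [mem_filter] at hu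
      obtain ⟨h1, h2, D, h3, h4, h5⟩ := hu
      rw [mem_biUnion]
      exact ⟨D, mem_Icc.2 ⟨h3, h4⟩, mem_filter.2 ⟨h1, h2, h5⟩⟩
    calc _ ≤ (((Icc 1 T).biUnion (fun D => (Icc 1 (2 * M)).filter (fun u : ℕ => Odd u ∧
          (u : ℤ) ∣ ((w : ℤ) ^ 2) ^ D - (2 : ℤ) ^ D))).card : ℝ) := by
          exact_mod_cast card_le_card hsub
      _ ≤ ∑ D ∈ Icc 1 T, (((Icc 1 (2 * M)).filter (fun u : ℕ => Odd u ∧
          (u : ℤ) ∣ ((w : ℤ) ^ 2) ^ D - (2 : ℤ) ^ D)).card : ℝ) := by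
          exact_mod_cast card_biUnion_le
      _ ≤ ∑ D ∈ Icc 1 T, ((2 * M : ℕ) : ℝ) ^ σ * Real.exp (c * (l : ℝ) ^ (0.6 : ℝ)) :=
          sum_le_sum hone
      _ = _ := by
          rw [sum_const, Nat.card_Icc, nsmul_eq_mul]
          simp
  refine hall.trans ?_
  have h1 : ((2 * M : ℕ) : ℝ) ^ σ ≤ 2 * (M : ℝ) ^ σ := by
    push_cast
    rw [Real.mul_rpow (by norm_num) hM0.le]
    apply mul_le_mul_of_nonneg_right _ (by positivity)
    calc (2 : ℝ) ^ σ ≤ 2 ^ (1 : ℝ) := Real.rpow_le_rpow_of_exponent_le (by norm_num) (by linarith)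
      _ = 2 := Real.rpow_one 2
  have h2 : Real.exp (ε / 6 * l) ≤ Real.exp (4 * (ε / 6)) * (M : ℝ) ^ (ε / 2) := by
    rw [Real.rpow_def_of_pos hM0, ← Real.exp_add]
    apply Real.exp_le_exp.2
    have h5 := mul_le_mul_of_nonneg_left hLlog (by positivity : 0 ≤ ε / 6)
    nlinarith
  have h3 := hgrow l hl0
  have h4 : (M : ℝ) ^ (ε / 2) * (M : ℝ) ^ σ ≤ (M : ℝ) ^ (1 / 2 + ε) := by
    rw [← Real.rpow_add hM0]
    apply Real.rpow_le_rpow_of_exponent_le hMR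
    rw [hσ]
    linarith
  calc (T : ℝ) * (((2 * M : ℕ) : ℝ) ^ σ * Real.exp (c * (l : ℝ) ^ (0.6 : ℝ)))
      ≤ (((G : ℝ) + 1) * (l : ℝ) ^ 40) * ((2 * (M : ℝ) ^ σ) * Real.exp (c * (l : ℝ) ^ (0.6 : ℝ))) := by
        gcongr
    _ = ((G : ℝ) + 1) * ((l : ℝ) ^ 40 * Real.exp (c * (l : ℝ) ^ (0.6 : ℝ))) * 2 * (M : ℝ) ^ σ := by ring
    _ ≤ ((G : ℝ) + 1) * (K * (Real.exp (4 * (ε / 6)) * (M : ℝ) ^ (ε / 2))) * 2 * (M : ℝ) ^ σ := by
        have h6 := h3.trans (mul_le_mul_of_nonneg_left h2 hK.le)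
        have hG : (0 : ℝ) ≤ (G : ℝ) + 1 := by positivity
        have h7 := mul_le_mul_of_nonneg_left h6 hG
        have h8 := mul_le_mul_of_nonneg_right h7 (by norm_num : (0 : ℝ) ≤ 2)
        exact mul_le_mul_of_nonneg_right h8 (by positivity)
    _ = ((G : ℝ) + 1) * (K * Real.exp (4 * (ε / 6))) * 2 * ((M : ℝ) ^ (ε / 2) * (M : ℝ) ^ σ) := by ring
    _ ≤ _ := by gcongr

theorem card_moduli_sqrt_le (ε : ℝ) (hε : 0 < ε) : ∃ C : ℝ, 0 < C ∧ ∀ M w : ℕ, 1 ≤ M → 1 ≤ w →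
    w ≤ 2 * M → (((Icc 1 (2 * M)).filter (fun u : ℕ => Odd u ∧ ∃ D : ℕ, 0 < D ∧
      D ≤ 2 ^ 701 * (2 * Nat.clog 2 M + 1) ^ 40 ∧
      (u : ℤ) ∣ ((w : ℤ) ^ 2) ^ D - (2 : ℤ) ^ D)).card : ℝ) ≤ C * (M : ℝ) ^ (1 / 2 + ε) := by
  obtain ⟨C, hC, h⟩ := r7_main ε hε (2 ^ 701)
  refine ⟨C, hC, fun M w hM hw hwM => ?_⟩
  exact h M w (2 * Nat.clog 2 M + 2) _ hM (Nat.le_add_left _ _)
    ((by push_cast; exact r7_clog hM)) (r7_T (2 ^ 701) (Nat.clog 2 M)) (r7_bases hw hwM hM)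

end Pool.Agent.LibJes52
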