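import Pool.Agent.LibJes52.R7
import Pool.Agent.LibJes52.J8
import Pool.Agent.LibJes52.D1

/-!
Rows, columns and diagonals.
-/

set_option autoImplicit false
open scoped Classical
open Finset

namespace Pool.Agent.LibJes52

/-- the pair `m > n` generates an exceptional primitive triple -/
def Bad (m n : ℕ) : Prop :=
  0 < n ∧ n < m ∧ m.Coprime n ∧ Odd (m + n) ∧ Other (m ^ 2 - n ^ 2, 2 * m * n, m ^ 2 + n ^ 2)

/-- for an exceptional pair, `m + n` divides `(w ^ 2) ^ D - 2 ^ D` for `w = m - n, 2 m, 2 n` -/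
theorem Bad.dvd {m n M : ℕ} (h : Bad m n) (hM : m ≤ M) : ∃ D : ℕ, 0 < D ∧
    D ≤ 2 ^ 701 * (2 * Nat.clog 2 M + 1) ^ 40 ∧
      ((m + n : ℕ) : ℤ) ∣ (((m - n : ℕ) : ℤ) ^ 2) ^ D - (2 : ℤ) ^ D ∧
      ((m + n : ℕ) : ℤ) ∣ (((2 * m : ℕ) : ℤ) ^ 2) ^ D - (2 : ℤ) ^ D ∧
      ((m + n : ℕ) : ℤ) ∣ (((2 * n : ℕ) : ℤ) ^ 2) ^ D - (2 : ℤ) ^ D := by
  obtain ⟨hn, hmn, hco, hpar, x, y, z, hx, hy, hz, he, hne⟩ := h
  simp only at he
  have hlt : n ^ 2 < m ^ 2 := Nat.pow_lt_pow_left hmn two_ne_zero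
  have hS : Sol 1 (m ^ 2 - n ^ 2) (2 * m * n) (m ^ 2 + n ^ 2) x y z := by
    refine ⟨one_pos, Nat.sub_pos_of_lt hlt, Nat.mul_pos (Nat.mul_pos two_pos (hn.trans hmn)) hn, ?_, coprime_gen hmn hco hpar, hx, hy,
      hz, ?_, hne⟩
    · zify [hlt.le]
      ring
    · rw [one_mul, one_mul, one_mul]
      exact he
  obtain ⟨-, D, hD, hD2, hdvd⟩ := hS.dvd_sum hmn (Nat.coprime_one_left _)
  have hlam : 1 * (m ^ 2 + n ^ 2) ≤ 2 ^ (2 * Nat.clog 2 M + 1) := by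
    have h1 : M ≤ 2 ^ Nat.clog 2 M := Nat.le_pow_clog (by norm_num) M
    have h2 : m ^ 2 ≤ (2 ^ Nat.clog 2 M) ^ 2 := Nat.pow_le_pow_left (hM.trans h1) 2
    have h3 : (2 : ℕ) ^ (2 * Nat.clog 2 M + 1) = 2 * (2 ^ Nat.clog 2 M) ^ 2 := by
      rw [pow_succ, ← pow_mul, mul_comm (Nat.clog 2 M) 2, mul_comm]
    rw [h3]
    omega
  have hexp := hS.exponents_le hlam
  have hmax : max y z ≤ 2 ^ 700 * (2 * Nat.clog 2 M + 1) ^ 40 := (le_max_right _ _).trans hexp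
  rw [Nat.cast_one, one_mul] at hdvd
  refine ⟨D, hD, ?_, hdvd, ?_, ?_⟩
  · calc D ≤ 2 * max y z := hD2
      _ ≤ 2 * (2 ^ 700 * (2 * Nat.clog 2 M + 1) ^ 40) := Nat.mul_le_mul_left _ hmax
      _ = 2 ^ 701 * (2 * Nat.clog 2 M + 1) ^ 40 := by rw [← mul_assoc, ← pow_succ']
  · have h1 : ((m + n : ℕ) : ℤ) ∣ ((2 * m : ℕ) : ℤ) ^ 2 - ((m - n : ℕ) : ℤ) ^ 2 := by
      refine ⟨3 * (m : ℤ) - n, ?_⟩
      rw [Nat.cast_sub hmn.le]
      push_cast
      ring
    have h2 := h1.trans (sub_dvd_pow_sub_pow _ _ D)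
    have h3 := dvd_add h2 hdvd
    rwa [sub_add_sub_cancel] at h3
  · have h1 : ((m + n : ℕ) : ℤ) ∣ ((2 * n : ℕ) : ℤ) ^ 2 - ((m - n : ℕ) : ℤ) ^ 2 := by
      refine ⟨3 * (n : ℤ) - m, ?_⟩
      rw [Nat.cast_sub hmn.le]
      push_cast
      ring
    have h2 := h1.trans (sub_dvd_pow_sub_pow _ _ D)
    have h3 := dvd_add h2 hdvd
    rwa [sub_add_sub_cancel] at h3

/-- uniform bounds for rows, columns and diagonals -/
theorem lines_bound (ε : ℝ) (hε : 0 < ε) : ∃ C : ℝ, ∀ M d : ℕ, 1 ≤ M →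
    (((Icc 1 M).filter (fun m => Bad m d)).card : ℝ) ≤ C * (M : ℝ) ^ (1 / 2 + ε) ∧
    (((Icc 1 M).filter (fun n => Bad M n)).card : ℝ) ≤ C * (M : ℝ) ^ (1 / 2 + ε) ∧
    (((Icc 1 M).filter (fun m => Bad m (m - d))).card : ℝ) ≤ C * (M : ℝ) ^ (1 / 2 + ε) := by
  obtain ⟨C, hC, hmod⟩ := card_moduli_sqrt_le ε hε
  refine ⟨C, fun M d hM => ⟨?_, ?_, ?_⟩⟩
  · rcases Finset.eq_empty_or_nonempty ((Icc 1 M).filter (fun m => Bad m d)) with h0 | ⟨m0, hm0⟩
    · rw [h0, Finset.card_empty, Nat.cast_zero]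
      positivity
    · obtain ⟨h1, h2⟩ := Finset.mem_filter.1 hm0
      have h1' := (Finset.mem_Icc.1 h1).2
      have hd := h2.1
      have hdm := h2.2.1
      refine le_trans ?_ (hmod M (2 * d) hM (by omega) (by omega))
      rw [Nat.cast_le]
      refine Finset.card_le_card_of_injOn (fun m => m + d) ?_ ?_
      · intro m hm
        obtain ⟨h3, h4⟩ := Finset.mem_filter.1 (Finset.mem_coe.1 hm)
        have h3' := (Finset.mem_Icc.1 h3).2
        obtain ⟨D, g1, g2, -, -, g5⟩ := h4.dvd h3'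
        have h5 := h4.2.1
        exact Finset.mem_coe.2 (Finset.mem_filter.2
          ⟨Finset.mem_Icc.2 ⟨show 1 ≤ m + d by omega, show m + d ≤ 2 * M by omega⟩, h4.2.2.2.1, D, g1, g2, g5⟩)
      · intro m _ m' _ he
        simp only at he
        omega
  · refine le_trans ?_ (hmod M (2 * M) hM (by omega) le_rfl)
    rw [Nat.cast_le]
    refine Finset.card_le_card_of_injOn (fun n => M + n) ?_ ?_
    · intro n hn
      obtain ⟨h3, h4⟩ := Finset.mem_filter.1 (Finset.mem_coe.1 hn)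
      obtain ⟨D, g1, g2, -, g4, -⟩ := h4.dvd le_rfl
      have h5 := h4.2.1
      exact Finset.mem_coe.2 (Finset.mem_filter.2
        ⟨Finset.mem_Icc.2 ⟨show 1 ≤ M + n by omega, show M + n ≤ 2 * M by omega⟩, h4.2.2.2.1, D, g1, g2, g4⟩)
    · intro m _ m' _ he
      simp only at he
      omega
  · rcases Finset.eq_empty_or_nonempty ((Icc 1 M).filter (fun m => Bad m (m - d))) with
      h0 | ⟨m0, hm0⟩
    · rw [h0, Finset.card_empty, Nat.cast_zero]
      positivity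
    · obtain ⟨h1, h2⟩ := Finset.mem_filter.1 hm0
      have h1' := (Finset.mem_Icc.1 h1).2
      have hd := h2.1
      have hdm := h2.2.1
      refine le_trans ?_ (hmod M d hM (by omega) (by omega))
      rw [Nat.cast_le]
      refine Finset.card_le_card_of_injOn (fun m => m + (m - d)) ?_ ?_
      · intro m hm
        obtain ⟨h3, h4⟩ := Finset.mem_filter.1 (Finset.mem_coe.1 hm)
        have h3' := (Finset.mem_Icc.1 h3).2
        obtain ⟨D, g1, g2, g3, -, -⟩ := h4.dvd h3'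
        have h5 := h4.1
        have h6 : m - (m - d) = d := by omega
        rw [h6] at g3
        exact Finset.mem_coe.2 (Finset.mem_filter.2
          ⟨Finset.mem_Icc.2 ⟨show 1 ≤ m + (m - d) by omega, show m + (m - d) ≤ 2 * M by omega⟩, h4.2.2.2.1, D, g1, g2, g3⟩)
      · intro m hm m' hm' he
        have h4 := (Finset.mem_filter.1 (Finset.mem_coe.1 hm)).2.1
        have h4' := (Finset.mem_filter.1 (Finset.mem_coe.1 hm')).2.1
        simp only at he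
        omega

end Pool.Agent.LibJes52
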